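import Pool.Agent.KS6_65.SL.Core

/-!
# Cycles of permutations
-/

set_option autoImplicit false

namespace Pool.Agent.KS6_65.SL

open Equiv

theorem ainv (w : Perm ℕ) (x : ℕ) : w (w⁻¹ x) = x := w.apply_symm_apply x

theorem inva (w : Perm ℕ) (x : ℕ) : w⁻¹ (w x) = x := w.symm_apply_apply x

theorem Str.conj' {m M : ℕ} {w g : Perm ℕ} (hs : Str m M w) (hg : ∀ a, M ≤ a → g a = a)
    (hl : ∀ i < m, w.SameCycle (g⁻¹ i) i) : Str m M (g * w * g⁻¹) := by
  have hg' : ∀ a, M ≤ a → g⁻¹ a = a := fun a ha => by rw [Perm.inv_eq_iff_eq, hg a ha]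
  refine ⟨hs.1, fun a ha => ?_, fun a ha => ?_⟩
  · rw [Perm.mul_apply, Perm.mul_apply, hg' a ha, hs.2.1 a ha, hg a ha]
  · have ha' : g⁻¹ a < M := lt_of_fix hg' ha
    obtain ⟨i, ⟨hi, hia⟩, hu⟩ := hs.2.2 _ ha'
    refine ⟨i, ⟨hi, ?_⟩, ?_⟩
    · rw [Perm.sameCycle_conj]
      exact (hl i hi).trans hia
    · rintro j ⟨hj, hja⟩
      rw [Perm.sameCycle_conj] at hja
      exact hu j ⟨hj, (hl j hj).symm.trans hja⟩

theorem Str.conj {m M : ℕ} {w g : Perm ℕ} (hs : Str m M w) (hg : ∀ a, M ≤ a → g a = a)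
    (hg' : ∀ a < m, g a = a) : Str m M (g * w * g⁻¹) := by
  refine hs.conj' hg fun i hi => ?_
  have : g⁻¹ i = i := by rw [Perm.inv_eq_iff_eq, hg' i hi]
  rw [this]

/-- Insertion of a point in a cycle. -/
theorem sameCycle_mul_swap {w : Perm ℕ} {c z : ℕ} (hz : w z = z) (hc : c ≠ z) {a b : ℕ}
    (ha : a ≠ z) (hb : b ≠ z) : (w * swap c z).SameCycle a b ↔ w.SameCycle a b := by
  have hne : ∀ x, x ≠ z → w x ≠ z := fun x hx h => hx (w.injective (h.trans hz.symm))
  rw [sameCycle_iff_forall, sameCycle_iff_forall]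
  constructor
  · intro h P hP hPa
    have h1 := h (fun x => if x = z then P c else P x) (fun x => ?_) (by simpa [ha] using hPa)
    · simpa [hb] using h1
    · rcases eq_or_ne x z with rfl | hx
      · simp only [Perm.mul_apply, swap_apply_right, if_neg (hne c hc), if_true]
        exact hP c
      · rcases eq_or_ne x c with rfl | hx'
        · simp only [Perm.mul_apply, swap_apply_left, hz, if_true, if_neg hc]
        · simp only [Perm.mul_apply, swap_apply_of_ne_of_ne hx' hx, if_neg (hne x hx), if_neg hx]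
          exact hP x
  · intro h P hP hPa
    refine h P (fun x => ?_) hPa
    rcases eq_or_ne x z with rfl | hx
    · rw [hz]
    · rcases eq_or_ne x c with rfl | hx'
      · have h1 := hP x
        have h2 := hP z
        rw [Perm.mul_apply, swap_apply_left, hz] at h1
        rw [Perm.mul_apply, swap_apply_right] at h2
        exact h2.trans h1
      · have h1 := hP x
        rwa [Perm.mul_apply, swap_apply_of_ne_of_ne hx' hx] at h1

theorem sameCycle_mul_swap_new {w : Perm ℕ} {c z : ℕ} (hz : w z = z) :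
    (w * swap c z).SameCycle c z := by
  refine ⟨1, ?_⟩
  rw [zpow_one, Perm.mul_apply, swap_apply_left, hz]

theorem stab_aux {k : ℕ} {x y : Perm ℕ} (hx : ∀ a, k < a → x a = a)
    (hy : ∀ a, k < a → y a = a) :
    x * swap k (k + 1) * y = x * y * swap (y⁻¹ k) (k + 1) ∧ (x * y) (k + 1) = k + 1 ∧
      y⁻¹ k ≠ k + 1 := by
  have h1 : y⁻¹ (k + 1) = k + 1 := by rw [Perm.inv_eq_iff_eq, hy _ (Nat.lt_succ_self k)]
  refine ⟨?_, ?_, ?_⟩
  · rw [mul_assoc, swap_mul_eq_mul_swap, h1, mul_assoc]
  · rw [Perm.mul_apply, hy _ (Nat.lt_succ_self k), hx _ (Nat.lt_succ_self k)]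
  · intro h
    rw [Perm.inv_eq_iff_eq, hy _ (Nat.lt_succ_self k)] at h
    omega

theorem sameCycle_stab {k : ℕ} {x y : Perm ℕ} (hx : ∀ a, k < a → x a = a)
    (hy : ∀ a, k < a → y a = a) {a b : ℕ} (ha : a ≤ k) (hb : b ≤ k) :
    (x * swap k (k + 1) * y).SameCycle a b ↔ (x * y).SameCycle a b := by
  obtain ⟨h1, h2, h3⟩ := stab_aux hx hy
  rw [h1]
  exact sameCycle_mul_swap h2 h3 (by omega) (by omega)

theorem str_stab {m k : ℕ} {x y : Perm ℕ} (hx : ∀ a, k < a → x a = a)
    (hy : ∀ a, k < a → y a = a) (hm : m ≤ k + 1) :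
    Str m (k + 2) (x * swap k (k + 1) * y) ↔ Str m (k + 1) (x * y) := by
  obtain ⟨h1, h2, h3⟩ := stab_aux hx hy
  have hk : y⁻¹ k < k + 1 := by
    refine lt_of_fix (M := k + 1) (w := y⁻¹) (fun a ha => ?_) (Nat.lt_succ_self k)
    rw [Perm.inv_eq_iff_eq, hy _ (by omega)]
  have hnew : (x * swap k (k + 1) * y).SameCycle (y⁻¹ k) (k + 1) := by
    rw [h1]; exact sameCycle_mul_swap_new h2
  constructor
  · intro hs
    refine ⟨hm, fun a ha => ?_, fun a ha => ?_⟩
    · rw [Perm.mul_apply, hy _ (by omega), hx _ (by omega)]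
    · obtain ⟨i, ⟨hi, hia⟩, hu⟩ := hs.2.2 a (by omega)
      refine ⟨i, ⟨hi, (sameCycle_stab hx hy (by omega) (by omega)).1 hia⟩, ?_⟩
      rintro j ⟨hj, hja⟩
      exact hu j ⟨hj, (sameCycle_stab hx hy (by omega) (by omega)).2 hja⟩
  · intro hs
    refine ⟨by omega, fun a ha => ?_, fun a ha => ?_⟩
    · rw [Perm.mul_apply, Perm.mul_apply, hy _ (by omega),
        swap_apply_of_ne_of_ne (by omega) (by omega), hx _ (by omega)]
    · have key : ∀ c < k + 1, ∃! i, i < m ∧ (x * swap k (k + 1) * y).SameCycle i c := by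
        intro c hc
        obtain ⟨i, ⟨hi, hic⟩, hu⟩ := hs.2.2 c hc
        refine ⟨i, ⟨hi, (sameCycle_stab hx hy (by omega) (by omega)).2 hic⟩, ?_⟩
        rintro j ⟨hj, hjc⟩
        exact hu j ⟨hj, (sameCycle_stab hx hy (by omega) (by omega)).1 hjc⟩
      rcases Nat.lt_or_ge a (k + 1) with h | h
      · exact key a h
      · obtain rfl : a = k + 1 := by omega
        obtain ⟨i, ⟨hi, hic⟩, hu⟩ := key _ hk
        exact ⟨i, ⟨hi, hic.trans hnew⟩, fun j hj => hu j ⟨hj.1, hj.2.trans hnew.symm⟩⟩

theorem perm_factor {k : ℕ} {w : Perm ℕ} (hw : ∀ a, k + 1 < a → w a = a)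
    (hne : w (k + 1) ≠ k + 1) : ∃ x y : Perm ℕ, (∀ a, k < a → x a = a) ∧
      (∀ a, k < a → y a = a) ∧ w = x * swap k (k + 1) * y := by
  have h1 : w (k + 1) < k + 2 :=
    lt_of_fix (M := k + 2) (fun a ha => hw a (by omega)) (by omega)
  refine ⟨swap (w (k + 1)) k, swap k (k + 1) * swap (w (k + 1)) k * w, fun a ha => ?_,
    fun a ha => ?_, ?_⟩
  · exact swap_apply_of_ne_of_ne (by omega) (by omega)
  · rw [Perm.mul_apply, Perm.mul_apply]
    rcases Nat.lt_or_ge (k + 1) a with h | h
    · have h2 : swap (w (k + 1)) k a = a := swap_apply_of_ne_of_ne (by omega) (by omega)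
      rw [hw a h, h2, swap_apply_of_ne_of_ne (by omega) (by omega)]
    · obtain rfl : a = k + 1 := by omega
      rw [swap_apply_left, swap_apply_left]
  · simp only [mul_assoc, swap_mul_self_mul]

/-- A permutation of finitely many positions has finite order. -/
theorem exists_pow_fix {M : ℕ} {w : Perm ℕ} (hw : ∀ a, M ≤ a → w a = a) :
    ∃ n, 0 < n ∧ w ^ n = 1 := by
  have hlt : ∀ x, w x < M ↔ x < M := by
    intro x
    constructor
    · intro h
      by_contra h'
      rw [hw x (by omega)] at h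
      exact h' h
    · exact fun h => lt_of_fix hw h
  let s : Perm {x : ℕ // x < M} := w.subtypePerm hlt
  have : Finite {x : ℕ // x < M} := (Set.finite_lt_nat M).to_subtype
  refine ⟨orderOf s, orderOf_pos s, ?_⟩
  ext a
  rcases Nat.lt_or_ge a M with h | h
  · have h1 : (s ^ orderOf s) ⟨a, h⟩ = ⟨a, h⟩ := by rw [pow_orderOf_eq_one]; rfl
    have h2 := congrArg Subtype.val h1
    rw [Perm.subtypePerm_pow] at h2
    exact h2
  · rw [Perm.pow_apply_eq_self_of_apply_eq_self (hw a h)]
    rfl

/-- Invariant sets of `α * β`, if every cycle of `α` contains at most one of the points `< m` and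
`α` and `β` do not both move a point `≥ m`. -/
theorem invariant_mul {m N : ℕ} {α β : Perm ℕ} (hfin : ∀ a, N ≤ a → α a = a)
    (hsh : ∀ a, m ≤ a → α a = a ∨ β a = a)
    (hα : ∀ i < m, ∀ j < m, α.SameCycle i j → i = j) {P : ℕ → Prop}
    (hP : ∀ x, P ((α * β) x) ↔ P x) : (∀ x, P (α x) ↔ P x) ∧ (∀ x, P (β x) ↔ P x) := by
  have h1 : ∀ a, m ≤ a → (P (α a) ↔ P a) := by
    intro a ha
    rcases hsh a ha with h | h
    · rw [h]
    · have := hP a
      rwa [Perm.mul_apply, h] at this
  have h2 : ∀ x, P (α x) ↔ P x := by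
    intro x
    rcases Nat.lt_or_ge x m with hx | hx
    · have h3 : ∀ j, P ((α ^ (j + 1)) x) ↔ P (α x) := by
        intro j
        induction j with
        | zero => simp
        | succ j ih =>
          rw [pow_succ', Perm.mul_apply]
          rcases eq_or_ne ((α ^ (j + 1)) x) x with h | h
          · rw [h]
          · rw [h1, ih]
            by_contra h'
            push Not at h'
            exact h (hα x hx _ h' ⟨(j + 1 : ℕ), by rw [zpow_natCast]⟩).symm
      obtain ⟨n, hn, hn'⟩ := exists_pow_fix hfin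
      have h4 := h3 (n - 1)
      rw [Nat.sub_add_cancel hn, hn', Perm.one_apply] at h4
      exact h4.symm
    · exact h1 x hx
  refine ⟨h2, fun x => ?_⟩
  rw [← h2, ← Perm.mul_apply]
  exact hP x

theorem invariant_mul' {m N : ℕ} {α β : Perm ℕ} (hfin : ∀ a, N ≤ a → α a = a)
    (hsh : ∀ a, m ≤ a → α a = a ∨ β a = a)
    (hα : ∀ i < m, ∀ j < m, α.SameCycle i j → i = j) {P : ℕ → Prop}
    (hP : ∀ x, P ((β * α) x) ↔ P x) : (∀ x, P (α x) ↔ P x) ∧ (∀ x, P (β x) ↔ P x) := by
  have h := invariant_mul (m := m) (N := N) (α := α⁻¹) (β := β⁻¹) (P := P)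
    (fun a ha => by rw [Perm.inv_eq_iff_eq, hfin a ha])
    (fun a ha => by
      rcases hsh a ha with h | h
      · exact Or.inl (by rw [Perm.inv_eq_iff_eq, h])
      · exact Or.inr (by rw [Perm.inv_eq_iff_eq, h]))
    (fun i hi j hj hij => hα i hi j hj (Perm.sameCycle_inv.1 hij))
    (fun x => by
      rw [← mul_inv_rev]
      have := hP ((β * α)⁻¹ x)
      rw [ainv] at this
      exact this.symm)
  constructor
  · intro x
    have := h.1 (α x)
    rw [inva] at this
    exact this.symm
  · intro x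
    have := h.2 (β x)
    rw [inva] at this
    exact this.symm

/-! ### Insertion of strands -/

/-- The position of the strand `a` after insertion of `z` strands at the position `m`. -/
def skip (m z a : ℕ) : ℕ := if a < m then a else a + z

theorem braid_induction {p : Braid → Prop} (h1 : p 1) (hs : ∀ i, p (sig i))
    (hm : ∀ a b, p a → p b → p (a * b)) (hi : ∀ a, p a → p a⁻¹) (b : Braid) : p b := by
  have h : b ∈ (⊤ : Subgroup Braid) := Subgroup.mem_top b
  rw [← PresentedGroup.closure_range_of artin] at h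
  induction h using Subgroup.closure_induction with
  | mem x hx =>
    obtain ⟨i, rfl⟩ := hx
    exact hs i
  | one => exact h1
  | mul x y _ _ hx hy => exact hm x y hx hy
  | inv x _ hx => exact hi x hx

theorem perm_ins_skip (l : ℕ) (b : Braid) :
    ∀ a, perm (ins l b) (skip l 1 a) = skip l 1 (perm b a) := by
  induction b using braid_induction with
  | h1 => intro a; simp
  | hs i =>
    intro a
    rw [ins_sig, perm_sig]
    unfold insFun skip
    split_ifs with h1 h2 h3 h4 <;>
    simp only [map_mul, map_inv, perm_sig, Perm.mul_apply, swap_inv, swap_apply_def] at * <;>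
    split_ifs at * <;> omega
  | hm x y hx hy =>
    intro a
    rw [map_mul, map_mul, map_mul, Perm.mul_apply, Perm.mul_apply, hy, hx]
  | hi x hx =>
    intro a
    rw [map_inv, map_inv, map_inv, Perm.inv_eq_iff_eq, hx, ainv]

theorem perm_ins_self (l : ℕ) (b : Braid) : perm (ins l b) l = l := by
  induction b using braid_induction with
  | h1 => simp
  | hs i =>
    rw [ins_sig]
    unfold insFun
    split_ifs with h1 h2 <;>
    simp only [map_mul, map_inv, perm_sig, Perm.mul_apply, swap_inv, swap_apply_def] at * <;>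
    split_ifs at * <;> omega
  | hm x y hx hy =>
    rw [map_mul, map_mul, Perm.mul_apply, hy, hx]
  | hi x hx =>
    rw [map_inv, map_inv, Perm.inv_eq_iff_eq, hx]

theorem skip_succ (m z a : ℕ) : skip m (z + 1) a = skip (m + z) 1 (skip m z a) := by
  unfold skip
  split_ifs <;> omega

theorem perm_wide_skip (m z : ℕ) (b : Braid) (a : ℕ) :
    perm (wide m z b) (skip m z a) = skip m z (perm b a) := by
  induction z with
  | zero =>
    have : ∀ c, skip m 0 c = c := by intro c; unfold skip; split_ifs <;> rfl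
    rw [this, this]
    rfl
  | succ z ih =>
    rw [skip_succ m z a, skip_succ m z (perm b a),
      show wide m (z + 1) b = ins (m + z) (wide m z b) from rfl, perm_ins_skip, ih]

theorem perm_wide_mid (m z : ℕ) (b : Braid) {a : ℕ} (h : m ≤ a) (h' : a < m + z) :
    perm (wide m z b) a = a := by
  induction z with
  | zero => omega
  | succ z ih =>
    rw [show wide m (z + 1) b = ins (m + z) (wide m z b) from rfl]
    rcases Nat.lt_or_ge a (m + z) with h1 | h1
    · have h2 : skip (m + z) 1 a = a := by unfold skip; rw [if_pos h1]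
      have h3 := perm_ins_skip (m + z) (wide m z b) a
      rwa [h2, ih h1, h2] at h3
    · obtain rfl : a = m + z := by omega
      exact perm_ins_self _ _

theorem skip_lt_iff {m z M : ℕ} (hm : m ≤ M) (a : ℕ) : skip m z a < M + z ↔ a < M := by
  unfold skip
  split_ifs <;> omega

theorem skip_cases (m z x : ℕ) : (m ≤ x ∧ x < m + z) ∨ ∃ a, x = skip m z a := by
  rcases Nat.lt_or_ge x m with h | h
  · exact Or.inr ⟨x, by unfold skip; rw [if_pos h]⟩
  · rcases Nat.lt_or_ge x (m + z) with h' | h'
    · exact Or.inl ⟨h, h'⟩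
    · exact Or.inr ⟨x - z, by unfold skip; rw [if_neg (by omega)]; omega⟩

theorem skip_inj {m z a b : ℕ} (h : skip m z a = skip m z b) : a = b := by
  unfold skip at h
  split_ifs at h <;> omega

theorem skip_of_lt {m z a : ℕ} (h : a < m) : skip m z a = a := by unfold skip; rw [if_pos h]

theorem perm_wide_of_le {m z M : ℕ} {b : Braid} (hm : m ≤ M) (hb : b ∈ strands M) {a : ℕ}
    (ha : M + z ≤ a) : perm (wide m z b) a = a := by
  rcases skip_cases m z a with h | ⟨c, rfl⟩
  · exact perm_wide_mid m z b h.1 h.2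
  · have hc : M ≤ c := by
      by_contra h
      exact absurd ((skip_lt_iff (z := z) hm c).2 (by omega)) (by omega)
    rw [perm_wide_skip, perm_of_le hb hc]

/-- The setting of a hole, after conjugation. -/
theorem hole_conj_str {m z : ℕ} {h k : Braid} (H : Hole m z h k) :
    Str m (m + z) (perm k * perm h) := by
  have h1 := H.str.conj' (g := perm k) (fun a ha => perm_of_le H.hk ha) H.pass
  have h2 : perm k * perm (h * k) * (perm k)⁻¹ = perm k * perm h := by
    rw [map_mul]; group
  rwa [h2] at h1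

theorem hole_inv {m z : ℕ} {h k : Braid} (H : Hole m z h k) (b : Braid) {P : ℕ → Prop}
    (hP : ∀ x, P ((perm k * perm h * perm (wide m z b)) x) ↔ P x) :
    (∀ x, P ((perm k * perm h) x) ↔ P x) ∧ (∀ x, P (perm (wide m z b) x) ↔ P x) := by
  have h0 := hole_conj_str H
  refine invariant_mul (m := m) (N := m + z) h0.2.1 (fun a ha => ?_)
    (fun i hi j hj hij => h0.eq_of_sameCycle hi hj hij) hP
  rcases Nat.lt_or_ge a (m + z) with h | h
  · exact Or.inr (perm_wide_mid m z b ha h)
  · exact Or.inl (h0.2.1 a h)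

theorem hole_same {m z : ℕ} {h k : Braid} (H : Hole m z h k) (b : Braid) {a c : ℕ}
    (hac : (perm (h * k)).SameCycle a c) :
    (perm (h * wide m z b * k)).SameCycle a c := by
  rw [sameCycle_iff_forall] at hac ⊢
  intro P hP
  refine hac P ?_
  have h1 := (hole_inv H b (P := fun x => P ((perm k)⁻¹ x)) (fun x => ?_)).1
  · intro x
    have h2 := h1 (perm k x)
    simp only [Perm.mul_apply, inva] at h2
    simpa only [map_mul, Perm.mul_apply] using h2
  · have h2 := hP ((perm k)⁻¹ x)
    simp only [map_mul, Perm.mul_apply, ainv] at h2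
    simpa only [Perm.mul_apply, inva] using h2

/-- Cycles of `H0 * θ`. -/
theorem hole_cycle {m z : ℕ} {h k : Braid} (H : Hole m z h k) (b : Braid) {a c : ℕ} :
    (perm k * perm h * perm (wide m z b)).SameCycle (skip m z a) (skip m z c) ↔
      (perm b).SameCycle a c := by
  have h0 := hole_conj_str H
  rw [sameCycle_iff_forall, sameCycle_iff_forall]
  constructor
  · intro hac P hP hPa
    -- the extension of `P`
    let Q : ℕ → Prop := fun x => (m + z ≤ x ∧ P (x - z)) ∨
      (x < m + z ∧ ∃ i < m, (perm k * perm h).SameCycle i x ∧ P i)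
    have hQ : ∀ x, Q (skip m z x) ↔ P x := by
      intro x
      rcases Nat.lt_or_ge x m with hx | hx
      · rw [skip_of_lt hx]
        constructor
        · rintro (⟨h1, -⟩ | ⟨-, i, hi, hi', hPi⟩)
          · omega
          · rwa [← h0.eq_of_sameCycle hi hx hi']
        · intro hPx
          exact Or.inr ⟨by omega, x, hx, Perm.SameCycle.refl _ _, hPx⟩
      · have h1 : skip m z x = x + z := by unfold skip; rw [if_neg (by omega)]
        rw [h1]
        constructor
        · rintro (⟨-, h2⟩ | ⟨h2, -⟩)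
          · simpa using h2
          · omega
        · intro hPx
          exact Or.inl ⟨by omega, by simpa using hPx⟩
    have hθ : ∀ x, Q (perm (wide m z b) x) ↔ Q x := by
      intro x
      rcases skip_cases m z x with hx | ⟨x, rfl⟩
      · rw [perm_wide_mid m z b hx.1 hx.2]
      · rw [perm_wide_skip, hQ, hQ, hP]
    have hH : ∀ x, Q ((perm k * perm h) x) ↔ Q x := by
      intro x
      rcases Nat.lt_or_ge x (m + z) with hx | hx
      · have hx' : (perm k * perm h) x < m + z := lt_of_fix h0.2.1 hx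
        simp only [Q, not_le.2 hx, not_le.2 hx', hx, hx', false_and, true_and, false_or,
          Perm.sameCycle_apply_right]
      · rw [h0.2.1 x hx]
    rw [← hQ]
    refine hac Q (fun x => ?_) ((hQ a).2 hPa)
    rw [Perm.mul_apply (perm k * perm h), hH, hθ]
  · intro hac Q hQ hQa
    have h1 := (hole_inv H b hQ).2
    refine hac (fun x => Q (skip m z x)) (fun x => ?_) hQa
    have h2 := h1 (skip m z x)
    rwa [perm_wide_skip] at h2

theorem hole_conj_iff {m z : ℕ} {h k : Braid} (H : Hole m z h k) {M : ℕ} (hm : m ≤ M) {b : Braid}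
    (hb : b ∈ strands M) :
    Str m (M + z) (perm k * perm h * perm (wide m z b)) ↔ Str m M (perm b) := by
  have h0 := hole_conj_str H
  constructor
  · intro hs
    refine ⟨hm, fun a ha => perm_of_le hb ha, fun a ha => ?_⟩
    obtain ⟨i, ⟨hi, hi'⟩, hu⟩ := hs.2.2 (skip m z a) ((skip_lt_iff hm a).2 ha)
    refine ⟨i, ⟨hi, ?_⟩, ?_⟩
    · rwa [← skip_of_lt (z := z) hi, hole_cycle H] at hi'
    · rintro j ⟨hj, hj'⟩
      refine hu j ⟨hj, ?_⟩
      rwa [← hole_cycle H, skip_of_lt hj] at hj'
  · intro hs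
    refine ⟨by omega, fun a ha => ?_, fun a ha => ?_⟩
    · rw [Perm.mul_apply (perm k * perm h), perm_wide_of_le hm hb ha, h0.2.1 a (by omega)]
    · have key : ∀ c < M,
          ∃! i, i < m ∧ (perm k * perm h * perm (wide m z b)).SameCycle i (skip m z c) := by
        intro c hc
        obtain ⟨i, ⟨hi, hi'⟩, hu⟩ := hs.2.2 c hc
        refine ⟨i, ⟨hi, ?_⟩, ?_⟩
        · rwa [← hole_cycle H, skip_of_lt hi] at hi'
        · rintro j ⟨hj, hj'⟩
          refine hu j ⟨hj, ?_⟩
          rwa [← skip_of_lt (z := z) hj, hole_cycle H] at hj'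
      rcases skip_cases m z a with hx | ⟨c, rfl⟩
      · obtain ⟨i, ⟨hi, hi'⟩, -⟩ := h0.2.2 a hx.2
        have hia : (perm k * perm h * perm (wide m z b)).SameCycle i a := by
          rw [sameCycle_iff_forall] at hi' ⊢
          intro P hP
          exact hi' P (hole_inv H b hP).1
        obtain ⟨j, ⟨hj, hj'⟩, hu⟩ := key i (by omega)
        rw [skip_of_lt hi] at hj' hu
        exact ⟨j, ⟨hj, hj'.trans hia⟩, fun l hl => hu l ⟨hl.1, hl.2.trans hia.symm⟩⟩
      · exact key c ((skip_lt_iff hm c).1 ha)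

theorem hole_str_iff {m z : ℕ} {h k : Braid} (H : Hole m z h k) {M : ℕ} (hm : m ≤ M) {b : Braid}
    (hb : b ∈ strands M) :
    Str m (M + z) (perm (h * wide m z b * k)) ↔ Str m M (perm b) := by
  have e1 : perm k * perm (h * wide m z b * k) * (perm k)⁻¹ =
      perm k * perm h * perm (wide m z b) := by
    rw [map_mul, map_mul]; group
  have e2 : (perm k)⁻¹ * (perm k * perm h * perm (wide m z b)) * ((perm k)⁻¹)⁻¹ =
      perm (h * wide m z b * k) := by
    rw [map_mul, map_mul]; group
  have fk : ∀ a, M + z ≤ a → perm k a = a := fun a ha => perm_of_le H.hk (by omega)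
  rw [← hole_conj_iff H hm hb]
  constructor
  · intro hs
    have := hs.conj' (g := perm k) fk (fun i hi => hole_same H b (H.pass i hi))
    rwa [e1] at this
  · intro hs
    have := hs.conj' (g := (perm k)⁻¹) (fun a ha => by rw [Perm.inv_eq_iff_eq, fk a ha])
      (fun i hi => ?_)
    · rwa [e2] at this
    · rw [inv_inv, ← e1, Perm.sameCycle_conj, inva]
      exact (hole_same H b (H.pass i hi)).symm

theorem wide_cycle (m z : ℕ) (b : Braid) {a c : ℕ} :
    (perm (wide m z b)).SameCycle (skip m z a) (skip m z c) ↔ (perm b).SameCycle a c := by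
  rw [sameCycle_iff_forall, sameCycle_iff_forall]
  constructor
  · intro hac P hP hPa
    let Q : ℕ → Prop := fun x => ∃ a, x = skip m z a ∧ P a
    have hQ : ∀ x, Q (skip m z x) ↔ P x := by
      intro x
      constructor
      · rintro ⟨a, h1, h2⟩
        rwa [skip_inj h1]
      · intro h
        exact ⟨x, rfl, h⟩
    rw [← hQ]
    refine hac Q (fun x => ?_) ((hQ a).2 hPa)
    rcases skip_cases m z x with hx | ⟨x, rfl⟩
    · rw [perm_wide_mid m z b hx.1 hx.2]
    · rw [perm_wide_skip, hQ, hQ, hP]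
  · intro hac Q hQ hQa
    refine hac (fun x => Q (skip m z x)) (fun x => ?_) hQa
    have h2 := hQ (skip m z x)
    rwa [perm_wide_skip] at h2

theorem left_inv' {m M : ℕ} {b : Braid} (hb : b ∈ strands M) (hs : Str m M (perm b)) {z : ℕ}
    {k : Braid} (hk : k ∈ strands (m + z)) {P : ℕ → Prop}
    (hP : ∀ x, P ((perm (wide m z b) * perm k) x) ↔ P x) :
    (∀ x, P (perm (wide m z b) x) ↔ P x) ∧ (∀ x, P (perm k x) ↔ P x) := by
  refine invariant_mul (m := m) (N := M + z) (fun a ha => perm_wide_of_le hs.1 hb ha)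
    (fun a ha => ?_) (fun i hi j hj hij => ?_) hP
  · rcases Nat.lt_or_ge a (m + z) with h | h
    · exact Or.inl (perm_wide_mid m z b ha h)
    · exact Or.inr (perm_of_le hk h)
  · rw [← skip_of_lt (z := z) hi, ← skip_of_lt (z := z) hj, wide_cycle] at hij
    exact hs.eq_of_sameCycle hi hj hij

theorem left_cycle {m M : ℕ} {b : Braid} (hb : b ∈ strands M) (hs : Str m M (perm b)) {z : ℕ}
    {k : Braid} (hk : k ∈ strands (m + z)) {x y : ℕ} (hx : x < m + z) (hy : y < m + z) :
    (perm (wide m z b) * perm k).SameCycle x y ↔ (perm k).SameCycle x y := by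
  rw [sameCycle_iff_forall, sameCycle_iff_forall]
  constructor
  · intro hac P hP hPa
    let Q : ℕ → Prop := fun x => (x < m + z ∧ P x) ∨
      (m + z ≤ x ∧ ∃ i < m, (perm b).SameCycle i (x - z) ∧ P i)
    have hQ : ∀ x < m + z, Q x ↔ P x := by
      intro x hx
      simp [Q, hx, not_le.2 hx]
    have hQ' : ∀ a, Q (skip m z a) ↔ ∃ i < m, (perm b).SameCycle i a ∧ P i := by
      intro a
      rcases Nat.lt_or_ge a m with ha | ha
      · rw [skip_of_lt ha, hQ a (by omega)]
        constructor
        · intro h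
          exact ⟨a, ha, Perm.SameCycle.refl _ _, h⟩
        · rintro ⟨i, hi, hi', h⟩
          rwa [← hs.eq_of_sameCycle hi ha hi']
      · have h1 : skip m z a = a + z := by unfold skip; rw [if_neg (by omega)]
        rw [h1]
        simp only [Q, Nat.add_sub_cancel, show ¬ (a + z < m + z) by omega,
          show m + z ≤ a + z by omega, false_and, true_and, false_or]
    rw [← hQ y hy]
    refine hac Q (fun x => ?_) ((hQ x hx).2 hPa)
    rw [Perm.mul_apply]
    have h1 : ∀ x, Q (perm (wide m z b) x) ↔ Q x := by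
      intro x
      rcases skip_cases m z x with hx | ⟨a, rfl⟩
      · rw [perm_wide_mid m z b hx.1 hx.2]
      · rw [perm_wide_skip, hQ', hQ']
        simp only [Perm.sameCycle_apply_right]
    rw [h1]
    rcases Nat.lt_or_ge x (m + z) with hx | hx
    · rw [hQ _ hx, hQ _ (perm_lt hk hx), hP]
    · rw [perm_of_le hk hx]
  · intro hac P hP
    exact hac P (left_inv' hb hs hk hP).2

theorem left_str_iff {m M : ℕ} {b : Braid} (hb : b ∈ strands M) (hs : Str m M (perm b)) {z : ℕ}
    {k : Braid} (hk : k ∈ strands (m + z)) :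
    Str m (M + z) (perm (wide m z b * k)) ↔ Str m (m + z) (perm k) := by
  have hm := hs.1
  rw [map_mul]
  constructor
  · intro h
    refine ⟨by omega, fun a ha => perm_of_le hk ha, fun a ha => ?_⟩
    obtain ⟨i, ⟨hi, hi'⟩, hu⟩ := h.2.2 a (by omega)
    refine ⟨i, ⟨hi, (left_cycle hb hs hk (by omega) ha).1 hi'⟩, ?_⟩
    rintro j ⟨hj, hj'⟩
    exact hu j ⟨hj, (left_cycle hb hs hk (by omega) ha).2 hj'⟩
  · intro h
    refine ⟨by omega, fun a ha => ?_, fun a ha => ?_⟩
    · rw [Perm.mul_apply, perm_of_le hk (by omega), perm_wide_of_le hm hb ha]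
    · have key : ∀ c < m + z,
          ∃! i, i < m ∧ (perm (wide m z b) * perm k).SameCycle i c := by
        intro c hc
        obtain ⟨i, ⟨hi, hi'⟩, hu⟩ := h.2.2 c hc
        refine ⟨i, ⟨hi, (left_cycle hb hs hk (by omega) hc).2 hi'⟩, ?_⟩
        rintro j ⟨hj, hj'⟩
        exact hu j ⟨hj, (left_cycle hb hs hk (by omega) hc).1 hj'⟩
      rcases Nat.lt_or_ge a (m + z) with ha' | ha'
      · exact key a ha'
      · obtain ⟨c, rfl⟩ : ∃ c, a = skip m z c := by
          rcases skip_cases m z a with hx | h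
          · omega
          · exact h
        obtain ⟨i, ⟨hi, hi'⟩, -⟩ := hs.2.2 c ((skip_lt_iff hm c).1 ha)
        rw [← wide_cycle m z, skip_of_lt hi] at hi'
        have hia : (perm (wide m z b) * perm k).SameCycle i (skip m z c) := by
          rw [sameCycle_iff_forall] at hi' ⊢
          intro P hP
          exact hi' P (left_inv' hb hs hk hP).1
        obtain ⟨j, ⟨hj, hj'⟩, hu⟩ := key i (by omega)
        exact ⟨j, ⟨hj, hj'.trans hia⟩, fun l hl => hu l ⟨hl.1, hl.2.trans hia.symm⟩⟩

/-! ### The standard permutation -/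

/-- `a ↦ a + m` for `a < z` and `a ↦ a - z` for `z ≤ a < z + m`. -/
def stdp (m z : ℕ) : Perm ℕ where
  toFun a := if a < z then a + m else if a < z + m then a - z else a
  invFun a := if a < m then a + z else if a < z + m then a - m else a
  left_inv a := by
    dsimp only
    split_ifs <;> omega
  right_inv a := by
    dsimp only
    split_ifs <;> omega

theorem stdp_apply (m z a : ℕ) :
    stdp m z a = if a < z then a + m else if a < z + m then a - z else a := rfl

theorem stdp_inv_apply (m z a : ℕ) :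
    (stdp m z)⁻¹ a = if a < m then a + z else if a < z + m then a - m else a := rfl

theorem str_stdp (m N : ℕ) : Str m (m + m * N) (stdp m (m * N)) := by
  refine ⟨by omega, fun a ha => ?_, fun a ha => ?_⟩
  · rw [stdp_apply, if_neg (by omega), if_neg (by omega)]
  · have hm : 0 < m := by
      rcases Nat.eq_zero_or_pos m with rfl | h
      · simp at ha
      · exact h
    refine ⟨a % m, ⟨Nat.mod_lt _ hm, ?_⟩, ?_⟩
    · induction a using Nat.strong_induction_on with
      | _ a ih =>
        rcases Nat.lt_or_ge a m with h | h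
        · rw [Nat.mod_eq_of_lt h]
        · have h1 := ih (a - m) (by omega) (by omega)
          rw [← Nat.mod_eq_sub_mod h] at h1
          refine h1.trans ⟨1, ?_⟩
          rw [zpow_one, stdp_apply, if_pos (by omega)]
          omega
    · rintro i ⟨hi, hi'⟩
      rw [sameCycle_iff_forall] at hi'
      refine (hi' (fun x => x % m = i) (fun x => ?_) (Nat.mod_eq_of_lt hi)).symm
      rw [stdp_apply]
      split_ifs with h1 h2
      · rw [Nat.add_mod_right]
      · have h3 : x = (x - m * N) + m * N := by omega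
        rw [show x % m = (x - m * N + m * N) % m by rw [← h3], Nat.add_mul_mod_self_left]
      · rfl

/-- Return times. -/
theorem exists_return {m M : ℕ} {w : Perm ℕ} (hs : Str m M w) :
    ∃ N, 0 < N ∧ ∀ a < M, ∃ j ≤ N, (w⁻¹ ^ j) a < m ∧ ∀ t < j, m ≤ (w⁻¹ ^ t) a := by
  obtain ⟨n, hn, hn'⟩ := exists_pow_fix hs.2.1
  refine ⟨n, hn, fun a ha => ?_⟩
  obtain ⟨i, ⟨hi, hi'⟩, -⟩ := hs.2.2 a ha
  obtain ⟨p, hp⟩ := Perm.sameCycle_inv.2 hi'.symm
  have hex : ∃ j, (w⁻¹ ^ j) a < m := by
    refine ⟨(p % n).toNat, ?_⟩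
    have h1 : w⁻¹ ^ p = w⁻¹ ^ (p % n).toNat := by
      rw [← zpow_natCast, Int.toNat_of_nonneg (Int.emod_nonneg _ (by omega))]
      conv_lhs => rw [← Int.emod_add_mul_ediv p n]
      rw [zpow_add, zpow_mul, zpow_natCast, inv_pow, hn', inv_one, one_zpow, mul_one]
    rw [← h1, hp]
    exact hi
  have hle : Nat.find hex ≤ n := by
    by_contra h
    push Not at h
    have h1 := Nat.find_min hex (m := Nat.find hex - n) (by omega)
    have h2 := Nat.find_spec hex
    have h3 : w⁻¹ ^ Nat.find hex = w⁻¹ ^ (Nat.find hex - n) := by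
      conv_lhs => rw [show Nat.find hex = (Nat.find hex - n) + n by omega, pow_add, inv_pow w n, hn',
        inv_one, mul_one]
    rw [h3] at h2
    exact h1 h2
  refine ⟨Nat.find hex, hle, Nat.find_spec hex, fun t ht => ?_⟩
  have := Nat.find_min hex ht
  omega

end Pool.Agent.KS6_65.SL
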