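import Pool.Agent.KS6_65.SL.Ring

/-!
# Finite generation
-/

set_option autoImplicit false

namespace Pool.Agent.KS6_65.SL

open Equiv
open FreeAbelianGroup (of)

namespace FinGen

/-! ### Finite generation for a fixed number of strands -/

theorem fg_D (M : ℕ) : (D M).FG := by
  have : (D M) = Submodule.span ℤ ((fun i => of (sig i) - of (sig i)⁻¹) '' {i : ℕ | i + 1 < M}) := by
    rw [D]
    congr 1
    ext x
    constructor
    · rintro ⟨i, hi, rfl⟩; exact ⟨i, hi, rfl⟩
    · rintro ⟨i, hi, rfl⟩; exact ⟨i, hi, rfl⟩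
  rw [this]
  refine Submodule.fg_span (Set.Finite.image _ ?_)
  exact (Set.finite_lt_nat M).subset fun i hi => by
    change i < M
    have : i + 1 < M := hi
    omega

theorem D_le (M : ℕ) : D M ≤ I M 1 := by
  rw [D, Submodule.span_le]
  rintro _ ⟨i, hi, rfl⟩
  exact sub_mem_I hi

theorem finite_perms (M : ℕ) : {w : Perm ℕ | ∀ a, M ≤ a → w a = a}.Finite := by
  have : {w : Perm ℕ | ∀ a, M ≤ a → w a = a} ⊆
      Set.range (fun e : Perm {a : ℕ // a < M} => Equiv.Perm.ofSubtype e) := by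
    intro w hw
    refine ⟨w.subtypePerm (fun a => ?_), ?_⟩
    · constructor
      · intro h
        by_contra h'
        have := hw a (by omega)
        omega
      · intro h
        exact lt_of_fix hw h
    · refine Equiv.Perm.ofSubtype_subtypePerm _ ?_
      intro a ha
      by_contra h
      exact ha (hw a (by omega))
  exact (Set.finite_range _).subset this

theorem exists_fg (M j : ℕ) : ∃ S : Submodule ℤ R, S.FG ∧ I M j ≤ S ⊔ I M (j + 1) := by
  classical
  have h0 : ∃ S : Submodule ℤ R, S.FG ∧ I M 0 ≤ S ⊔ I M 1 := by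
    choose! f hf hf' using fun (w : Perm ℕ) (hw : ∀ a, M ≤ a → w a = a) => exists_strands hw
    refine ⟨Submodule.span ℤ ((fun w => of (f w)) '' {w : Perm ℕ | ∀ a, M ≤ a → w a = a}),
      Submodule.fg_span ((finite_perms M).image _), ?_⟩
    change U M ≤ _
    rw [U, Submodule.span_le]
    rintro _ ⟨b, hb, rfl⟩
    have hw : ∀ a, M ≤ a → perm b a = a := fun a ha => perm_of_le hb ha
    have h1 : of (f (perm b)) ∈ Submodule.span ℤ
        ((fun w => of (f w)) '' {w : Perm ℕ | ∀ a, M ≤ a → w a = a}) :=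
      Submodule.subset_span ⟨perm b, hw, rfl⟩
    have h2 : of b - of (f (perm b)) ∈ I M 1 := of_sub_mem hb (hf _ hw) (hf' _ hw).symm
    have : of b = of (f (perm b)) + (of b - of (f (perm b))) := by abel
    rw [SetLike.mem_coe, this]
    exact Submodule.add_mem_sup h1 h2
  induction j with
  | zero => exact h0
  | succ j ih =>
    obtain ⟨S0, hS0, hI0⟩ := h0
    obtain ⟨S, hS, hI⟩ := ih
    refine ⟨S0 * D M * S, (hS0.mul (fg_D M)).mul hS, ?_⟩
    have key : ∀ x ∈ U M, ∀ d ∈ D M, ∀ y ∈ I M j,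
        x * d * y ∈ S0 * D M * S ⊔ I M (j + 1 + 1) := by
      intro x hx d hd y hy
      obtain ⟨s0, hs0, x1, hx1, rfl⟩ := Submodule.mem_sup.1 (hI0 hx)
      obtain ⟨s, hs, y1, hy1, rfl⟩ := Submodule.mem_sup.1 (hI hy)
      have hs0' : s0 ∈ U M := by
        have := sub_mem hx (I_le_U M 1 hx1)
        rwa [add_sub_cancel_right] at this
      have e : (s0 + x1) * d * (s + y1) = s0 * d * s + (s0 * d * y1 + x1 * d * (s + y1)) := by
        rw [add_mul, add_mul, mul_add (s0 * d)]
        abel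
      rw [e]
      refine Submodule.add_mem_sup (Submodule.mul_mem_mul (Submodule.mul_mem_mul hs0 hd) hs)
        (add_mem ?_ ?_)
      · exact Submodule.mul_mem_mul (Submodule.mul_mem_mul hs0' hd) hy1
      · have h1 : x1 * d ∈ I M (1 + 1) := mul_mem_I hx1 (D_le M hd)
        have h2 : x1 * d * (s + y1) ∈ I M (1 + 1 + j) := mul_mem_I h1 hy
        rwa [show 1 + 1 + j = j + 1 + 1 by omega] at h2
    change U M * D M * I M j ≤ _
    rw [Submodule.mul_le]
    intro z hz y hy
    refine Submodule.mul_induction_on hz (fun x hx d hd => key x hx d hd y hy)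
      (fun a b ha hb => ?_)
    rw [add_mul]
    exact add_mem ha hb

theorem exists_fg_U (M n : ℕ) : ∃ S : Submodule ℤ R, S.FG ∧ U M ≤ S ⊔ I M n := by
  induction n with
  | zero => exact ⟨⊥, Submodule.fg_bot, le_sup_right⟩
  | succ n ih =>
    obtain ⟨S, hS, h⟩ := ih
    obtain ⟨S', hS', h'⟩ := exists_fg M n
    exact ⟨S ⊔ S', hS.sup hS', h.trans (sup_le (le_sup_left.trans le_sup_left)
      (h'.trans (sup_le (le_sup_right.trans le_sup_left) le_sup_right)))⟩

/-! ### Double points as conjugates of one pure braid -/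

/-- The conjugates of `σ₀² - 1`. -/
noncomputable def Y (c : Braid) : R := of c * (of (sig 0 * sig 0) - 1) * of c⁻¹

theorem of_mul' (a b : Braid) : (of (a * b) : R) = of a * of b := (FreeAbelianGroup.of_mul_of a b).symm

theorem of_one' : (of (1 : Braid) : R) = 1 := rfl

theorem of_mul_Y (b c : Braid) : of b * Y c = Y (b * c) * of b := by
  simp only [Y, mul_assoc, of_mul', mul_inv_rev]
  rw [← of_mul' b⁻¹ b, inv_mul_cancel, of_one', mul_one]

theorem of_mul_prod (b : Braid) (L : List Braid) :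
    of b * (L.map Y).prod = ((L.map (fun c => b * c)).map Y).prod * of b := by
  induction L with
  | nil => simp
  | cons c L ih =>
    simp only [List.map_cons, List.prod_cons]
    rw [← mul_assoc, of_mul_Y, mul_assoc, ih, mul_assoc]

theorem Y_eq (c : Braid) : Y c = of (c * (sig 0 * sig 0) * c⁻¹) - 1 := by
  rw [Y, mul_sub, sub_mul, mul_one, ← of_mul', ← of_mul', ← of_mul', mul_inv_cancel, of_one']

/-- `σ i` is a conjugate of `σ 0`. -/
theorem exists_conj {M i : ℕ} (h : i + 1 < M) : ∃ c ∈ strands M, sig i = c * sig 0 * c⁻¹ := by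
  induction i with
  | zero => exact ⟨1, one_mem _, by simp⟩
  | succ i ih =>
    obtain ⟨c, hc, h1⟩ := ih (by omega)
    refine ⟨(sig i * sig (i + 1))⁻¹⁻¹ * c, mul_mem (inv_mem (inv_mem (mul_mem
      (sig_mem_strands (by omega)) (sig_mem_strands h)))) hc, ?_⟩
    have b := sig_braid i
    rw [inv_inv, mul_inv_rev, ← mul_assoc, mul_assoc (sig i * sig (i + 1)), mul_assoc (sig i * sig (i + 1)),
      ← h1, eq_mul_inv_iff_mul_eq]
    rw [← mul_assoc, ← b]

theorem Y_of_sig {M i : ℕ} (h : i + 1 < M) : ∃ c ∈ strands M,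
    (of (sig i) - of (sig i)⁻¹ : R) = Y c * of (sig i)⁻¹ := by
  obtain ⟨c, hc, h1⟩ := exists_conj h
  refine ⟨c, hc, ?_⟩
  rw [Y_eq, sub_mul, one_mul, ← of_mul']
  congr 2
  rw [h1]
  group

theorem elt_eq {M : ℕ} (S : SWord) (hS : S.Fits M) : ∃ L : List Braid, L.length = doublePoints S ∧
    (∀ c ∈ L, c ∈ strands M) ∧ ∃ x ∈ strands M, elt S = (L.map Y).prod * of x := by
  induction S with
  | nil => exact ⟨[], rfl, by simp, 1, one_mem _, by simp [elt, of_one']⟩
  | cons a S ih =>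
    obtain ⟨L, hL, hLM, x, hx, e⟩ := ih (fun l hl => hS l (List.mem_cons_of_mem _ hl))
    obtain ⟨i, c⟩ := a
    have hi : i + 1 < M := hS (i, c) List.mem_cons_self
    have mem : ∀ b ∈ strands M, ∀ c ∈ L.map (fun c => b * c), c ∈ strands M := by
      intro b hb c hc
      obtain ⟨c', hc', rfl⟩ := List.mem_map.1 hc
      exact mul_mem hb (hLM c' hc')
    cases c with
    | some c =>
      have hl : letter i c ∈ strands M := letter_mem_strands hi c
      refine ⟨L.map (fun y => letter i c * y), ?_, mem _ hl, letter i c * x, mul_mem hl hx, ?_⟩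
      · simp [hL, doublePoints]
      · rw [elt, e, ← mul_assoc, of_mul_prod, of_mul', mul_assoc]
    | none =>
      obtain ⟨c0, hc0, e0⟩ := Y_of_sig hi
      have hl : (sig i)⁻¹ ∈ strands M := inv_mem (sig_mem_strands hi)
      refine ⟨c0 :: L.map (fun y => (sig i)⁻¹ * y), ?_, ?_, (sig i)⁻¹ * x, mul_mem hl hx, ?_⟩
      · simp [hL, doublePoints]
      · intro c hc
        rcases List.mem_cons.1 hc with rfl | hc
        · exact hc0
        · exact mem _ hl c hc
      · rw [elt, e, e0, List.map_cons, List.prod_cons, mul_assoc, ← mul_assoc (of (sig i)⁻¹),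
          of_mul_prod, of_mul', mul_assoc, mul_assoc]

/-! ### The permutation -/

theorem Y_mem_U {M : ℕ} (hM : 2 ≤ M) {c : Braid} (hc : c ∈ strands M) : Y c ∈ U M := by
  rw [Y_eq]
  have h0 : sig 0 ∈ strands M := sig_mem_strands (by omega)
  exact sub_mem (of_mem_U (mul_mem (mul_mem hc (mul_mem h0 h0)) (inv_mem hc))) (one_mem_U M)

theorem perm_Y (c : Braid) : perm (c * (sig 0 * sig 0) * c⁻¹) = 1 := by
  simp only [map_mul, map_inv, perm_sig, Equiv.swap_mul_self, mul_one, mul_inv_cancel]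

/-- Formal sums of braids with the permutation `w`. -/
def Q (M : ℕ) (w : Perm ℕ) : Submodule ℤ R :=
  Submodule.span ℤ {x | ∃ b ∈ strands M, perm b = w ∧ x = of b}

theorem Y_mul_mem_Q {M : ℕ} (hM : 2 ≤ M) {c : Braid} (hc : c ∈ strands M) {w : Perm ℕ} {r : R}
    (hr : r ∈ Q M w) : Y c * r ∈ Q M w := by
  have h : Q M w ≤ (Q M w).comap (LinearMap.mulLeft ℤ (Y c)) := by
    rw [Q, Submodule.span_le]
    rintro _ ⟨b, hb, rfl, rfl⟩
    change Y c * of b ∈ Q M (perm b)
    rw [Y_eq, sub_mul, one_mul, ← of_mul']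
    have h0 : sig 0 ∈ strands M := sig_mem_strands (by omega)
    refine sub_mem (Submodule.subset_span ⟨_, mul_mem (mul_mem (mul_mem hc (mul_mem h0 h0))
      (inv_mem hc)) hb, ?_, rfl⟩) (Submodule.subset_span ⟨b, hb, rfl, rfl⟩)
    rw [map_mul, perm_Y, one_mul]
  exact h hr

theorem prod_mul_mem_Q {M : ℕ} (hM : 2 ≤ M) (L : List Braid) (hL : ∀ c ∈ L, c ∈ strands M)
    {w : Perm ℕ} {r : R} (hr : r ∈ Q M w) : (L.map Y).prod * r ∈ Q M w := by
  induction L with
  | nil => simpa using hr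
  | cons c L ih =>
    rw [List.map_cons, List.prod_cons, mul_assoc]
    exact Y_mul_mem_Q hM (hL c List.mem_cons_self)
      (ih fun c hc => hL c (List.mem_cons_of_mem _ hc))

theorem T_eq_zero_of_Q {m M : ℕ} {w : Perm ℕ} (hw : ¬ Str m M w) {r : R} (hr : r ∈ Q M w) :
    T m M r = 0 := by
  have h : Q M w ≤ LinearMap.ker (T m M) := by
    rw [Q, Submodule.span_le]
    rintro _ ⟨b, hb, rfl, rfl⟩
    rw [SetLike.mem_coe, LinearMap.mem_ker, T_of, T0_neg]
    exact fun h => hw h.2
  exact h hr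

/-! ### Change of the conjugating braids -/

theorem core_mem {M : ℕ} (hM : 2 ≤ M) : (of (sig 0 * sig 0) - 1 : R) ∈ I M 1 := by
  have h0 : sig 0 ∈ strands M := sig_mem_strands (by omega)
  refine of_sub_mem (mul_mem h0 h0) (one_mem _) ?_
  simp only [map_mul, perm_sig, Equiv.swap_mul_self, map_one]

theorem Y_mem {M : ℕ} (hM : 2 ≤ M) {c : Braid} (hc : c ∈ strands M) : Y c ∈ I M 1 :=
  I_mul_U (U_mul_I (of_mem_U hc) (core_mem hM)) (of_mem_U (inv_mem hc))

theorem of_sub_one_mem {M : ℕ} {p : Braid} (hp : p ∈ strands M) (h : perm p = 1) :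
    (of p - 1 : R) ∈ I M 1 := by
  refine of_sub_mem hp (one_mem _) ?_
  rw [h, map_one]

theorem Y_congr {M : ℕ} (hM : 2 ≤ M) {c c' : Braid} (hc : c ∈ strands M) (hc' : c' ∈ strands M)
    (h0 : perm c' 0 = perm c 0) (h1 : perm c' 1 = perm c 1) : Y c - Y c' ∈ I M 2 := by
  have hd : ∀ a < 2, perm (c⁻¹ * c') a = a := by
    intro a ha
    rw [map_mul, map_inv, Equiv.Perm.mul_apply, Equiv.Perm.inv_eq_iff_eq]
    interval_cases a
    · exact h0
    · exact h1
  have hdm : c⁻¹ * c' ∈ strands M := mul_mem (inv_mem hc) hc'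
  obtain ⟨f, hf, hfp⟩ := exists_final hd (fun a ha => perm_of_le hdm ha)
  have hfs : f ∈ strands M := final_le _ _ hf
  obtain ⟨p, hp⟩ : ∃ p, p = c⁻¹ * c' * f⁻¹ := ⟨_, rfl⟩
  have hps : p ∈ strands M := by rw [hp]; exact mul_mem hdm (inv_mem hfs)
  have hpp : perm p = 1 := by rw [hp, map_mul, map_inv, hfp, mul_inv_cancel]
  have hc'' : c' = c * p * f := by rw [hp]; group
  have hcomm : Commute (sig 0 * sig 0) f := by
    have h : sig 0 ∈ strands 2 := sig_mem_strands (by omega)
    exact commute_of_final (mul_mem h h) hf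
  have e : Y c' = of c * (of p * (of (sig 0 * sig 0) - 1) * of p⁻¹) * of c⁻¹ := by
    have e1 : c' * (sig 0 * sig 0) * c'⁻¹ = c * p * (sig 0 * sig 0) * p⁻¹ * c⁻¹ := by
      rw [hc'', mul_assoc (c * p), ← hcomm.eq]
      group
    rw [Y_eq, e1]
    simp only [mul_sub, sub_mul, mul_one, ← of_mul', mul_inv_cancel, of_one', mul_assoc]
  have hZ := core_mem hM
  obtain ⟨Z, hZd⟩ : ∃ Z : R, Z = of (sig 0 * sig 0) - 1 := ⟨_, rfl⟩
  rw [← hZd] at hZ e
  have e2 : Y c - Y c' = of c * (Z - of p * Z * of p⁻¹) * of c⁻¹ := by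
    have e' : Y c = of c * Z * of c⁻¹ := by rw [Y, hZd]
    rw [e, e', mul_sub (of c), sub_mul]
  have e3 : Z - of p * Z * of p⁻¹ = -((of p - 1) * Z * of p⁻¹ + Z * (of p⁻¹ - 1)) := by
    simp only [sub_mul, mul_sub, one_mul, mul_one]
    abel
  rw [e2, e3]
  refine I_mul_U (U_mul_I (of_mem_U hc) (neg_mem (add_mem ?_ ?_))) (of_mem_U (inv_mem hc))
  · exact I_mul_U (mul_mem_I (of_sub_one_mem hps hpp) hZ) (of_mem_U (inv_mem hps))
  · exact mul_mem_I hZ (of_sub_one_mem (inv_mem hps) (by rw [map_inv, hpp, inv_one]))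

theorem prod_mem {M : ℕ} (hM : 2 ≤ M) (L : List Braid) (hL : ∀ c ∈ L, c ∈ strands M) :
    (L.map Y).prod ∈ I M L.length := by
  induction L with
  | nil => exact one_mem_U M
  | cons c L ih =>
    rw [List.map_cons, List.prod_cons, List.length_cons, add_comm]
    exact mul_mem_I (Y_mem hM (hL c List.mem_cons_self))
      (ih fun c hc => hL c (List.mem_cons_of_mem _ hc))

theorem prod_congr {M : ℕ} (hM : 2 ≤ M) (L : List Braid) (f : Braid → Braid)
    (hL : ∀ c ∈ L, c ∈ strands M) (hf : ∀ c ∈ L, f c ∈ strands M ∧ Y c - Y (f c) ∈ I M 2) :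
    (L.map Y).prod - ((L.map f).map Y).prod ∈ I M (L.length + 1) := by
  induction L with
  | nil => simp
  | cons c L ih =>
    have hL' : ∀ c ∈ L, c ∈ strands M := fun c hc => hL c (List.mem_cons_of_mem _ hc)
    have hf' : ∀ c ∈ L, f c ∈ strands M ∧ Y c - Y (f c) ∈ I M 2 :=
      fun c hc => hf c (List.mem_cons_of_mem _ hc)
    have h1 := ih hL' hf'
    have h2 := hf c List.mem_cons_self
    have h3 := prod_mem hM L hL'
    simp only [List.map_cons, List.prod_cons, List.length_cons]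
    have e : Y c * (L.map Y).prod - Y (f c) * ((L.map f).map Y).prod =
        (Y c - Y (f c)) * (L.map Y).prod + Y (f c) * ((L.map Y).prod - ((L.map f).map Y).prod) := by
      rw [sub_mul, mul_sub]
      abel
    rw [e]
    refine add_mem ?_ ?_
    · have := mul_mem_I h2.2 h3
      rwa [show 2 + L.length = L.length + 1 + 1 by omega] at this
    · have := mul_mem_I (Y_mem hM h2.1) h1
      rwa [show 1 + (L.length + 1) = L.length + 1 + 1 by omega] at this

theorem prod_mem_U {M : ℕ} (hM : 2 ≤ M) (L : List Braid) (hL : ∀ c ∈ L, c ∈ strands M) :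
    (L.map Y).prod ∈ U M := I_le_U M _ (prod_mem hM L hL)

/-! ### Reduction of the number of strands -/

theorem exists_lane {m N n : ℕ} (L : List Braid) (hL : L.length ≤ n) (hN : m + 2 * n < N) :
    ∃ l, m ≤ l ∧ l < N ∧ ∀ c ∈ L, perm c 0 ≠ l ∧ perm c 1 ≠ l := by
  classical
  have hc : ((L.map (fun c => perm c 0) ++ L.map (fun c => perm c 1)).toFinset).card <
      (Finset.Ico m N).card := by
    refine lt_of_le_of_lt (List.toFinset_card_le _) ?_
    rw [List.length_append, List.length_map, List.length_map, Nat.card_Ico]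
    omega
  obtain ⟨l, hl, hl'⟩ := Finset.exists_mem_notMem_of_card_lt_card hc
  rw [Finset.mem_Ico] at hl
  refine ⟨l, hl.1, hl.2, fun c hc => ⟨fun h => hl' ?_, fun h => hl' ?_⟩⟩
  · rw [List.mem_toFinset, List.mem_append]
    exact Or.inl (List.mem_map.2 ⟨c, hc, h⟩)
  · rw [List.mem_toFinset, List.mem_append]
    exact Or.inr (List.mem_map.2 ⟨c, hc, h⟩)

theorem apply_inv' (w : Perm ℕ) (a : ℕ) : w (w⁻¹ a) = a := by
  rw [← Equiv.Perm.mul_apply, mul_inv_cancel, Equiv.Perm.one_apply]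

theorem exists_lower {k : ℕ} (hk : 1 ≤ k) {c : Braid} (hc : c ∈ strands (k + 2))
    (h0 : perm c 0 ≠ k + 1) (h1 : perm c 1 ≠ k + 1) :
    ∃ c' ∈ strands (k + 1), perm c' 0 = perm c 0 ∧ perm c' 1 = perm c 1 := by
  obtain ⟨c', hc', hw⟩ := exists_strands (M := k + 1)
    (w := perm c * swap ((perm c)⁻¹ (k + 1)) (k + 1)) (by
      intro a ha
      rcases Nat.lt_or_ge (k + 1) a with h | h
      · have hca : perm c a = a := perm_of_le hc h
        have hne : a ≠ (perm c)⁻¹ (k + 1) := by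
          intro hh
          have h3 : perm c a = k + 1 := by rw [hh, apply_inv']
          omega
        rw [Equiv.Perm.mul_apply, swap_apply_of_ne_of_ne hne (by omega), hca]
      · obtain rfl : a = k + 1 := by omega
        rw [Equiv.Perm.mul_apply, swap_apply_right, apply_inv'])
  refine ⟨c', hc', ?_, ?_⟩
  · rw [hw, Equiv.Perm.mul_apply, swap_apply_of_ne_of_ne _ (by omega)]
    intro h
    rw [eq_comm, Equiv.Perm.inv_eq_iff_eq] at h
    exact h0 h.symm
  · rw [hw, Equiv.Perm.mul_apply, swap_apply_of_ne_of_ne _ (by omega)]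
    intro h
    rw [eq_comm, Equiv.Perm.inv_eq_iff_eq] at h
    exact h1 h.symm

theorem reduce_prod {m n k : ℕ} (hn : m + 2 * n < k + 2) (hk : 1 ≤ k) (L : List Braid)
    (hLn : L.length ≤ n) (hL : ∀ c ∈ L, c ∈ strands (k + 2)) {x : Braid}
    (hx : x ∈ strands (k + 2)) :
    T m (k + 2) ((L.map Y).prod * of x) ∈
      (U (k + 1)).map (T m (k + 1)) ⊔ (I (k + 2) (L.length + 1)).map (T m (k + 2)) := by
  by_cases hs : Str m (k + 2) (perm x)
  swap
  · rw [T_eq_zero_of_Q hs (prod_mul_mem_Q (by omega) L hL (Submodule.subset_span ⟨x, hx, rfl, rfl⟩))]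
    exact zero_mem _
  obtain ⟨l, hl, hl', hlL⟩ := exists_lane L hLn hn
  obtain ⟨g, hg, hgw⟩ := exists_final (m := m) (M := k + 2) (w := swap l (k + 1))
    (fun a ha => swap_apply_of_ne_of_ne (by omega) (by omega))
    (fun a ha => swap_apply_of_ne_of_ne (by omega) (by omega))
  have hgs : g ∈ strands (k + 2) := final_le _ _ hg
  obtain ⟨L1, hL1⟩ : ∃ L1, L1 = L.map (fun c => g * c) := ⟨_, rfl⟩
  obtain ⟨x1, hx1⟩ : ∃ x1, x1 = g * x * g⁻¹ := ⟨_, rfl⟩
  have e : T m (k + 2) ((L.map Y).prod * of x) = T m (k + 2) ((L1.map Y).prod * of x1) := by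
    rw [← T_conj hg, ← mul_assoc (of g), of_mul_prod, hL1, hx1, of_mul', of_mul']
    simp only [mul_assoc]
  have hlen : L1.length = L.length := by rw [hL1, List.length_map]
  have hL1s : ∀ c ∈ L1, c ∈ strands (k + 2) ∧ perm c 0 ≠ k + 1 ∧ perm c 1 ≠ k + 1 := by
    intro c hc
    rw [hL1] at hc
    obtain ⟨c', hc', rfl⟩ := List.mem_map.1 hc
    obtain ⟨h0, h1⟩ := hlL c' hc'
    refine ⟨mul_mem hgs (hL c' hc'), ?_, ?_⟩
    · rw [map_mul, hgw, Equiv.Perm.mul_apply]
      intro h
      rw [Equiv.swap_apply_eq_iff, swap_apply_right] at h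
      exact h0 h
    · rw [map_mul, hgw, Equiv.Perm.mul_apply]
      intro h
      rw [Equiv.swap_apply_eq_iff, swap_apply_right] at h
      exact h1 h
  have hx1s : x1 ∈ strands (k + 2) := by
    rw [hx1]; exact mul_mem (mul_mem hgs hx) (inv_mem hgs)
  have hs1 : Str m (k + 2) (perm x1) := by
    rw [hx1, map_mul, map_mul, map_inv]
    exact hs.conj (fun a ha => perm_of_le hgs ha) (fun a ha => perm_final hg ha)
  have hne : perm x1 (k + 1) ≠ k + 1 := by
    intro h
    obtain ⟨i, ⟨hi, hi'⟩, -⟩ := hs1.2.2 (k + 1) (by omega)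
    have := hi'.eq_of_right h
    omega
  obtain ⟨p, q, hp, hq, hpq⟩ := perm_factor (fun a ha => perm_of_le hx1s ha) hne
  obtain ⟨a, ha, hap⟩ := exists_strands (M := k + 1) (w := p) (fun a ha => hp a ha)
  obtain ⟨b, hb, hbq⟩ := exists_strands (M := k + 1) (w := q) (fun a ha => hq a ha)
  have ha' : a ∈ strands (k + 2) := strands_mono (by omega) ha
  have hb' : b ∈ strands (k + 2) := strands_mono (by omega) hb
  have hm2 : a * sig k * b ∈ strands (k + 2) :=
    mul_mem (mul_mem ha' (sig_mem_strands (by omega))) hb'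
  have h2 : (of x1 - of (a * sig k * b) : R) ∈ I (k + 2) 1 := by
    refine of_sub_mem hx1s hm2 ?_
    rw [hpq, map_mul, map_mul, hap, hbq, perm_sig]
  choose! f hf hf0 hf1 using fun c (hc : c ∈ L1) =>
    exists_lower hk (hL1s c hc).1 (hL1s c hc).2.1 (hL1s c hc).2.2
  have hfs : ∀ c ∈ L1, f c ∈ strands (k + 2) ∧ Y c - Y (f c) ∈ I (k + 2) 2 := by
    intro c hc
    have h : f c ∈ strands (k + 2) := strands_mono (by omega) (hf c hc)
    exact ⟨h, Y_congr (by omega) (hL1s c hc).1 h (hf0 c hc) (hf1 c hc)⟩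
  have h3 := prod_congr (by omega : 2 ≤ k + 2) L1 f (fun c hc => (hL1s c hc).1) hfs
  have hfU : ∀ c ∈ L1.map f, c ∈ strands (k + 1) := by
    intro c hc
    obtain ⟨c', hc', rfl⟩ := List.mem_map.1 hc
    exact hf c' hc'
  have hfU' : ∀ c ∈ L1.map f, c ∈ strands (k + 2) := fun c hc =>
    strands_mono (by omega) (hfU c hc)
  have h4 := prod_mem (by omega : 2 ≤ k + 2) (L1.map f) hfU'
  rw [List.length_map] at h4
  have h5 := prod_mem_U (by omega : 2 ≤ k + 1) (L1.map f) hfU
  rw [hlen] at h3 h4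
  have e4 : (L1.map Y).prod * of x1 =
      ((L1.map f).map Y).prod * of a * of (letter k true) * of b +
      (((L1.map Y).prod - ((L1.map f).map Y).prod) * of x1 +
      ((L1.map f).map Y).prod * (of x1 - of (a * sig k * b))) := by
    rw [letter_true, sub_mul, mul_sub, of_mul', of_mul']
    simp only [mul_assoc]
    abel
  rw [e, e4, map_add, T_stab (mul_mem_U h5 (of_mem_U ha)) (of_mem_U hb) (by omega) true]
  refine Submodule.add_mem_sup (Submodule.mem_map_of_mem (mul_mem_U (mul_mem_U h5 (of_mem_U ha))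
    (of_mem_U hb))) (Submodule.mem_map_of_mem (add_mem ?_ ?_))
  · exact I_mul_U h3 (of_mem_U hx1s)
  · exact mul_mem_I h4 h2

theorem reduce_I {m n k j : ℕ} (hn : m + 2 * n < k + 2) (hk : 1 ≤ k) (hj : j ≤ n) :
    (I (k + 2) j).map (T m (k + 2)) ≤
      (U (k + 1)).map (T m (k + 1)) ⊔ (I (k + 2) (j + 1)).map (T m (k + 2)) := by
  rw [I_eq_span (k + 2) j, Submodule.map_span, Submodule.span_le]
  rintro _ ⟨_, ⟨S, hS, hSj, rfl⟩, rfl⟩
  obtain ⟨L, hL, hLM, x, hx, e⟩ := elt_eq S hS
  rw [SetLike.mem_coe, e]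
  have := reduce_prod (m := m) hn hk L (by omega) hLM hx
  rwa [hL, hSj] at this

theorem reduce_U {m n k j : ℕ} (hn : m + 2 * n < k + 2) (hk : 1 ≤ k) (hj : j ≤ n + 1) :
    (U (k + 2)).map (T m (k + 2)) ≤
      (U (k + 1)).map (T m (k + 1)) ⊔ (I (k + 2) j).map (T m (k + 2)) := by
  induction j with
  | zero => exact le_sup_right
  | succ j ih =>
    exact (ih (by omega)).trans (sup_le le_sup_left (reduce_I hn hk (by omega)))

theorem map_T_le (m M j : ℕ) : (I M j).map (T m M) ≤ J m j := by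
  rintro _ ⟨x, hx, rfl⟩
  exact T_mem_J hx

theorem reduce_all {m n : ℕ} (M : ℕ) :
    (U M).map (T m M) ≤
      (⨆ i : Fin (m + 2 * n + 3), (U (i : ℕ)).map (T m i)) ⊔ J m (n + 1) := by
  induction M with
  | zero =>
    exact (le_iSup (fun i : Fin (m + 2 * n + 3) => (U (i : ℕ)).map (T m i)) ⟨0, by omega⟩).trans
      le_sup_left
  | succ M ih =>
    rcases Nat.lt_or_ge (M + 1) (m + 2 * n + 3) with h | h
    · exact (le_iSup (fun i : Fin (m + 2 * n + 3) => (U (i : ℕ)).map (T m i)) ⟨M + 1, h⟩).trans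
        le_sup_left
    · obtain ⟨k, rfl⟩ : ∃ k, M = k + 1 := ⟨M - 1, by omega⟩
      have hk := reduce_U (m := m) (n := n) (k := k) (j := n + 1) (by omega) (by omega) le_rfl
      exact hk.trans (sup_le ih ((map_T_le m _ _).trans le_sup_right))

end FinGen

open FinGen in
theorem finite_V (m n : ℕ) : Module.Finite ℤ (V m n) := by
  choose S hS hS' using fun M => exists_fg_U M (n + 1)
  have hfg : (⨆ i : Fin (m + 2 * n + 3), (S i).map (T m i)).FG :=
    Submodule.fg_iSup _ fun i => (hS i).map _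
  have hle : (⊤ : Submodule ℤ (A m)) ≤
      (⨆ i : Fin (m + 2 * n + 3), (S i).map (T m i)) ⊔ J m (n + 1) := by
    rw [← J_zero m, J_le_iff]
    intro M _ x hx
    have h1 : T m M x ∈ (U M).map (T m M) := Submodule.mem_map_of_mem hx
    refine (reduce_all (n := n) M).trans (sup_le (iSup_le fun i => ?_) le_sup_right) h1
    refine (Submodule.map_mono (hS' i)).trans ?_
    rw [Submodule.map_sup]
    exact sup_le_sup (le_iSup (fun i : Fin (m + 2 * n + 3) => (S i).map (T m i)) i)
      (map_T_le m _ _)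
  rw [Module.finite_def]
  have h2 : (⊤ : Submodule ℤ (V m n)) =
      (⨆ i : Fin (m + 2 * n + 3), (S i).map (T m i)).map (Submodule.mkQ (J m (n + 1))) := by
    apply le_antisymm
    · rintro v -
      obtain ⟨x, rfl⟩ := Submodule.mkQ_surjective _ v
      obtain ⟨y, hy, z, hz, rfl⟩ := Submodule.mem_sup.1 (hle (Submodule.mem_top (x := x)))
      refine ⟨y, hy, ?_⟩
      rw [map_add]
      have : (Submodule.mkQ (J m (n + 1))) z = 0 := by
        rw [Submodule.mkQ_apply, Submodule.Quotient.mk_eq_zero]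
        exact hz
      rw [this, add_zero]
    · exact le_top
  rw [h2]
  exact hfg.map _

end Pool.Agent.KS6_65.SL
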