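import Pool.Agent.KS6_65.SL.Hole

/-!
# The group property
-/

set_option autoImplicit false

namespace Pool.Agent.KS6_65.SL

open Equiv
open FreeAbelianGroup (of)

namespace G8

/-! ### Basic facts -/

theorem E_refl {m : ℕ} (n : ℕ) (s : StringLink m) : E n s s := Relation.EqvGen.refl s

theorem E_symm {m n : ℕ} {s t : StringLink m} (h : E n s t) : E n t s := Relation.EqvGen.symm _ _ h

theorem E_trans {m n : ℕ} {s t r : StringLink m} (h : E n s t) (h' : E n t r) : E n s r :=
  Relation.EqvGen.trans _ _ _ h h'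

theorem E_of {m n M : ℕ} {s t : StringLink m} {X γ : Braid} (hγ : γ ∈ Gam M n)
    (hs : T0 m M (X * γ) = of s) (ht : T0 m M X = of t) : E n s t :=
  Relation.EqvGen.rel _ _ ⟨M, X, γ, hγ, hs, ht⟩

theorem of_inj {α : Type*} {s t : α} (h : (of s : FreeAbelianGroup α) = of t) : s = t :=
  FreeAbelianGroup.of_injective h

end G8

open G8

theorem E_uni {m n : ℕ} {s t : StringLink m} (h : E n s t) : uni m n s = uni m n t := by
  induction h with
  | rel s t h =>
    obtain ⟨M, X, γ, hγ, hs, ht⟩ := h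
    rw [uni, uni, Submodule.Quotient.eq, ← hs, ← ht, ← T_of, ← T_of, ← map_sub]
    have h1 : of (X * γ) - of X = of X * (of γ - 1) := by
      rw [mul_sub, mul_one, FreeAbelianGroup.of_mul]
    rw [h1]
    exact T_mem_J (U_mul_I (of_mem_U (T0_eq_of ht).1) (of_sub_one_mem_of_Gam hγ))
  | refl s => rfl
  | symm s t _ ih => exact ih.symm
  | trans s t r _ _ ih1 ih2 => exact ih1.trans ih2

namespace G8

theorem E_left {m n : ℕ} {s s' : StringLink m} (h : E n s s') (t : StringLink m) :
    E n (s * t) (s' * t) := by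
  obtain ⟨M', k, hk, hks, hkt⟩ := exists_rep t
  obtain ⟨z, rfl⟩ : ∃ z, M' = m + z := ⟨M' - m, by have := hks.1; omega⟩
  induction h with
  | rel s s' h =>
    obtain ⟨M, X, γ, hγ, hs, hs'⟩ := h
    have hX := T0_eq_of hs'
    have hmM : m ≤ M := hX.2.1
    have h1 := mul_spec hs hkt
    have h2 := mul_spec hs' hkt
    have hk' : k ∈ strands (M + z) := strands_mono (by omega) hk
    have h3 : wide m z (X * γ) * k = (wide m z X * k) * (k⁻¹ * wide m z γ * (k⁻¹)⁻¹) := by
      rw [map_mul]; group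
    rw [h3] at h1
    exact E_of (Gam_conj (wide_Gam hmM hγ) (inv_mem hk')) h1 h2
  | refl s => exact E_refl _ _
  | symm s t _ ih => exact E_symm ih
  | trans s t r _ _ ih1 ih2 => exact E_trans ih1 ih2

theorem E_right {m n : ℕ} (s : StringLink m) {t t' : StringLink m} (h : E n t t') :
    E n (s * t) (s * t') := by
  obtain ⟨M, b, hb, hbs, hbt⟩ := exists_rep s
  induction h with
  | rel t t' h =>
    obtain ⟨M', X, γ, hγ, ht, ht'⟩ := h
    have hX := T0_eq_of ht'
    obtain ⟨z, rfl⟩ : ∃ z, M' = m + z := ⟨M' - m, by have := hX.2.1; omega⟩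
    have h1 := mul_spec hbt ht
    have h2 := mul_spec hbt ht'
    rw [← mul_assoc] at h1
    have := hbs.1
    exact E_of (Gam_mono (by omega : m + z ≤ M + z) n hγ) h1 h2
  | refl s => exact E_refl _ _
  | symm s t _ ih => exact E_symm ih
  | trans s t r _ _ ih1 ih2 => exact E_trans ih1 ih2

end G8

theorem E_mul {m n : ℕ} {s s' t t' : StringLink m} (h : E n s s') (h' : E n t t') :
    E n (s * t) (s' * t') :=
  E_trans (E_left h t) (E_right s' h')

namespace G8

/-! ### Trivial string links with a given permutation -/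

theorem triv {m : ℕ} (M : ℕ) (hm : m ≤ M) {w : Perm ℕ} (hw : Str m M w) :
    ∃ r ∈ strands M, perm r = w ∧ T0 m M r = of (1 : StringLink m) := by
  induction M, hm using Nat.le_induction generalizing w with
  | base =>
    have hw1 : w = 1 := by
      ext a
      rw [Perm.one_apply]
      rcases Nat.lt_or_ge a m with ha | ha
      · have hwa : w a < m := lt_of_fix hw.2.1 ha
        have := hw.eq_of_sameCycle hwa ha (Perm.sameCycle_apply_left.2 (Perm.SameCycle.refl _ _))
        exact this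
      · exact hw.2.1 a ha
    refine ⟨1, one_mem _, by rw [map_one, hw1], one_spec m⟩
  | succ M hM ih =>
    obtain ⟨k, rfl⟩ : ∃ k, M = k + 1 := by
      refine ⟨M - 1, ?_⟩
      rcases Nat.eq_zero_or_pos m with h0 | h0
      · exfalso
        subst h0
        obtain ⟨i, hi, _⟩ := (hw.2.2 0 (by omega)).exists
        omega
      · omega
    have hne : w (k + 1) ≠ k + 1 := by
      intro h
      obtain ⟨i, hi, hc⟩ := (hw.2.2 (k + 1) (by omega)).exists
      have : i = k + 1 := by
        have h2 : Function.IsFixedPt w (k + 1) := h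
        obtain ⟨j, hj⟩ := hc.symm
        rw [Perm.zpow_apply_eq_self_of_apply_eq_self h] at hj
        exact hj.symm
      omega
    obtain ⟨x, y, hx, hy, hxy⟩ := perm_factor (fun a ha => hw.2.1 a (by omega)) hne
    have hs : Str m (k + 1) (x * y) := by
      rw [hxy] at hw
      exact (str_stab hx hy hM).1 hw
    obtain ⟨r', hr', hpr, hT⟩ := ih hs
    obtain ⟨X, hX, hpX⟩ := exists_strands (M := k + 1) (w := x) fun a ha => hx a (by omega)
    refine ⟨X * letter k true * (X⁻¹ * r'), ?_, ?_, ?_⟩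
    · exact mul_mem (mul_mem (strands_mono (by omega) hX) (letter_mem_strands (by omega) _))
        (strands_mono (by omega) (mul_mem (inv_mem hX) hr'))
    · rw [map_mul, map_mul, map_mul, map_inv, hpX, hpr, perm_letter, hxy]
      group
    · rw [T0_stab hX (mul_mem (inv_mem hX) hr') hM, mul_inv_cancel_left, hT]

/-! ### Slides -/

theorem perm_mul_Gam {M n : ℕ} {γ : Braid} (h : γ ∈ Gam M n) (B g : Braid) :
    perm (B * (g * γ * g⁻¹)) = perm B := by
  rw [map_mul, map_mul, map_mul, perm_of_Gam h, map_inv, mul_one, mul_inv_cancel, mul_one]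

theorem slide {m L M n : ℕ} {B : Braid} (hB : B ∈ strands L) (hs : Str m L (perm B))
    (hM : M + m ≤ L) {γ : Braid} (hγ : γ ∈ Gam M n) {g : Braid} (hg : g ∈ strands L)
    (h : ∀ a < M, m ≤ perm g a) {s t : StringLink m} (h1 : T0 m L (B * (g * γ * g⁻¹)) = of s)
    (h2 : T0 m L (B * ((B⁻¹ * g) * γ * (B⁻¹ * g)⁻¹)) = of t) : E (n + 1) s t := by
  obtain ⟨γ', hγ', hγf, hγG⟩ := Gam_final hM hγ hg h
  have hpγ' : perm γ' = 1 := perm_of_Gam hγ'
  obtain ⟨u, hu⟩ := exists_of (m := m) (M := L) (b := B * γ')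
    (mul_mem hB (Gam_le_strands L n hγ')) (by rw [map_mul, hpγ', mul_one]; exact hs)
  have hu' : T0 m L (γ' * B) = of u := by
    rw [← hu, ← T0_conj hγf (B * γ')]
    congr 1
    group
  have e1 : E (n + 1) u s := by
    refine E_of hγG (X := B * (g * γ * g⁻¹)) ?_ h1
    rw [← hu]
    congr 1
    group
  have e2 : E (n + 1) u t := by
    refine E_of (Gam_conj hγG (inv_mem hB)) (X := g * γ * g⁻¹ * B) ?_ ?_
    · rw [← hu']
      congr 1
      group
    · rw [← h2]
      congr 1
      group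
  exact E_trans (E_symm e1) e2

theorem slides {m L M n : ℕ} {B : Braid} (hB : B ∈ strands L) (hs : Str m L (perm B))
    (hM : M + m ≤ L) {γ : Braid} (hγ : γ ∈ Gam M n) {g : Braid} (hg : g ∈ strands L) (k : ℕ)
    (h : ∀ j < k, ∀ a < M, m ≤ perm (B⁻¹ ^ j * g) a) {s t : StringLink m}
    (h1 : T0 m L (B * (g * γ * g⁻¹)) = of s)
    (h2 : T0 m L (B * ((B⁻¹ ^ k * g) * γ * (B⁻¹ ^ k * g)⁻¹)) = of t) : E (n + 1) s t := by
  have hML : M ≤ L := by omega
  induction k generalizing t with
  | zero =>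
    have : s = t := by
      apply of_inj
      rw [← h1, ← h2, pow_zero, one_mul]
    rw [this]
    exact E_refl _ _
  | succ k ih =>
    have hgk : B⁻¹ ^ k * g ∈ strands L := mul_mem (pow_mem (inv_mem hB) k) hg
    obtain ⟨u, hu⟩ := exists_of (m := m) (M := L)
      (b := B * ((B⁻¹ ^ k * g) * γ * (B⁻¹ ^ k * g)⁻¹))
      (mul_mem hB (mul_mem (mul_mem hgk (strands_mono hML (Gam_le_strands M n hγ)))
        (inv_mem hgk))) (by rw [perm_mul_Gam hγ]; exact hs)
    refine E_trans (ih (fun j hj => h j (by omega)) hu) ?_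
    refine slide hB hs hM hγ hgk (h k (by omega)) hu ?_
    rw [← h2, pow_succ']
    simp only [mul_assoc]

/-! ### Positions -/

theorem perm_g0 {m z M : ℕ} (hm : 0 < m) (hmM : m ≤ M) {g : Braid} (hg : g ∈ final m (M + z))
    (h : ∀ b ∈ strands M, wide m z b = g * b * g⁻¹) {c : ℕ} (hc : c < M) :
    perm g c = skip m z c := by
  obtain ⟨b, hb, hpb⟩ := exists_strands (M := M) (w := swap 0 c) (by
    intro a ha
    exact swap_apply_of_ne_of_ne (by omega) (by omega))
  have h1 := perm_wide_skip m z b 0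
  have h0 : skip m z 0 = 0 := by simp [skip, hm]
  rw [h0, h b hb, map_mul, map_mul, map_inv, hpb, swap_apply_left, Perm.mul_apply,
    Perm.mul_apply] at h1
  have h2 : (perm g)⁻¹ 0 = 0 := by
    rw [Perm.inv_eq_iff_eq, perm_final hg hm]
  rw [h2, swap_apply_left] at h1
  exact h1

/-- The key step. -/
theorem exists_unit {m M n : ℕ} (hm : 0 < m) {X γ : Braid} (hX : X ∈ strands M)
    (hs : Str m M (perm X)) (hγ : γ ∈ Gam M n) {s t : StringLink m}
    (h1 : T0 m M (X * γ) = of s) (h2 : T0 m M X = of t) :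
    ∃ (z : ℕ) (r g : Braid) (u : StringLink m), r ∈ strands (m + z) ∧ g ∈ Gam (m + z) n ∧
      T0 m (m + z) r = of 1 ∧ T0 m (m + z) (r * g) = of u ∧ E (n + 1) s (t * u) := by
  obtain ⟨N0, hN0, hret⟩ := exists_return hs
  have hmM : m ≤ M := hs.1
  set w := perm X with hw
  set N := max N0 M with hN
  have hNpos : 0 < N := lt_of_lt_of_le hN0 (le_max_left _ _)
  set z := m * N with hz
  have hMz : M ≤ z := by
    have : M ≤ N := le_max_right _ _
    calc M ≤ 1 * N := by omega
      _ ≤ m * N := Nat.mul_le_mul_right N hm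
  have hmz : m ≤ z := le_trans hmM hMz
  obtain ⟨r, hr, hpr, hTr⟩ := triv (m + z) (by omega) (str_stdp m N)
  obtain ⟨g0, hg0, hg0'⟩ := wide_conj (m := m) (z := z) hmM
  have hrL : r ∈ strands (M + z) := strands_mono (by omega) hr
  set B := wide m z X * r with hB
  have hBL : B ∈ strands (M + z) := mul_mem (wide_mem hmM hX) hrL
  have hTB : T0 m (M + z) B = of (t * 1) := mul_spec h2 hTr
  have hsB : Str m (M + z) (perm B) := (T0_eq_of hTB).2
  set g := r⁻¹ * g0 with hg
  have hgL : g ∈ strands (M + z) := mul_mem (inv_mem hrL) (final_le _ _ hg0)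
  -- the start
  have hstart : T0 m (M + z) (B * (g * γ * g⁻¹)) = of s := by
    have h3 := mul_spec h1 hTr
    rw [mul_one] at h3
    rw [← h3]
    congr 1
    rw [map_mul, hg0' γ (Gam_le_strands M n hγ)]
    simp only [hB, hg]
    group
  -- positions at the start
  have hpos0 : ∀ a < M, perm g a = a + z := by
    intro a ha
    rw [hg, map_mul, map_inv, Perm.mul_apply, perm_g0 hm hmM hg0 hg0' ha, hpr, stdp_inv_apply, skip]
    by_cases ham : a < m
    · rw [if_pos ham, if_pos ham]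
    · rw [if_neg ham, if_neg (by omega), if_neg (by omega)]
  -- one slide
  have hstep : ∀ c, m ≤ c → (perm B)⁻¹ (c + z) = w⁻¹ c + z := by
    intro c hc
    have e1 : (perm B)⁻¹ = (perm r)⁻¹ * (perm (wide m z X⁻¹)) := by
      rw [hB, map_mul, mul_inv_rev, map_inv (wide m z), map_inv perm (wide m z X)]
    have e2 : c + z = skip m z c := by rw [skip, if_neg (by omega)]
    rw [e1, Perm.mul_apply, e2, perm_wide_skip, map_inv, ← hw, hpr, stdp_inv_apply, skip]
    by_cases h : w⁻¹ c < m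
    · rw [if_pos h, if_pos h]
    · rw [if_neg h, if_neg (by omega), if_neg (by omega)]
  have hstep' : ∀ b, m ≤ b → b < m + z → (perm B)⁻¹ b = b - m := by
    intro b hb hb'
    have e1 : (perm B)⁻¹ = (perm r)⁻¹ * (perm (wide m z X⁻¹)) := by
      rw [hB, map_mul, mul_inv_rev, map_inv (wide m z), map_inv perm (wide m z X)]
    rw [e1, Perm.mul_apply, perm_wide_mid m z X⁻¹ hb hb', hpr, stdp_inv_apply,
      if_neg (by omega), if_pos (by omega)]
  have hpow : ∀ (j a : ℕ), perm (B⁻¹ ^ j * g) a = ((perm B)⁻¹ ^ j) (perm g a) := by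
    intro j a
    rw [map_mul, map_pow, map_inv, Perm.mul_apply]
  -- positions after `i` slides
  have hpos : ∀ a < M, ∃ j ≤ N, ∃ i < m, (∀ q ≤ j, ((perm B)⁻¹ ^ q) (a + z) = (w⁻¹ ^ q) a + z) ∧
      ∀ q, q + j ≤ N → ((perm B)⁻¹ ^ (j + q)) (a + z) = i + (z - q * m) := by
    intro a ha
    obtain ⟨j, hj, hj1, hj2⟩ := hret a ha
    have hjN : j ≤ N := hj.trans (le_max_left _ _)
    have hfirst : ∀ q ≤ j, ((perm B)⁻¹ ^ q) (a + z) = (w⁻¹ ^ q) a + z := by
      intro q
      induction q with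
      | zero => intro _; simp
      | succ q ih =>
        intro hq
        rw [pow_succ', Perm.mul_apply, ih (by omega), hstep _ (hj2 q (by omega)), pow_succ',
          Perm.mul_apply]
    refine ⟨j, hjN, (w⁻¹ ^ j) a, hj1, hfirst, ?_⟩
    intro q
    induction q with
    | zero =>
      intro _
      rw [add_zero, hfirst j le_rfl, zero_mul, Nat.sub_zero]
    | succ q ih =>
      intro hq
      have hqN : (q + 1) * m ≤ z := by
        rw [hz, mul_comm m N]
        exact Nat.mul_le_mul_right m (by omega)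
      have hq1 : (q + 1) * m = q * m + m := by ring
      rw [← add_assoc, pow_succ', Perm.mul_apply, ih (by omega), hstep' _ (by omega) (by omega)]
      omega
  -- all slides are possible
  have hslide : ∀ q < N, ∀ a < M, m ≤ perm (B⁻¹ ^ q * g) a := by
    intro q hq a ha
    rw [hpow, hpos0 a ha]
    obtain ⟨j, hjN, i, hi, h3, h4⟩ := hpos a ha
    rcases Nat.lt_or_ge q j with h | h
    · rw [h3 q h.le]
      omega
    · obtain ⟨q', rfl⟩ : ∃ q', q = j + q' := ⟨q - j, by omega⟩
      rw [h4 q' (by omega)]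
      have : (q' + 1) * m ≤ z := by
        rw [hz, mul_comm m N]
        exact Nat.mul_le_mul_right m (by omega)
      have h5 : (q' + 1) * m = q' * m + m := by ring
      omega
  have hend : ∀ a < M, perm (B⁻¹ ^ N * g) a < m + z := by
    intro a ha
    rw [hpow, hpos0 a ha]
    obtain ⟨j, hjN, i, hi, h3, h4⟩ := hpos a ha
    obtain ⟨q', hq'⟩ : ∃ q', N = j + q' := ⟨N - j, by omega⟩
    rw [hq', h4 q' (by omega)]
    omega
  -- the end
  have hgN : B⁻¹ ^ N * g ∈ strands (M + z) := mul_mem (pow_mem (inv_mem hBL) N) hgL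
  obtain ⟨γ', hγ', hγG⟩ := Gam_initial (N := m + z) (M' := M + z) (by omega) (by omega) hγ hgN hend
  obtain ⟨u1, hu1⟩ := exists_of (m := m) (M := M + z)
      (b := B * ((B⁻¹ ^ N * g) * γ * (B⁻¹ ^ N * g)⁻¹))
      (mul_mem hBL (mul_mem (mul_mem hgN (strands_mono (by omega) (Gam_le_strands M n hγ)))
        (inv_mem hgN))) (by rw [perm_mul_Gam hγ]; exact hsB)
  have e1 : E (n + 1) s u1 := slides hBL hsB (by omega) hγ hgL N hslide hstart hu1
  obtain ⟨u, hu⟩ := exists_of (m := m) (M := m + z) (b := r * γ')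
    (mul_mem hr (Gam_le_strands _ n hγ'))
    (by rw [map_mul, perm_of_Gam hγ', mul_one]; exact (T0_eq_of hTr).2)
  have h5 : T0 m (M + z) (wide m z X * (r * γ')) = of (t * u) := mul_spec h2 hu
  have e2 : E (n + 1) (t * u) u1 := by
    refine E_of hγG (X := B * ((B⁻¹ ^ N * g) * γ * (B⁻¹ ^ N * g)⁻¹)) ?_ hu1
    rw [← h5]
    congr 1
    simp only [hB]
    group
  exact ⟨z, r, γ', u, hr, hγ', hTr, hu, E_trans e1 (E_symm e2)⟩

/-- The congruence. -/
noncomputable def con (m n : ℕ) : Con (StringLink m) where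
  r := E n
  iseqv := ⟨E_refl n, E_symm, E_trans⟩
  mul' := fun h h' => E_mul h h'

theorem con_eq {m n : ℕ} {s t : StringLink m} :
    ((s : (con m n).Quotient) = t) ↔ E n s t := (con m n).eq

/-- The string links `[r g]`. -/
def IsC (m n : ℕ) (u : StringLink m) : Prop :=
  ∃ (z : ℕ) (r g : Braid), r ∈ strands (m + z) ∧ g ∈ Gam (m + z) n ∧
    T0 m (m + z) r = of (1 : StringLink m) ∧ T0 m (m + z) (r * g) = of u

theorem isC_right {m n : ℕ} (hm : 0 < m) {u : StringLink m} (h : IsC m n u) :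
    ∃ u', IsC m n u' ∧ ((u : (con m (n + 1)).Quotient) * (u' : (con m (n + 1)).Quotient) = 1) := by
  obtain ⟨z, r, g, hr, hg, h1, h2⟩ := h
  have hrg := T0_eq_of h2
  obtain ⟨z', r', g', u', hr', hg', h1', h2', hE⟩ := exists_unit hm (X := r * g) (γ := g⁻¹)
    hrg.1 hrg.2 (inv_mem hg) (s := 1) (t := u) (by rw [mul_inv_cancel_right]; exact h1) h2
  refine ⟨u', ⟨z', r', g', hr', hg', h1', h2'⟩, ?_⟩
  have := con_eq.2 hE
  rw [← Con.coe_mul, ← this]
  rfl

theorem isC_unit {m n : ℕ} (hm : 0 < m) {u : StringLink m} (h : IsC m n u) :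
    IsUnit (u : (con m (n + 1)).Quotient) := by
  obtain ⟨u', hu', h1⟩ := isC_right hm h
  obtain ⟨u'', _, h2⟩ := isC_right hm hu'
  have h3 : (u : (con m (n + 1)).Quotient) = u'' := by
    calc (u : (con m (n + 1)).Quotient) = u * (u' * u'') := by rw [h2, mul_one]
      _ = u'' := by rw [← mul_assoc, h1, one_mul]
  exact ⟨⟨u, u', h1, by rw [h3]; exact h2⟩, rfl⟩

theorem E_unit {m n : ℕ} (hm : 0 < m) {s t : StringLink m} (h : E n s t) :
    ∃ u : ((con m (n + 1)).Quotient)ˣ, (s : (con m (n + 1)).Quotient) = t * u := by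
  induction h with
  | rel s t h =>
    obtain ⟨M, X, γ, hγ, hs, ht⟩ := h
    have hX := T0_eq_of ht
    obtain ⟨z, r, g, u, hr, hg, h1, h2, hE⟩ := exists_unit hm hX.1 hX.2 hγ hs ht
    obtain ⟨v, hv⟩ := isC_unit hm ⟨z, r, g, hr, hg, h1, h2⟩
    refine ⟨v, ?_⟩
    rw [hv, ← Con.coe_mul]
    exact con_eq.2 hE
  | refl s => exact ⟨1, by simp⟩
  | symm s t _ ih =>
    obtain ⟨u, hu⟩ := ih
    exact ⟨u⁻¹, by rw [hu, Units.mul_inv_cancel_right]⟩
  | trans s t r _ _ ih1 ih2 =>
    obtain ⟨u, hu⟩ := ih1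
    obtain ⟨v, hv⟩ := ih2
    exact ⟨v * u, by rw [hu, hv, Units.val_mul, mul_assoc]⟩

theorem zero_case (s : StringLink 0) : s = 1 := by
  obtain ⟨M, b, hb, hs, hT⟩ := exists_rep s
  have hM : M = 0 := by
    by_contra h
    obtain ⟨i, hi, _⟩ := (hs.2.2 0 (by omega)).exists
    omega
  subst hM
  have hb1 : b = 1 := by
    have : strands 0 = ⊥ := by
      rw [strands, Subgroup.closure_eq_bot_iff]
      rintro g ⟨i, hi, _⟩
      omega
    rw [this] at hb
    exact Subgroup.mem_bot.1 hb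
  rw [hb1] at hT
  apply of_inj
  rw [← hT, ← one_spec 0]

end G8

theorem exists_inverse {m : ℕ} (n : ℕ) (s : StringLink m) :
    ∃ s', E n (s * s') 1 ∧ E n (s' * s) 1 := by
  rcases Nat.eq_zero_or_pos m with h0 | hm
  · subst h0
    refine ⟨1, ?_, ?_⟩
    · rw [zero_case (s * 1)]; exact E_refl _ _
    · rw [zero_case (1 * s)]; exact E_refl _ _
  induction n with
  | zero =>
    obtain ⟨M, X, hX, hs, hT⟩ := exists_rep s
    obtain ⟨r, hr, hpr, hTr⟩ := triv M hs.1 hs
    have hE : E 0 s 1 := by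
      refine E_of (M := M) (X := r) (γ := r⁻¹ * X) ?_ ?_ hTr
      · refine ⟨(strands M).mul_mem ((strands M).inv_mem hr) hX, ?_⟩
        show perm (r⁻¹ * X) = 1
        rw [map_mul, map_inv, hpr, inv_mul_cancel]
      · rw [mul_inv_cancel_left]; exact hT
    refine ⟨1, ?_, ?_⟩
    · rw [mul_one]; exact hE
    · rw [one_mul]; exact hE
  | succ n ih =>
    obtain ⟨s', h1, h2⟩ := ih
    obtain ⟨u, hu⟩ := E_unit hm h1
    obtain ⟨v, hv⟩ := E_unit hm h2
    have e1 : (s : (con m (n + 1)).Quotient) * s' = u := by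
      rw [← Con.coe_mul, hu]
      exact one_mul _
    have e2 : (s' : (con m (n + 1)).Quotient) * s = v := by
      rw [← Con.coe_mul, hv]
      exact one_mul _
    -- a right inverse and a left inverse
    have h3 : (s : (con m (n + 1)).Quotient) * (s' * ↑u⁻¹) = 1 := by
      rw [← mul_assoc, e1, Units.mul_inv]
    have h4 : (↑v⁻¹ * s') * (s : (con m (n + 1)).Quotient) = 1 := by
      rw [mul_assoc, e2, Units.inv_mul]
    have h5 : (↑v⁻¹ * s' : (con m (n + 1)).Quotient) = s' * ↑u⁻¹ := by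
      calc (↑v⁻¹ * s' : (con m (n + 1)).Quotient) = ↑v⁻¹ * s' * (s * (s' * ↑u⁻¹)) := by
            rw [h3, mul_one]
        _ = s' * ↑u⁻¹ := by rw [← mul_assoc, h4, one_mul]
    rw [h5] at h4
    obtain ⟨t, ht⟩ := Con.mk'_surjective (c := con m (n + 1)) (s' * ↑u⁻¹)
    have ht' : (t : (con m (n + 1)).Quotient) = s' * ↑u⁻¹ := ht
    rw [← ht'] at h3 h4
    exact ⟨t, con_eq.1 h3, con_eq.1 h4⟩

end Pool.Agent.KS6_65.SL
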