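import Mathlib

/-!
# Orbits of unipotent groups are separated by the quotients `V / p ^ k V`
-/

set_option autoImplicit false

namespace Pool.Agent.KS6_65.SL

/-- the multiples of `n` -/
def pw (V : Type*) [AddCommGroup V] (n : ℕ) : Submodule ℤ V :=
  LinearMap.range ((n : ℤ) • (LinearMap.id : V →ₗ[ℤ] V))

theorem mem_pw {V : Type*} [AddCommGroup V] {n : ℕ} {x : V} : x ∈ pw V n ↔ ∃ y, x = n • y := by
  unfold pw
  rw [LinearMap.mem_range]
  constructor
  · rintro ⟨y, rfl⟩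
    exact ⟨y, by simp⟩
  · rintro ⟨y, rfl⟩
    exact ⟨y, by simp⟩

theorem pw_map {V : Type*} [AddCommGroup V] {n : ℕ} {x : V} (g : V ≃ₗ[ℤ] V) (hx : x ∈ pw V n) :
    g x ∈ pw V n := by
  rw [mem_pw] at hx ⊢
  obtain ⟨y, rfl⟩ := hx
  exact ⟨g y, by rw [map_nsmul]⟩

theorem pw_dvd {V : Type*} [AddCommGroup V] {m n : ℕ} (h : m ∣ n) : pw V n ≤ pw V m := by
  intro x hx
  rw [mem_pw] at hx ⊢
  obtain ⟨y, rfl⟩ := hx
  obtain ⟨c, rfl⟩ := h
  exact ⟨c • y, by rw [mul_smul]⟩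

section filt

variable {V : Type*} [AddCommGroup V] {G : Subgroup (V ≃ₗ[ℤ] V)} {F : ℕ → Submodule ℤ V}

theorem keep (hF : Antitone F) (hG : ∀ g ∈ G, ∀ i, ∀ x ∈ F i, g x - x ∈ F (i + 1))
    {g : V ≃ₗ[ℤ] V} (hg : g ∈ G) {i : ℕ} {x : V} (hx : x ∈ F i) : g x ∈ F i := by
  have h1 := add_mem (hF (Nat.le_succ i) (hG g hg i x hx)) hx
  rwa [sub_add_cancel] at h1

/-- the values of the orbit map modulo the next step -/
def Dm (hF : Antitone F) (hG : ∀ g ∈ G, ∀ i, ∀ x ∈ F i, g x - x ∈ F (i + 1)) (v : V) (i : ℕ) :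
    AddSubgroup V where
  carrier := {d | d ∈ F i ∧ ∃ a ∈ G, a v - v ∈ F i ∧ d - (a v - v) ∈ F (i + 1)}
  zero_mem' := ⟨zero_mem _, 1, one_mem _, by simp, by simp⟩
  add_mem' := by
    rintro d e ⟨hd, a, ha, h1, h2⟩ ⟨he, b, hb, h3, h4⟩
    refine ⟨add_mem hd he, a * b, mul_mem ha hb, ?_, ?_⟩
    · have e1 : (a * b) v - v = a (b v - v) + (a v - v) := by
        rw [map_sub, LinearEquiv.mul_apply]; abel
      rw [e1]
      exact add_mem (keep hF hG ha h3) h1
    · have e1 : d + e - ((a * b) v - v) = (d - (a v - v)) + (e - (b v - v)) -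
          (a (b v - v) - (b v - v)) := by
        rw [map_sub, LinearEquiv.mul_apply]; abel
      rw [e1]
      exact sub_mem (add_mem h2 h4) (hG a ha i _ h3)
  neg_mem' := by
    rintro d ⟨hd, a, ha, h1, h2⟩
    have e0 : a⁻¹ (a v) = v := by
      rw [← LinearEquiv.mul_apply, inv_mul_cancel]; rfl
    refine ⟨neg_mem hd, a⁻¹, inv_mem ha, ?_, ?_⟩
    · have e1 : a⁻¹ v - v = - a⁻¹ (a v - v) := by
        rw [map_sub, e0]; abel
      rw [e1]
      exact neg_mem (keep hF hG (inv_mem ha) h1)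
    · have e1 : -d - (a⁻¹ v - v) = -(d - (a v - v)) + (a⁻¹ (a v - v) - (a v - v)) := by
        rw [map_sub, e0]; abel
      rw [e1]
      exact add_mem (neg_mem h2) (hG _ (inv_mem ha) i _ h1)

theorem psi_pow (hF : Antitone F) (hG : ∀ g ∈ G, ∀ i, ∀ x ∈ F i, g x - x ∈ F (i + 1))
    {t : V ≃ₗ[ℤ] V} (ht : t ∈ G) {v : V} {i : ℕ} (hv : t v - v ∈ F i) (m : ℕ) :
    (t ^ m) v - v - m • (t v - v) ∈ F (i + 1) := by
  induction m with
  | zero => simp
  | succ m ih =>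
    have e1 : (t ^ (m + 1)) v - v - (m + 1) • (t v - v) =
        t ((t ^ m) v - v - m • (t v - v)) + m • (t (t v - v) - (t v - v)) := by
      rw [pow_succ', LinearEquiv.mul_apply]
      simp only [map_sub, map_nsmul]
      module
    rw [e1]
    exact add_mem (keep hF hG ht ih) (Submodule.smul_of_tower_mem _ m (hG t ht i _ hv))

theorem keepM (hF : Antitone F) (hG : ∀ g ∈ G, ∀ i, ∀ x ∈ F i, g x - x ∈ F (i + 1))
    {g : V ≃ₗ[ℤ] V} (hg : g ∈ G) {i N : ℕ} {x : V} (hx : x ∈ F i ⊔ pw V N) :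
    g x ∈ F i ⊔ pw V N := by
  obtain ⟨f, hf, y, hy, rfl⟩ := Submodule.mem_sup.1 hx
  rw [map_add]
  exact Submodule.add_mem_sup (keep hF hG hg hf) (pw_map g hy)

theorem extM {u : V ≃ₗ[ℤ] V} {j N : ℕ}
    (hu : ∀ i, ∀ x ∈ F i, u x - x ∈ F (i + j + 1) ⊔ pw V N) {i : ℕ} {x : V}
    (hx : x ∈ F i ⊔ pw V N) : u x - x ∈ F (i + j + 1) ⊔ pw V N := by
  obtain ⟨f, hf, y, hy, rfl⟩ := Submodule.mem_sup.1 hx
  have e1 : u (f + y) - (f + y) = (u f - f) + (u y - y) := by rw [map_add]; abel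
  rw [e1]
  exact add_mem (hu i f hf) (Submodule.mem_sup_right (sub_mem (pw_map u hy) hy))

theorem pow_step (hF : Antitone F) (hG : ∀ g ∈ G, ∀ i, ∀ x ∈ F i, g x - x ∈ F (i + 1))
    {u : V ≃ₗ[ℤ] V} (hug : u ∈ G) {j N : ℕ}
    (hu : ∀ i, ∀ x ∈ F i, u x - x ∈ F (i + j + 1) ⊔ pw V N) (m i : ℕ) (x : V) (hx : x ∈ F i) :
    (u ^ m) x - x - m • (u x - x) ∈ F (i + j + 1 + j + 1) ⊔ pw V N := by
  induction m with
  | zero => simp
  | succ m ih =>
    have e1 : (u ^ (m + 1)) x - x - (m + 1) • (u x - x) =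
        u ((u ^ m) x - x - m • (u x - x)) + m • (u (u x - x) - (u x - x)) := by
      rw [pow_succ', LinearEquiv.mul_apply]
      simp only [map_sub, map_nsmul]
      module
    rw [e1]
    exact add_mem (keepM hF hG hug ih) (Submodule.smul_of_tower_mem _ m (extM hu (hu i x hx)))

theorem pow_all (hF : Antitone F) (hG : ∀ g ∈ G, ∀ i, ∀ x ∈ F i, g x - x ∈ F (i + 1))
    {t : V ≃ₗ[ℤ] V} (ht : t ∈ G) (N : ℕ) (j : ℕ) :
    ∀ i, ∀ x ∈ F i, (t ^ (N ^ j)) x - x ∈ F (i + j + 1) ⊔ pw V N := by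
  induction j with
  | zero =>
    intro i x hx
    rw [pow_zero, pow_one]
    exact Submodule.mem_sup_left (hG t ht i x hx)
  | succ j ih =>
    intro i x hx
    have h1 := pow_step hF hG (pow_mem ht (N ^ j)) ih N i x hx
    have h2 : N • ((t ^ N ^ j) x - x) ∈ pw V N := mem_pw.2 ⟨_, rfl⟩
    have h3 : F (i + j + 1 + j + 1) ⊔ pw V N ≤ F (i + (j + 1) + 1) ⊔ pw V N :=
      sup_le_sup_right (hF (by omega)) _
    have h4 := add_mem (h3 h1) (Submodule.mem_sup_right h2 :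
      N • ((t ^ N ^ j) x - x) ∈ F (i + (j + 1) + 1) ⊔ pw V N)
    rw [sub_add_cancel, ← pow_mul, ← pow_succ] at h4
    exact h4

theorem pow_triv {r : ℕ} (h0 : F 0 = ⊤) (hr : F r = ⊥) (hF : Antitone F)
    (hG : ∀ g ∈ G, ∀ i, ∀ x ∈ F i, g x - x ∈ F (i + 1)) {t : V ≃ₗ[ℤ] V} (ht : t ∈ G) (N : ℕ)
    (x : V) : (t ^ (N ^ r)) x - x ∈ pw V N := by
  have h1 := pow_all hF hG ht N r 0 x (by rw [h0]; trivial)
  have h2 : F (0 + r + 1) ≤ ⊥ := by rw [← hr]; exact hF (by omega)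
  rw [le_bot_iff.1 h2, bot_sup_eq] at h1
  exact h1

/-- the approximation claim -/
theorem claim [Module.Finite ℤ V] {r : ℕ} (h0 : F 0 = ⊤) (hr : F r = ⊥) (hF : Antitone F)
    (hG : ∀ g ∈ G, ∀ i, ∀ x ∈ F i, g x - x ∈ F (i + 1)) (v : V) (p : ℕ) (i : ℕ) :
    ∀ k : ℕ, ∃ k' : ℕ, ∀ a ∈ G, a v - v ∈ F i ⊔ pw V (p ^ k') →
      ∃ s ∈ G, s v - v ∈ F i ∧ ∀ x, a x - s x ∈ pw V (p ^ k) := by
  induction i with
  | zero =>
    intro k
    exact ⟨0, fun a ha _ => ⟨a, ha, by rw [h0]; trivial, fun x => by simp⟩⟩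
  | succ i ih =>
    intro k
    have hnoeth : IsNoetherian ℤ V := inferInstance
    let D : Submodule ℤ V := AddSubgroup.toIntSubmodule (Dm hF hG v i)
    have hD : ∀ d, d ∈ D ↔ d ∈ F i ∧ ∃ a ∈ G, a v - v ∈ F i ∧ d - (a v - v) ∈ F (i + 1) :=
      fun d => Iff.rfl
    -- stabilisation
    obtain ⟨e, he⟩ : ∃ e : ℕ, ∀ x : V, ∀ j : ℕ, (p ^ j) • x ∈ D → (p ^ e) • x ∈ D := by
      let T : ℕ →o Submodule ℤ V :=
        { toFun := fun j => D.comap (((p ^ j : ℕ) : ℤ) • (LinearMap.id : V →ₗ[ℤ] V))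
          monotone' := by
            intro a b hab x hx
            rw [Submodule.mem_comap] at hx ⊢
            obtain ⟨c, rfl⟩ := Nat.exists_eq_add_of_le hab
            have : (((p ^ (a + c) : ℕ) : ℤ) • (LinearMap.id : V →ₗ[ℤ] V)) x =
                ((p ^ c : ℕ) : ℤ) • ((((p ^ a : ℕ) : ℤ) • (LinearMap.id : V →ₗ[ℤ] V)) x) := by
              simp only [LinearMap.smul_apply, LinearMap.id_apply, smul_smul]
              congr 1
              push_cast
              ring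
            rw [this]
            exact D.smul_mem _ hx }
      have hT : ∀ j x, x ∈ T j ↔ (p ^ j) • x ∈ D := by
        intro j x
        change (((p ^ j : ℕ) : ℤ) • (LinearMap.id : V →ₗ[ℤ] V)) x ∈ D ↔ _
        rw [LinearMap.smul_apply, LinearMap.id_apply, Nat.cast_smul_eq_nsmul]
      obtain ⟨e, he⟩ := monotone_stabilizes_iff_noetherian.2 hnoeth T
      refine ⟨e, fun x j hx => ?_⟩
      have h1 : x ∈ T (max e j) := by
        have h2 : x ∈ T j := (hT j x).2 hx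
        exact T.monotone (le_max_right e j) h2
      rw [← he _ (le_max_left e j)] at h1
      exact (hT e x).1 h1
    obtain ⟨k2, hk2⟩ : ∃ k2, k2 = k * r := ⟨_, rfl⟩
    obtain ⟨k1, hk1⟩ : ∃ k1, k1 = max k (k2 + e) := ⟨_, rfl⟩
    obtain ⟨k3, hk3⟩ := ih k1
    refine ⟨max k1 k3, fun a ha hav => ?_⟩
    obtain ⟨f, hf, y, hy, hfy⟩ := Submodule.mem_sup.1 hav
    have hy1 : y ∈ pw V (p ^ k1) := pw_dvd (pow_dvd_pow p (le_max_left k1 k3)) hy
    have hy3 : y ∈ pw V (p ^ k3) := pw_dvd (pow_dvd_pow p (le_max_right k1 k3)) hy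
    obtain ⟨s, hs, hsv, hsx⟩ := hk3 a ha (by
      rw [← hfy]
      exact Submodule.add_mem_sup (hF (Nat.le_succ i) hf) hy3)
    have h1 : (s v - v) - f ∈ pw V (p ^ k1) := by
      have e1 : (s v - v) - f = y - (a v - s v) := by
        have : y = a v - v - f := by rw [← hfy]; abel
        rw [this]; abel
      rw [e1]
      exact sub_mem hy1 (hsx v)
    obtain ⟨x', hx'⟩ := mem_pw.1 h1
    have hfD : f ∈ D := (hD f).2 ⟨hF (Nat.le_succ i) hf, 1, one_mem _, by simp, by simpa using hf⟩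
    have hsD : s v - v ∈ D := (hD _).2 ⟨hsv, s, hs, hsv, by simp⟩
    have h2 : (p ^ k1) • x' ∈ D := by
      rw [← hx']
      exact sub_mem hsD hfD
    have h3 := he x' k1 h2
    have hk12 : k2 + e ≤ k1 := by rw [hk1]; exact le_max_right _ _
    obtain ⟨c, hc⟩ := Nat.exists_eq_add_of_le hk12
    have h4 : (p ^ (e + c)) • x' ∈ D := by
      rw [pow_add, mul_comm, mul_smul]
      exact D.toAddSubmonoid.nsmul_mem h3 _
    obtain ⟨hd, t, ht, htv, hdt⟩ := (hD _).1 h4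
    have hp := psi_pow hF hG ht htv (p ^ k2)
    have htp : ∀ x, (t ^ (p ^ k2)) x - x ∈ pw V (p ^ k) := by
      intro x
      have := pow_triv h0 hr hF hG ht (p ^ k) x
      rwa [← pow_mul, ← hk2] at this
    obtain ⟨u, hu⟩ : ∃ u, u = t ^ (p ^ k2) := ⟨_, rfl⟩
    rw [← hu] at hp
    have huG : u ∈ G := by rw [hu]; exact pow_mem ht _
    have e0 : ∀ z, u⁻¹ (u z) = z := fun z => by
      rw [← LinearEquiv.mul_apply, inv_mul_cancel]; rfl
    have htp' : ∀ x, u⁻¹ x - x ∈ pw V (p ^ k) := by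
      intro x
      have e2 : u (u⁻¹ x) = x := by
        rw [← LinearEquiv.mul_apply, mul_inv_cancel]; rfl
      have e1 := htp (u⁻¹ x)
      rw [← hu, e2] at e1
      have := neg_mem e1
      rwa [neg_sub] at this
    refine ⟨s * u⁻¹, mul_mem hs (inv_mem huG), ?_, ?_⟩
    · -- `s v - v = f + p ^ k1 x'`
      have e1 : s v - v = f + (p ^ k1) • x' := by rw [← hx']; abel
      have e2 : (p ^ k1) • x' = (p ^ k2) • ((p ^ (e + c)) • x') := by
        rw [smul_smul, ← pow_add]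
        congr 2
        omega
      -- `u v - v` is `p ^ k2` times `t v - v`
      have m1 : (u v - v) - (p ^ k2) • (t v - v) ∈ F (i + 1) := hp
      have m2 : (p ^ k2) • ((p ^ (e + c)) • x') - (p ^ k2) • (t v - v) ∈ F (i + 1) := by
        rw [← smul_sub]
        exact Submodule.smul_of_tower_mem _ _ hdt
      have m3 : (s v - v) - (u v - v) ∈ F (i + 1) := by
        have e3 : (s v - v) - (u v - v) = f + ((p ^ k2) • ((p ^ (e + c)) • x') -
            (p ^ k2) • (t v - v)) - ((u v - v) - (p ^ k2) • (t v - v)) := by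
          rw [e1, e2]; abel
        rw [e3]
        exact sub_mem (add_mem hf m2) m1
      have huv : u v - v ∈ F i := by
        have e3 : u v - v = (s v - v) - ((s v - v) - (u v - v)) := by abel
        rw [e3]
        exact sub_mem hsv (hF (Nat.le_succ i) m3)
      have e4 : (s * u⁻¹) v - v = ((s v - v) - (u v - v)) - (u⁻¹ (u v - v) - (u v - v)) -
          (s (u⁻¹ (u v - v)) - u⁻¹ (u v - v)) := by
        rw [LinearEquiv.mul_apply]
        simp only [map_sub, e0]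
        abel
      rw [e4]
      exact sub_mem (sub_mem m3 (hG _ (inv_mem huG) i _ huv))
        (hG s hs i _ (keep hF hG (inv_mem huG) huv))
    · intro x
      have e1 : a x - (s * u⁻¹) x = (a x - s x) - s (u⁻¹ x - x) := by
        rw [LinearEquiv.mul_apply, map_sub]; abel
      rw [e1]
      refine sub_mem (pw_dvd (pow_dvd_pow p ?_) (hsx x)) (pw_map s (htp' x))
      rw [hk1]; exact le_max_left _ _

end filt

/-- residual finiteness -/
theorem resid {V : Type*} [AddCommGroup V] [Module.Finite ℤ V] (D : Submodule ℤ V) (z : V)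
    (hz : z ∉ D) : ∃ p : ℕ, p.Prime ∧ ∃ k : ℕ, z ∉ D ⊔ pw V (p ^ k) := by
  by_contra hcon
  push Not at hcon
  have key : ∀ p : ℕ, p.Prime → ∃ c : ℤ, (1 - p * c) • z ∈ D := by
    intro p hp
    let W := V ⧸ D
    have h1 : D.mkQ z ∈ (⨅ i : ℕ, (Ideal.span {(p : ℤ)}) ^ i • (⊤ : Submodule ℤ W)) := by
      rw [Submodule.mem_iInf]
      intro k
      obtain ⟨d, hd, y, hy, hdy⟩ := Submodule.mem_sup.1 (hcon p hp k)
      obtain ⟨x, rfl⟩ := mem_pw.1 hy
      have e1 : D.mkQ z = ((p : ℤ) ^ k) • D.mkQ x := by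
        rw [← hdy, map_add]
        have : D.mkQ d = 0 := by simpa using hd
        rw [this, zero_add, map_nsmul]
        rw [← Nat.cast_smul_eq_nsmul ℤ]
        push_cast
        rfl
      rw [e1, Ideal.span_singleton_pow]
      exact Submodule.smul_mem_smul (Ideal.mem_span_singleton_self _) trivial
    rw [Ideal.mem_iInf_smul_pow_eq_bot_iff] at h1
    obtain ⟨⟨r, hr⟩, h2⟩ := h1
    obtain ⟨c, rfl⟩ := Ideal.mem_span_singleton'.1 hr
    refine ⟨c, ?_⟩
    have h3 : D.mkQ ((1 - p * c) • z) = 0 := by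
      rw [map_smul, sub_smul, one_smul, mul_comm]
      have h4 : (c * (p : ℤ)) • D.mkQ z = D.mkQ z := h2
      rw [h4, sub_self]
    exact (Submodule.Quotient.mk_eq_zero D).1 h3
  -- the annihilator
  let I : Ideal ℤ := D.colon {z}
  have hI : ∀ c : ℤ, c ∈ I ↔ c • z ∈ D := fun c => by
    change c ∈ D.colon {z} ↔ _
    rw [Submodule.mem_colon_singleton]
  obtain ⟨n, hn⟩ := (IsPrincipalIdealRing.principal I).principal
  have hn1 : n.natAbs ≠ 1 := by
    intro h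
    apply hz
    have h1 : (1 : ℤ) ∈ I := by
      rw [hn]
      change (1 : ℤ) ∈ Ideal.span {n}
      rw [Ideal.mem_span_singleton]
      exact (Int.isUnit_iff_natAbs_eq.2 h).dvd
    have := (hI 1).1 h1
    rwa [one_smul] at this
  obtain ⟨p, hp, hpn⟩ := Nat.exists_prime_and_dvd hn1
  obtain ⟨c, hc⟩ := key p hp
  have h1 : (1 - p * c : ℤ) ∈ I := (hI _).2 hc
  rw [hn] at h1
  have h2 : n ∣ (1 - p * c : ℤ) := by
    change (1 - p * c : ℤ) ∈ Ideal.span {n} at h1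
    rwa [Ideal.mem_span_singleton] at h1
  have h3 : (p : ℤ) ∣ n := Int.natCast_dvd.2 hpn
  have h4 : (p : ℤ) ∣ 1 := by
    have h5 := dvd_add (h3.trans h2) (dvd_mul_right (p : ℤ) c)
    rwa [sub_add_cancel] at h5
  have h5 : p ∣ 1 := by exact_mod_cast h4
  exact hp.one_lt.ne' (Nat.dvd_one.1 h5)

theorem orbit_sep {V : Type*} [AddCommGroup V] [Module.Finite ℤ V] (G : Subgroup (V ≃ₗ[ℤ] V))
    (F : ℕ → Submodule ℤ V) (r : ℕ) (h0 : F 0 = ⊤) (hr : F r = ⊥) (hF : Antitone F)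
    (hG : ∀ g ∈ G, ∀ i, ∀ x ∈ F i, g x - x ∈ F (i + 1)) (v w : V)
    (h : ∀ p : ℕ, p.Prime → ∀ k : ℕ, ∃ g ∈ G, ∃ x : V, w = g v + (p ^ k) • x) :
    ∃ g ∈ G, w = g v := by
  have main : ∀ i : ℕ, ∃ g ∈ G, w - g v ∈ F i := by
    intro i
    induction i with
    | zero => exact ⟨1, one_mem _, by rw [h0]; trivial⟩
    | succ i ih =>
      obtain ⟨g, hg, hgi⟩ := ih
      by_cases hz : w - g v ∈ AddSubgroup.toIntSubmodule (Dm hF hG (g v) i)
      · obtain ⟨_, a, ha, _, h2⟩ := hz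
        refine ⟨a * g, mul_mem ha hg, ?_⟩
        have e1 : w - (a * g) v = w - g v - (a (g v) - g v) := by
          rw [LinearEquiv.mul_apply]; abel
        rw [e1]
        exact h2
      · exfalso
        obtain ⟨p, hp, k, hzk⟩ := resid _ _ hz
        obtain ⟨k', hk'⟩ := claim h0 hr hF hG (g v) p i k
        obtain ⟨b, hb, x, hx⟩ := h p hp (max k k')
        obtain ⟨s, hs, hsv, hsx⟩ := hk' (b * g⁻¹) (mul_mem hb (inv_mem hg)) (by
          have e0 : (b * g⁻¹) (g v) = b v := by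
            rw [← LinearEquiv.mul_apply, mul_assoc, inv_mul_cancel, mul_one]
          have e1 : (b * g⁻¹) (g v) - g v = (w - g v) + (-((p ^ max k k') • x)) := by
            rw [e0, hx]; abel
          rw [e1]
          exact Submodule.add_mem_sup hgi (neg_mem (pw_dvd (pow_dvd_pow p (le_max_right k k'))
            (mem_pw.2 ⟨x, rfl⟩))))
        apply hzk
        have e0 : (b * g⁻¹) (g v) = b v := by
          rw [← LinearEquiv.mul_apply, mul_assoc, inv_mul_cancel, mul_one]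
        have h1 := hsx (g v)
        rw [e0] at h1
        have e2 : w - g v = (s (g v) - g v) + ((b v - s (g v)) + (p ^ max k k') • x) := by
          rw [hx]; abel
        rw [e2]
        refine Submodule.add_mem_sup ⟨hsv, s, hs, hsv, by simp⟩ (add_mem h1
          (pw_dvd (pow_dvd_pow p (le_max_left k k')) (mem_pw.2 ⟨x, rfl⟩)))
  obtain ⟨g, hg, hgr⟩ := main r
  rw [hr, Submodule.mem_bot] at hgr
  exact ⟨g, hg, sub_eq_zero.1 hgr⟩

end Pool.Agent.KS6_65.SL
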