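import Mathlib

/-!
# The group generated by a monoid of unipotent maps
-/

set_option autoImplicit false

namespace Pool.Agent.KS6_65.SL

section

variable {V : Type*} [AddCommGroup V]

/-- Words in two letters which become symmetric in a unipotent group. -/
def oreWord (a b : V ≃ₗ[ℤ] V) : ℕ → (V ≃ₗ[ℤ] V) × (V ≃ₗ[ℤ] V)
  | 0 => (a, b)
  | j + 1 => ((oreWord a b j).2 * (oreWord a b j).1, (oreWord a b j).1 * (oreWord a b j).2)

theorem oreWord_mem {P : Submonoid (V ≃ₗ[ℤ] V)} {a b : V ≃ₗ[ℤ] V} (ha : a ∈ P) (hb : b ∈ P)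
    (j : ℕ) : (∃ w ∈ P, (oreWord a b j).1 = w * a) ∧ (∃ w ∈ P, (oreWord a b j).2 = w * b) := by
  induction j with
  | zero => exact ⟨⟨1, one_mem _, (one_mul _).symm⟩, ⟨1, one_mem _, (one_mul _).symm⟩⟩
  | succ j ih =>
    obtain ⟨⟨w, hw, h1⟩, ⟨w', hw', h2⟩⟩ := ih
    refine ⟨⟨w' * b * w, mul_mem (mul_mem hw' hb) hw, ?_⟩,
      ⟨w * a * w', mul_mem (mul_mem hw ha) hw', ?_⟩⟩
    · rw [oreWord, h1, h2]; simp only [mul_assoc]
    · rw [oreWord, h1, h2]; simp only [mul_assoc]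

theorem oreWord_sub {F : ℕ → Submodule ℤ V} {P : Submonoid (V ≃ₗ[ℤ] V)}
    (hP : ∀ g ∈ P, ∀ i, ∀ x ∈ F i, g x - x ∈ F (i + 1)) {a b : V ≃ₗ[ℤ] V} (ha : a ∈ P)
    (hb : b ∈ P) (j : ℕ) : ∀ i, ∀ x ∈ F i,
      (oreWord a b j).2 x - (oreWord a b j).1 x ∈ F (i + j + 1) := by
  induction j with
  | zero =>
    intro i x hx
    have h1 := hP a ha i x hx
    have h2 := hP b hb i x hx
    have := sub_mem h2 h1
    simpa [oreWord] using this
  | succ j ih =>
    intro i x hx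
    obtain ⟨⟨w, hw, h1⟩, -⟩ := oreWord_mem ha hb j
    have hp : (oreWord a b j).1 ∈ P := by rw [h1]; exact mul_mem hw ha
    -- `p q - q p = (p - 1) d - d (p - 1)` with `d = q - p`
    set p := (oreWord a b j).1 with hpdef
    set q := (oreWord a b j).2 with hqdef
    have e1 := ih (i + 1) _ (hP p hp i x hx)
    have e2 := hP p hp _ _ (ih i x hx)
    have e3 : (oreWord a b (j + 1)).2 x - (oreWord a b (j + 1)).1 x =
        (p (q x - p x) - (q x - p x)) - (q (p x - x) - p (p x - x)) := by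
      simp only [oreWord, ← hpdef, ← hqdef, LinearEquiv.mul_apply, map_sub]
      abel
    rw [e3]
    refine sub_mem ?_ ?_
    · rw [show i + (j + 1) + 1 = i + j + 1 + 1 by ring]; exact e2
    · rw [show i + (j + 1) + 1 = i + 1 + j + 1 by ring]; exact e1

theorem oreWord_eq {F : ℕ → Submodule ℤ V} {r : ℕ} (h0 : F 0 = ⊤) (hr : F r = ⊥)
    {P : Submonoid (V ≃ₗ[ℤ] V)} (hP : ∀ g ∈ P, ∀ i, ∀ x ∈ F i, g x - x ∈ F (i + 1))
    {a b : V ≃ₗ[ℤ] V} (ha : a ∈ P) (hb : b ∈ P) :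
    (oreWord a b (r - 1)).2 = (oreWord a b (r - 1)).1 := by
  rcases Nat.eq_zero_or_pos r with rfl | hpos
  · have hall : ∀ x : V, x = 0 := by
      intro x
      have : x ∈ (⊤ : Submodule ℤ V) := trivial
      rw [← h0, hr] at this
      simpa using this
    ext x
    rw [hall ((oreWord a b (0 - 1)).2 x), hall ((oreWord a b (0 - 1)).1 x)]
  · ext x
    have := oreWord_sub hP ha hb (r - 1) 0 x (by rw [h0]; trivial)
    rw [show 0 + (r - 1) + 1 = r by omega, hr] at this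
    exact sub_eq_zero.1 (by simpa using this)

theorem ore (F : ℕ → Submodule ℤ V) (r : ℕ) (h0 : F 0 = ⊤)
    (hr : F r = ⊥) (P : Submonoid (V ≃ₗ[ℤ] V))
    (hP : ∀ g ∈ P, ∀ i, ∀ x ∈ F i, g x - x ∈ F (i + 1)) {g : V ≃ₗ[ℤ] V}
    (hg : g ∈ Subgroup.closure (P : Set (V ≃ₗ[ℤ] V))) : ∃ a ∈ P, ∃ b ∈ P, a * g = b := by
  induction hg using Subgroup.closure_induction with
  | mem x hx => exact ⟨1, one_mem _, x, hx, one_mul _⟩
  | one => exact ⟨1, one_mem _, 1, one_mem _, one_mul _⟩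
  | inv x _ ih =>
    obtain ⟨a, ha, b, hb, h⟩ := ih
    exact ⟨b, hb, a, ha, by rw [← h, mul_assoc, mul_inv_cancel, mul_one]⟩
  | mul x y _ _ ihx ihy =>
    obtain ⟨a, ha, b, hb, h⟩ := ihx
    obtain ⟨a', ha', b', hb', h'⟩ := ihy
    obtain ⟨⟨w, hw, h1⟩, ⟨w', hw', h2⟩⟩ := oreWord_mem hb ha' (r - 1)
    have h3 := oreWord_eq h0 hr hP hb ha'
    rw [h1, h2] at h3
    refine ⟨w * a, mul_mem hw ha, w' * b', mul_mem hw' hb', ?_⟩
    calc w * a * (x * y) = w * (a * x) * y := by simp only [mul_assoc]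
      _ = w' * a' * y := by rw [h, h3]
      _ = w' * b' := by rw [mul_assoc, h']

/-- A unipotent map is bijective. -/
theorem exists_equiv (F : ℕ → Submodule ℤ V) (r : ℕ) (h0 : F 0 = ⊤)
    (hr : F r = ⊥) (f : V →ₗ[ℤ] V) (hf : ∀ i, ∀ x ∈ F i, f x - x ∈ F (i + 1)) :
    ∃ g : V ≃ₗ[ℤ] V, ∀ x, g x = f x := by
  have hinj : Function.Injective f := by
    rw [injective_iff_map_eq_zero]
    intro x hx
    have : ∀ i, x ∈ F i := by
      intro i
      induction i with
      | zero => rw [h0]; trivial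
      | succ i ih =>
        have := hf i x ih
        rw [hx, zero_sub] at this
        simpa using this
    have := this r
    rw [hr] at this
    simpa using this
  have hsurj : Function.Surjective f := by
    have : ∀ i, i ≤ r → ∀ y ∈ F (r - i), ∃ x, f x = y := by
      intro i
      induction i with
      | zero =>
        intro _ y hy
        rw [Nat.sub_zero, hr] at hy
        exact ⟨0, by rw [map_zero]; exact ((Submodule.mem_bot ℤ).1 hy).symm⟩
      | succ i ih =>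
        intro hi y hy
        have h1 := hf _ y hy
        rw [show r - (i + 1) + 1 = r - i by omega] at h1
        obtain ⟨x, hx⟩ := ih (by omega) _ h1
        exact ⟨y - x, by rw [map_sub, hx]; abel⟩
    intro y
    exact this r le_rfl y (by rw [Nat.sub_self, h0]; trivial)
  exact ⟨LinearEquiv.ofBijective f ⟨hinj, hsurj⟩, fun x => rfl⟩

end

end Pool.Agent.KS6_65.SL
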