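import Pool.Agent.KS6_65.SL.Unip
import Pool.Agent.KS6_65.SL.FG
import Pool.Agent.KS6_65.SL.Grp
import Pool.Agent.KS6_65.SL.Ore
import Pool.Agent.KS6_65.SL.Poly
import Pool.Agent.KS6_65.SL.OrbitSep

/-!
# Links which are not separated by finite type invariants
-/

set_option autoImplicit false

namespace Pool.Agent.KS6_65.SL

open Equiv
open FreeAbelianGroup (of)

theorem isClosure_iff {m : ℕ} {s : StringLink m} {L : Link m} :
    IsClosure s L ↔ L = closure s := by
  constructor
  · rintro ⟨D, rfl, rfl⟩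
    rfl
  · rintro rfl
    induction s using Quot.inductionOn with
    | h D => exact ⟨D, rfl, rfl⟩

theorem Approx.of_uni {m n : ℕ} {s t : StringLink m} (h : uni m n s = uni m n t) :
    Approx n (closure s) (closure t) :=
  Relation.EqvGen.rel _ _ ⟨s, t, notSeparated_of h, isClosure_iff.2 rfl, isClosure_iff.2 rfl⟩

theorem Approx.trans {m n : ℕ} {L L' L'' : Link m} (h : Approx n L L') (h' : Approx n L' L'') :
    Approx n L L'' := Relation.EqvGen.trans _ _ _ h h'

theorem Approx.symm {m n : ℕ} {L L' : Link m} (h : Approx n L L') : Approx n L' L :=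
  Relation.EqvGen.symm _ _ h

/-! ### The filtration of `V m n` -/

theorem Fil_zero (m n : ℕ) : Fil m n 0 = ⊤ := by
  rw [Fil, J_zero, Submodule.map_top, Submodule.range_mkQ]

theorem Fil_last (m n : ℕ) : Fil m n (n + 1) = ⊥ := by
  rw [Fil, eq_bot_iff]
  rintro _ ⟨x, hx, rfl⟩
  rw [Submodule.mem_bot, Submodule.mkQ_apply, Submodule.Quotient.mk_eq_zero]
  exact hx

theorem Fil_anti (m n : ℕ) : Antitone (Fil m n) := fun _ _ h => Submodule.map_mono (J_anti m h)

/-! ### The operations on `V m n` -/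

/-- The operation `Y ↦ h (Y × 1) k` on `V m n`. -/
noncomputable def holeV {m z : ℕ} {h k : Braid} (H : Hole m z h k) (n : ℕ) :
    V m n →ₗ[ℤ] V m n :=
  Submodule.mapQ _ _ (holeL H) fun _ hx => holeL_mem H hx

theorem holeV_uni {m z : ℕ} {h k : Braid} (H : Hole m z h k) (n : ℕ) (s : StringLink m) :
    holeV H n (uni m n s) = uni m n (holeS H s) := by
  rw [holeV, uni, uni, ← Submodule.mkQ_apply, ← Submodule.mkQ_apply, Submodule.mkQ_apply,
    Submodule.mkQ_apply, Submodule.mapQ_apply, holeS_spec]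

theorem holeV_unip {m z : ℕ} {h k : Braid} (H : Hole m z h k) (n : ℕ) (i : ℕ) (x : V m n)
    (hx : x ∈ Fil m n i) : holeV H n x - x ∈ Fil m n (i + 1) := by
  obtain ⟨y, hy, rfl⟩ := hx
  refine ⟨holeL H y - y, holeL_unip H hy, ?_⟩
  rw [map_sub, holeV, Submodule.mkQ_apply, Submodule.mkQ_apply, Submodule.mapQ_apply]

/-- The operations as automorphisms. -/
noncomputable def holeE {m z : ℕ} {h k : Braid} (H : Hole m z h k) (n : ℕ) :
    V m n ≃ₗ[ℤ] V m n :=
  (exists_equiv (Fil m n) (n + 1) (Fil_zero m n) (Fil_last m n) (holeV H n)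
    (holeV_unip H n)).choose

theorem holeE_apply {m z : ℕ} {h k : Braid} (H : Hole m z h k) (n : ℕ) (x : V m n) :
    holeE H n x = holeV H n x :=
  (exists_equiv (Fil m n) (n + 1) (Fil_zero m n) (Fil_last m n) (holeV H n)
    (holeV_unip H n)).choose_spec x

/-- The monoid of the unipotent automorphisms of `V m n` which preserve the string links and the
classes of their closures. -/
noncomputable def PP (m n : ℕ) : Submonoid (V m n ≃ₗ[ℤ] V m n) where
  carrier := {φ | (∀ i, ∀ x ∈ Fil m n i, φ x - x ∈ Fil m n (i + 1)) ∧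
    ∀ s : StringLink m, ∃ s' : StringLink m, φ (uni m n s) = uni m n s' ∧
      Approx n (closure s') (closure s)}
  one_mem' := by
    refine ⟨fun i x _ => ?_, fun s => ⟨s, rfl, Relation.EqvGen.refl _⟩⟩
    rw [LinearEquiv.coe_one, id, sub_self]
    exact zero_mem _
  mul_mem' := by
    rintro φ ψ ⟨h1, h2⟩ ⟨h3, h4⟩
    refine ⟨fun i x hx => ?_, fun s => ?_⟩
    · have e1 := h3 i x hx
      have e2 : ψ x ∈ Fil m n i := by
        have := add_mem (Fil_anti m n (Nat.le_succ i) e1) hx
        rwa [sub_add_cancel] at this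
      have e3 := h1 i _ e2
      have := add_mem e3 e1
      rw [LinearEquiv.mul_apply]
      rwa [sub_add_sub_cancel] at this
    · obtain ⟨s', e1, e2⟩ := h4 s
      obtain ⟨s'', e3, e4⟩ := h2 s'
      exact ⟨s'', by rw [LinearEquiv.mul_apply, e1, e3], e4.trans e2⟩

theorem PP_unip {m n : ℕ} {φ : V m n ≃ₗ[ℤ] V m n} (h : φ ∈ PP m n) :
    ∀ i, ∀ x ∈ Fil m n i, φ x - x ∈ Fil m n (i + 1) := h.1

theorem PP_spec {m n : ℕ} {φ : V m n ≃ₗ[ℤ] V m n} (h : φ ∈ PP m n) (s : StringLink m) :
    ∃ s' : StringLink m, φ (uni m n s) = uni m n s' ∧ Approx n (closure s') (closure s) := h.2 s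

/-- The group generated by `PP m n`. -/
noncomputable def GG (m n : ℕ) : Subgroup (V m n ≃ₗ[ℤ] V m n) :=
  Subgroup.closure (PP m n : Set (V m n ≃ₗ[ℤ] V m n))

theorem GG_unip {m n : ℕ} {φ : V m n ≃ₗ[ℤ] V m n} (h : φ ∈ GG m n) :
    ∀ i, ∀ x ∈ Fil m n i, φ x - x ∈ Fil m n (i + 1) := by
  have key : ∀ φ : V m n ≃ₗ[ℤ] V m n, (∀ i, ∀ x ∈ Fil m n i, φ x - x ∈ Fil m n (i + 1)) →
      ∀ i, ∀ x ∈ Fil m n i, φ x ∈ Fil m n i := by
    intro φ hφ i x hx
    have := add_mem (Fil_anti m n (Nat.le_succ i) (hφ i x hx)) hx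
    rwa [sub_add_cancel] at this
  induction h using Subgroup.closure_induction with
  | mem φ hφ => exact hφ.1
  | one =>
    intro i x _
    rw [LinearEquiv.coe_one, id, sub_self]
    exact zero_mem _
  | mul φ ψ _ _ h1 h2 =>
    intro i x hx
    have := add_mem (h1 i _ (key ψ h2 i x hx)) (h2 i x hx)
    rwa [sub_add_sub_cancel] at this
  | inv φ _ h1 =>
    -- by downward induction on the filtration
    have hpres : ∀ j, j ≤ n + 1 → ∀ x ∈ Fil m n (n + 1 - j), φ⁻¹ x ∈ Fil m n (n + 1 - j) := by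
      intro j
      induction j with
      | zero =>
        intro _ x hx
        rw [Nat.sub_zero, Fil_last, Submodule.mem_bot] at hx
        rw [hx, map_zero]
        exact zero_mem _
      | succ j ih =>
        intro hj x hx
        have e1 := h1 _ x hx
        rw [show n + 1 - (j + 1) + 1 = n + 1 - j by omega] at e1
        have e2 := ih (by omega) _ e1
        rw [map_sub] at e2
        have e3 : φ⁻¹ (φ x) = x := by
          rw [← LinearEquiv.mul_apply, inv_mul_cancel, LinearEquiv.coe_one, id]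
        rw [e3] at e2
        have e4 : φ⁻¹ x = x - (x - φ⁻¹ x) := by abel
        rw [e4]
        exact sub_mem hx (Fil_anti m n (by omega) e2)
    intro i x hx
    rcases le_or_gt i (n + 1) with hi | hi
    · have e1 := hpres (n + 1 - i) (by omega)
      rw [show n + 1 - (n + 1 - i) = i by omega] at e1
      have e2 := h1 i _ (e1 x hx)
      have e3 : φ (φ⁻¹ x) = x := by
        rw [← LinearEquiv.mul_apply, mul_inv_cancel, LinearEquiv.coe_one, id]
      rw [e3] at e2
      rw [← neg_sub]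
      exact neg_mem e2
    · have : x = 0 := by
        have := Fil_anti m n hi.le hx
        rwa [Fil_last, Submodule.mem_bot] at this
      rw [this, map_zero, sub_zero]
      exact zero_mem _

/-! ### Basings of links -/

/-- Conjugation by `h` moves the component `i` to the position `i`. -/
def IsBasing {m M : ℕ} (ell : Fin M → Fin m) (h : Braid) : Prop :=
  h ∈ strands M ∧ m ≤ M ∧ ∀ (a : Fin M) (i : Fin m), perm h a = i → ell a = i

theorem exists_basing {m M : ℕ} {ell : Fin M → Fin m} (hs : Function.Surjective ell) :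
    ∃ h, IsBasing ell h := by
  classical
  have hm : m ≤ M := by simpa using Fintype.card_le_of_surjective ell hs
  choose f hf using hs
  have hfi : Function.Injective f := fun i j hij => by rw [← hf i, ← hf j, hij]
  have hci : Function.Injective (Fin.castLE hm : Fin m → Fin M) := Fin.castLE_injective hm
  let e0 : {x // x ∈ Set.range f} ≃ {x // x ∈ Set.range (Fin.castLE hm : Fin m → Fin M)} :=
    (Equiv.ofInjective f hfi).symm.trans (Equiv.ofInjective _ hci)
  let e : Perm (Fin M) := e0.extendSubtype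
  have he : ∀ i : Fin m, e (f i) = Fin.castLE hm i := by
    intro i
    have h1 := Equiv.extendSubtype_apply_of_mem e0 (f i) ⟨i, rfl⟩
    rw [h1]
    have h2 : (Equiv.ofInjective f hfi).symm ⟨f i, ⟨i, rfl⟩⟩ = i :=
      Equiv.ofInjective_symm_apply hfi i
    simp only [e0, Equiv.trans_apply]
    rw [h2]
    rfl
  let w : Perm ℕ := e.extendDomain (Fin.equivSubtype (n := M))
  have hw : ∀ a, M ≤ a → w a = a := by
    intro a ha
    exact Equiv.Perm.extendDomain_apply_not_subtype _ _ (by simpa using ha)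
  have hw' : ∀ a : Fin M, w a = e a := by
    intro a
    have := Equiv.Perm.extendDomain_apply_image e (Fin.equivSubtype (n := M)) a
    simpa using this
  obtain ⟨h, hh, hpw⟩ := exists_strands hw
  refine ⟨h, hh, hm, fun a i hai => ?_⟩
  rw [hpw, hw'] at hai
  have h1 : e a = e (f i) := by
    rw [he]
    exact Fin.ext hai
  have h2 := e.injective h1
  rw [h2, hf]

theorem basing_str {m M : ℕ} {ell : Fin M → Fin m} {h : Braid} (hb : IsBasing ell h) {b : Braid}
    (hbM : b ∈ strands M) (hn : Numbers b ell) : Str m M (perm (h * b * h⁻¹)) := by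
  obtain ⟨hh, hm, hl⟩ := hb
  have hinv : ∀ a, a < M → (perm h)⁻¹ a < M := by
    intro a ha
    have := perm_lt (inv_mem hh) ha
    rwa [map_inv] at this
  have hper : ∀ a, perm h ((perm h)⁻¹ a) = a := by
    intro a
    rw [← Perm.mul_apply, mul_inv_cancel, Perm.one_apply]
  refine ⟨hm, fun a ha => perm_of_le (mul_mem (mul_mem hh hbM) (inv_mem hh)) ha, ?_⟩
  intro a ha
  have key : ∀ i (hi : i < m), (perm (h * b * h⁻¹)).SameCycle i a ↔
      ell ⟨(perm h)⁻¹ a, hinv a ha⟩ = ⟨i, hi⟩ := by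
    intro i hi
    rw [map_mul, map_mul, map_inv, Perm.sameCycle_conj]
    have h1 := hn.2 ⟨(perm h)⁻¹ i, hinv i (by omega)⟩ ⟨(perm h)⁻¹ a, hinv a ha⟩
    have h2 := hl ⟨(perm h)⁻¹ i, hinv i (by omega)⟩ ⟨i, hi⟩ (hper i)
    rw [h2] at h1
    rw [← h1, eq_comm]
  refine ⟨ell ⟨(perm h)⁻¹ a, hinv a ha⟩, ⟨(ell _).2, (key _ (ell _).2).2 rfl⟩, ?_⟩
  rintro j ⟨hj, hj'⟩
  exact (congrArg Fin.val ((key j hj).1 hj')).symm

theorem basing_closure {m : ℕ} (D : LinkDiagram m) {h : Braid} (hb : IsBasing D.ell h)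
    {s : StringLink m} (hs : T0 m D.M (h * D.b * h⁻¹) = of s) : closure s = Quot.mk _ D := by
  have h1 := mul_mem (mul_mem hb.1 D.mem) (inv_mem hb.1)
  have h2 := basing_str hb D.mem D.num
  rw [T0_pos h1 h2] at hs
  have h3 := FreeAbelianGroup.of_injective hs
  rw [← h3]
  refine (Quot.sound ?_).symm
  refine LinkMove.conj h hb.1 rfl rfl ?_
  intro a c hac
  refine lab_eq h2 c (D.ell a) ?_
  rw [map_mul, map_mul, map_inv, Perm.sameCycle_conj]
  have hinv : ∀ a, a < D.M → (perm h)⁻¹ a < D.M := by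
    intro a ha
    have := perm_lt (inv_mem hb.1) ha
    rwa [map_inv] at this
  have hper : ∀ a, perm h ((perm h)⁻¹ a) = a := by
    intro a
    rw [← Perm.mul_apply, mul_inv_cancel, Perm.one_apply]
  have e1 : (perm h)⁻¹ (c : ℕ) = a := by rw [← hac, ← Perm.mul_apply, inv_mul_cancel, Perm.one_apply]
  rw [e1]
  have hi : ((D.ell a : ℕ)) < D.M := lt_of_lt_of_le (D.ell a).2 hb.2.1
  have h4 := hb.2.2 ⟨(perm h)⁻¹ (D.ell a), hinv _ hi⟩ (D.ell a) (hper _)
  exact (D.num.2 ⟨(perm h)⁻¹ (D.ell a), hinv _ hi⟩ a).1 h4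

theorem basing_move {m : ℕ} {D D' : LinkDiagram m} (hD : LinkMove D D') :
    ∃ h h' : Braid, IsBasing D.ell h ∧ IsBasing D'.ell h' ∧
      T0 m D.M (h * D.b * h⁻¹) = T0 m D'.M (h' * D'.b * h'⁻¹) := by
  obtain ⟨h, hh⟩ := exists_basing D.num.1
  refine ⟨h, ?_⟩
  cases hD with
  | conj g hg hM hb hl =>
    refine ⟨h * g⁻¹, hh, ⟨?_, ?_, ?_⟩, ?_⟩
    · rw [hM]
      exact mul_mem hh.1 (inv_mem hg)
    · rw [hM]
      exact hh.2.1
    · intro c i hci
      have hlt : (perm g)⁻¹ (c : ℕ) < D.M := by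
        have := perm_lt (inv_mem hg) (a := c) (by rw [← hM]; exact c.2)
        rwa [map_inv] at this
      have h1 := hl ⟨(perm g)⁻¹ c, hlt⟩ c (by rw [← Perm.mul_apply, mul_inv_cancel, Perm.one_apply])
      rw [h1]
      apply hh.2.2
      rw [map_mul, map_inv] at hci
      exact hci
    · rw [hM, hb]
      congr 1
      group
  | stab k x y e hx hy hDM hEM hb hb' hl =>
    have hk : h ∈ strands (k + 1) := by rw [← hDM]; exact hh.1
    have hmk : m ≤ k + 1 := by rw [← hDM]; exact hh.2.1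
    refine ⟨h, hh, ⟨?_, ?_, ?_⟩, ?_⟩
    · rw [hEM]
      exact strands_mono (by omega) hk
    · rw [hEM]
      omega
    · intro c i hci
      have hc : (c : ℕ) < k + 1 := by
        by_contra hcon
        have h1 : perm h (c : ℕ) = c := perm_of_le hk (by omega)
        rw [h1] at hci
        have := i.2
        omega
      have h1 := hl ⟨c, by rw [hDM]; exact hc⟩ c rfl
      rw [h1]
      exact hh.2.2 _ _ hci
    · rw [hDM, hEM, hb, hb']
      have h1 := T0_stab (m := m) (mul_mem hk hx) (mul_mem hy (inv_mem hk)) hmk e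
      rw [show h * (x * y) * h⁻¹ = (h * x) * (y * h⁻¹) by group,
        show h * (x * letter k e * y) * h⁻¹ = (h * x) * letter k e * (y * h⁻¹) by group]
      exact h1.symm

theorem basing_hole {m M : ℕ} {ell : Fin M → Fin m} {h h' b : Braid} (hb : b ∈ strands M)
    (hn : Numbers b ell) (hh : IsBasing ell h) (hh' : IsBasing ell h') {s t : StringLink m}
    (hs : T0 m M (h * b * h⁻¹) = of s) (ht : T0 m M (h' * b * h'⁻¹) = of t) :
    ∃ (z : ℕ) (h₀ k₀ : Braid) (H : Hole m z h₀ k₀), holeS H 1 = s ∧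
      ∀ y, closure (holeS H y) = closure (y * t) := by
  obtain ⟨z, rfl⟩ : ∃ z, M = m + z := ⟨M - m, by have := hh.2.1; omega⟩
  have hstr := basing_str hh hb hn
  have hk : h' * h⁻¹ ∈ strands (m + z) := mul_mem hh'.1 (inv_mem hh.1)
  have hf : h * b * h⁻¹ ∈ strands (m + z) := mul_mem (mul_mem hh.1 hb) (inv_mem hh.1)
  have e0 : (h' * h⁻¹)⁻¹ * (h' * h⁻¹ * (h * b * h⁻¹)) = h * b * h⁻¹ := by group
  have H : Hole m z (h' * h⁻¹)⁻¹ (h' * h⁻¹ * (h * b * h⁻¹)) := by
    refine ⟨inv_mem hk, mul_mem hk hf, ?_, ?_⟩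
    · rw [e0]; exact hstr
    · intro i hi
      rw [e0]
      -- the position `f⁻¹ k⁻¹ i`
      have h1 : (perm (h * b * h⁻¹)).SameCycle ((perm (h' * h⁻¹))⁻¹ i) i := by
        have hiM : i < m + z := by omega
        have e1 : (perm (h' * h⁻¹))⁻¹ i = perm h ((perm h')⁻¹ i) := by
          rw [map_mul, map_inv, mul_inv_rev, inv_inv, Perm.mul_apply]
        rw [e1, map_mul, map_mul, map_inv, Perm.sameCycle_conj, ← Perm.mul_apply,
          inv_mul_cancel, Perm.one_apply]
        have hinv : ∀ g ∈ strands (m + z), ∀ a, a < m + z → (perm g)⁻¹ a < m + z := by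
          intro g hg a ha
          have := perm_lt (inv_mem hg) ha
          rwa [map_inv] at this
        have hper : ∀ g : Braid, ∀ a, perm g ((perm g)⁻¹ a) = a := by
          intro g a
          rw [← Perm.mul_apply, mul_inv_cancel, Perm.one_apply]
        have h2 := hh.2.2 ⟨(perm h)⁻¹ i, hinv h hh.1 i hiM⟩ ⟨i, hi⟩ (hper h i)
        have h3 := hh'.2.2 ⟨(perm h')⁻¹ i, hinv h' hh'.1 i hiM⟩ ⟨i, hi⟩ (hper h' i)
        exact (hn.2 ⟨(perm h')⁻¹ i, hinv h' hh'.1 i hiM⟩ ⟨(perm h)⁻¹ i, hinv h hh.1 i hiM⟩).1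
          (h3.trans h2.symm)
      have e2 : (perm (h' * h⁻¹ * (h * b * h⁻¹)))⁻¹ i =
          (perm (h * b * h⁻¹))⁻¹ ((perm (h' * h⁻¹))⁻¹ i) := by
        rw [map_mul, mul_inv_rev, Perm.mul_apply]
      rw [e2]
      refine Perm.SameCycle.trans ?_ h1
      exact ⟨1, by rw [zpow_one, ← Perm.mul_apply, mul_inv_cancel, Perm.one_apply]⟩
  refine ⟨z, _, _, H, ?_, fun y => ?_⟩
  · have := holeS_one H
    rw [e0, hs] at this
    exact (FreeAbelianGroup.of_injective this).symm
  · refine closure_hole H y ?_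
    rw [← ht]
    congr 1
    group

theorem exists_PP {m n M : ℕ} {ell : Fin M → Fin m} {h h' b : Braid} (hb : b ∈ strands M)
    (hn : Numbers b ell) (hh : IsBasing ell h) (hh' : IsBasing ell h') {s t : StringLink m}
    (hs : T0 m M (h * b * h⁻¹) = of s) (ht : T0 m M (h' * b * h'⁻¹) = of t) :
    ∃ φ ∈ PP m n, φ (uni m n t) = uni m n s := by
  obtain ⟨z, h₀, k₀, H, H1, H2⟩ := basing_hole hb hn hh hh' hs ht
  obtain ⟨t', ht1, ht2⟩ := exists_inverse n t
  obtain ⟨M', k, hk, hks, hkt⟩ := exists_rep t'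
  obtain ⟨z', rfl⟩ : ∃ z', M' = m + z' := ⟨M' - m, by have := hks.1; omega⟩
  refine ⟨holeE H n * holeE (hole_right hk hks) n, ⟨?_, ?_⟩, ?_⟩
  · intro i x hx
    rw [LinearEquiv.mul_apply, holeE_apply, holeE_apply]
    have e1 := holeV_unip (hole_right hk hks) n i x hx
    have e2 : holeV (hole_right hk hks) n x ∈ Fil m n i := by
      have := add_mem (Fil_anti m n (Nat.le_succ i) e1) hx
      rwa [sub_add_cancel] at this
    have := add_mem (holeV_unip H n i _ e2) e1
    rwa [sub_add_sub_cancel] at this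
  · intro y
    refine ⟨holeS H (y * t'), ?_, ?_⟩
    · rw [LinearEquiv.mul_apply, holeE_apply, holeE_apply, holeV_uni, holeV_uni,
        holeS_right hk hks hkt]
    · rw [H2, mul_assoc]
      refine Approx.of_uni (E_uni ?_)
      have := E_mul (n := n) (Relation.EqvGen.refl y) ht2
      rwa [mul_one] at this
  · rw [LinearEquiv.mul_apply, holeE_apply, holeE_apply, holeV_uni,
      holeS_right hk hks hkt, E_uni ht1, holeV_uni, H1]

/-! ### The link invariants -/

section

variable {m n : ℕ} {B : Type} (χ : V m n → B)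

/-- The value at the string link of a basing. -/
theorem exists_value (D : LinkDiagram m) : ∃ s : StringLink m, ∃ h, IsBasing D.ell h ∧
    T0 m D.M (h * D.b * h⁻¹) = of s := by
  obtain ⟨h, hh⟩ := exists_basing D.num.1
  obtain ⟨s, hs⟩ := exists_of (mul_mem (mul_mem hh.1 D.mem) (inv_mem hh.1))
    (basing_str hh D.mem D.num)
  exact ⟨s, h, hh, hs⟩

theorem value_eq (hχ : ∀ φ ∈ PP m n, ∀ x, χ (φ x) = χ x) {D : LinkDiagram m} {h h' : Braid}
    (hh : IsBasing D.ell h) (hh' : IsBasing D.ell h') {s t : StringLink m}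
    (hs : T0 m D.M (h * D.b * h⁻¹) = of s) (ht : T0 m D.M (h' * D.b * h'⁻¹) = of t) :
    χ (uni m n s) = χ (uni m n t) := by
  obtain ⟨φ, hφ, e⟩ := exists_PP (n := n) D.mem D.num hh hh' hs ht
  rw [← e, hχ φ hφ]

/-- The link invariant given by an invariant function on `V m n`. -/
noncomputable def inv (hχ : ∀ φ ∈ PP m n, ∀ x, χ (φ x) = χ x) : Link m → B :=
  Quot.lift (fun D => χ (uni m n (exists_value D).choose)) (by
    intro D D' hD
    obtain ⟨h, hh, hs⟩ := (exists_value D).choose_spec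
    obtain ⟨h', hh', hs'⟩ := (exists_value D').choose_spec
    obtain ⟨h₁, h₂, hh₁, hh₂, e⟩ := basing_move hD
    obtain ⟨s, hs₁⟩ := exists_of (mul_mem (mul_mem hh₁.1 D.mem) (inv_mem hh₁.1))
      (basing_str hh₁ D.mem D.num)
    have e1 := value_eq χ hχ hh hh₁ hs hs₁
    have e2 := value_eq χ hχ hh' hh₂ hs' (e.symm.trans hs₁)
    exact e1.trans e2.symm)

theorem inv_mk (hχ : ∀ φ ∈ PP m n, ∀ x, χ (φ x) = χ x) {D : LinkDiagram m} {h : Braid}
    (hh : IsBasing D.ell h) {s : StringLink m} (hs : T0 m D.M (h * D.b * h⁻¹) = of s) :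
    inv χ hχ (Quot.mk _ D) = χ (uni m n s) := by
  obtain ⟨h', hh', hs'⟩ := (exists_value D).choose_spec
  exact value_eq χ hχ hh' hh hs' hs

end

theorem extend_zero {B : Type*} [AddCommGroup B] (S : SWord) :
    extend (fun _ => (0 : B)) S = 0 := by
  rw [extend_eq]
  have : (FreeAbelianGroup.lift fun _ : Braid => (0 : B)) = 0 := by
    ext b
    simp
  rw [this]
  rfl

theorem numbers_congr {m M : ℕ} {ell : Fin M → Fin m} {b b' : Braid} (h : perm b = perm b') :
    Numbers b ell ↔ Numbers b' ell := by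
  rw [Numbers, Numbers, h]

/-- The multiples of `N`. -/
def multiples (W : Type*) [AddCommGroup W] (N : ℕ) : Submodule ℤ W where
  carrier := {x | ∃ y, N • y = x}
  zero_mem' := ⟨0, smul_zero _⟩
  add_mem' := by
    rintro _ _ ⟨x, rfl⟩ ⟨y, rfl⟩
    exact ⟨x + y, smul_add _ _ _⟩
  smul_mem' := by
    rintro c _ ⟨x, rfl⟩
    exact ⟨c • x, by rw [smul_comm]⟩

/-- The finite quotients of `V m n`. -/
abbrev Quo (m n p k : ℕ) : Type := V m n ⧸ multiples (V m n) (p ^ k)

theorem quo_torsion (m n p k : ℕ) (x : Quo m n p k) : (p ^ k) • x = 0 := by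
  obtain ⟨y, rfl⟩ := Submodule.Quotient.mk_surjective _ x
  rw [← Submodule.Quotient.mk_smul, Submodule.Quotient.mk_eq_zero]
  exact ⟨y, rfl⟩

theorem quo_finite (m n k : ℕ) {p : ℕ} (hp : p.Prime) : Finite (Quo m n p k) := by
  have := finite_V m n
  have : AddGroup.FG (Quo m n p k) := Module.Finite.iff_addGroup_fg.1 inferInstance
  refine AddCommGroup.finite_of_fg_isAddTorsion _ ?_
  intro x
  rw [isOfFinAddOrder_iff_nsmul_eq_zero]
  exact ⟨p ^ k, pow_pos hp.pos _, quo_torsion m n p k x⟩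

open Classical in
/-- The indicator function of the orbit of `x₀`. -/
noncomputable def chi (m n p k : ℕ) (x₀ : V m n) (q : Quo m n p k) : ZMod p :=
  if ∃ g ∈ GG m n, Submodule.Quotient.mk (g x₀) = q then 1 else 0

theorem chi_inv {m n p k : ℕ} (x₀ : V m n) : ∀ φ ∈ PP m n, ∀ x,
    chi m n p k x₀ (Submodule.Quotient.mk (φ x)) = chi m n p k x₀ (Submodule.Quotient.mk x) := by
  intro φ hφ x
  have hφG : φ ∈ GG m n := Subgroup.subset_closure hφ
  have key : ∀ (ψ : V m n ≃ₗ[ℤ] V m n) (a b : V m n),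
      (Submodule.Quotient.mk a : Quo m n p k) = Submodule.Quotient.mk b →
      (Submodule.Quotient.mk (ψ a) : Quo m n p k) = Submodule.Quotient.mk (ψ b) := by
    intro ψ a b hab
    rw [Submodule.Quotient.eq] at hab ⊢
    obtain ⟨y, hy⟩ := hab
    refine ⟨ψ y, ?_⟩
    rw [← map_sub, ← hy, map_nsmul]
  unfold chi
  congr 1
  apply propext
  constructor
  · rintro ⟨g, hg, e⟩
    refine ⟨φ⁻¹ * g, mul_mem (inv_mem hφG) hg, ?_⟩
    have := key φ⁻¹ _ _ e
    rw [← LinearEquiv.mul_apply, ← LinearEquiv.mul_apply, inv_mul_cancel, LinearEquiv.coe_one,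
      id] at this
    exact this
  · rintro ⟨g, hg, e⟩
    refine ⟨φ * g, mul_mem hφG hg, ?_⟩
    have := key φ _ _ e
    rw [← LinearEquiv.mul_apply] at this
    exact this

theorem linkType_inv (m n k : ℕ) {p : ℕ} [Fact p.Prime] : ∃ N, ∀ (χ : Quo m n p k → ZMod p)
    (hχ : ∀ φ ∈ PP m n, ∀ x, χ (Submodule.Quotient.mk (φ x)) = χ (Submodule.Quotient.mk x)),
    LinkType N (inv (fun x => χ (Submodule.Quotient.mk x)) hχ) := by
  have := quo_finite m n k (Fact.out : p.Prime)
  obtain ⟨N, hN⟩ := poly (quo_torsion m n p k) n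
  refine ⟨N, fun χ hχ M ell S hS hd => ?_⟩
  by_cases hex : ∃ b ∈ strands M, perm b = permS S ∧ Numbers b ell
  · obtain ⟨b₀, hb₀, hpb₀, hnb₀⟩ := hex
    obtain ⟨h, hh⟩ := exists_basing hnb₀.1
    set g : Braid → Quo m n p k := fun b =>
      Submodule.Quotient.mk (Submodule.Quotient.mk (T m M (of h * of b * of h⁻¹))) with hg
    rw [extend_congr (g := fun b => χ (g b)) hS ?_]
    · refine hN M g ?_ χ S hS (by omega)
      intro S' hS' hd'
      -- `g` is the composition of a linear map with `of`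
      let Φ : R →+ Quo m n p k :=
        ((Submodule.mkQ _).toAddMonoidHom.comp ((Submodule.mkQ (J m (n + 1))).toAddMonoidHom.comp
          ((T m M).toAddMonoidHom))).comp
          ((AddMonoidHom.mulRight (of h⁻¹)).comp (AddMonoidHom.mulLeft (of h)))
      have hΦ : FreeAbelianGroup.lift g = Φ := by
        ext b
        simp [Φ, hg]
      rw [extend_eq, hΦ]
      have h1 : of h * elt S' * of h⁻¹ ∈ I M (n + 1) := by
        have h2 : elt S' ∈ I M (n + 1) := I_anti M (by omega) (elt_mem hS')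
        exact I_mul_U (U_mul_I (of_mem_U hh.1) h2) (of_mem_U (inv_mem hh.1))
      have h3 : (Submodule.Quotient.mk (T m M (of h * elt S' * of h⁻¹)) : V m n) = 0 := by
        rw [Submodule.Quotient.mk_eq_zero]
        exact T_mem_J h1
      change (Submodule.Quotient.mk (Submodule.Quotient.mk (T m M (of h * elt S' * of h⁻¹)) :
        V m n) : Quo m n p k) = 0
      rw [h3, Submodule.Quotient.mk_zero]
    · intro b hb hpb
      have hnb : Numbers b ell := (numbers_congr (hpb.trans hpb₀.symm)).2 hnb₀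
      obtain ⟨s, hs⟩ := exists_of (mul_mem (mul_mem hh.1 hb) (inv_mem hh.1))
        (basing_str hh hb hnb)
      rw [linkValue, dif_pos ⟨hb, hnb⟩, inv_mk _ hχ (D := ⟨M, b, hb, ell, hnb⟩) hh hs]
      congr 1
      simp only [hg]
      rw [← FreeAbelianGroup.of_mul, ← FreeAbelianGroup.of_mul, T_of, hs]
      rfl
  · rw [extend_congr (g := fun _ => 0) hS ?_, extend_zero]
    intro b hb hpb
    rw [linkValue, dif_neg]
    rintro ⟨-, hnb⟩
    exact hex ⟨b, hb, hpb, hnb⟩

theorem exists_closure {m : ℕ} (L : Link m) : ∃ s : StringLink m, closure s = L := by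
  induction L using Quot.inductionOn with
  | h D =>
    obtain ⟨s, h, hh, hs⟩ := exists_value D
    exact ⟨s, basing_closure D hh hs⟩

theorem inv_closure {m n : ℕ} {B : Type} (χ : V m n → B)
    (hχ : ∀ φ ∈ PP m n, ∀ x, χ (φ x) = χ x) (s : StringLink m) :
    inv χ hχ (closure s) = χ (uni m n s) := by
  induction s using Quot.inductionOn with
  | h D =>
    have h1 : IsBasing D.cl.ell 1 := by
      obtain ⟨hm, hb⟩ := D.based
      refine ⟨one_mem _, hm, fun a i hai => ?_⟩
      rw [map_one, Perm.one_apply] at hai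
      have : a = Fin.castLE hm i := Fin.ext hai
      rw [this, hb]
    refine inv_mk χ hχ h1 ?_
    rw [one_mul, inv_one, mul_one, T0_pos D.cl.mem (str_of D), sd_eta]
    rfl

/-- Links which are not separated by finite type invariants with values in the fields `ZMod p` are
not separated by type `n` invariants of string links. -/
theorem approx_of_forall {m : ℕ} {L L' : Link m}
    (h : ∀ (p : ℕ) [Fact p.Prime] (v : Link m → ZMod p) (N : ℕ), LinkType N v → v L = v L')
    (n : ℕ) : Approx n L L' := by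
  obtain ⟨s, rfl⟩ := exists_closure L
  obtain ⟨t, rfl⟩ := exists_closure L'
  have := finite_V m n
  obtain ⟨g, hg, e⟩ := orbit_sep (GG m n) (Fil m n) (n + 1) (Fil_zero m n) (Fil_last m n)
    (Fil_anti m n) (fun g hg => GG_unip hg) (uni m n s) (uni m n t) (by
      intro p hp k
      have : Fact p.Prime := ⟨hp⟩
      obtain ⟨N, hN⟩ := linkType_inv m n k (p := p)
      have h1 := h p _ N (hN (chi m n p k (uni m n s)) (chi_inv (uni m n s)))
      rw [inv_closure, inv_closure] at h1
      have h2 : chi m n p k (uni m n s) (Submodule.Quotient.mk (uni m n s)) = 1 := by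
        unfold chi
        rw [if_pos]
        exact ⟨1, one_mem _, rfl⟩
      rw [h2] at h1
      unfold chi at h1
      split_ifs at h1 with h3
      · obtain ⟨g, hg, e⟩ := h3
        refine ⟨g, hg, ?_⟩
        rw [eq_comm, Submodule.Quotient.eq] at e
        obtain ⟨y, hy⟩ := e
        exact ⟨y, by rw [← sub_eq_iff_eq_add', ← hy]⟩
      · exact absurd h1 one_ne_zero)
  obtain ⟨a, ha, b, hb, hab⟩ := ore (Fil m n) (n + 1) (Fil_zero m n) (Fil_last m n) (PP m n)
    (fun g hg => hg.1) hg
  obtain ⟨t', ht1, ht2⟩ := PP_spec ha t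
  obtain ⟨s', hs1, hs2⟩ := PP_spec hb s
  have e1 : uni m n t' = uni m n s' := by
    rw [← ht1, ← hs1, e, ← LinearEquiv.mul_apply, hab]
  exact (hs2.symm.trans (Approx.of_uni e1.symm)).trans ht2

/-- Links which are not separated by type `n` invariants of string links are not separated by type
`n` invariants of links. -/
theorem eq_of_approx {m n : ℕ} {L L' : Link m} (h : Approx n L L') {B : Type} [AddCommGroup B]
    (v : Link m → B) (hv : LinkType n v) : v L = v L' := by
  induction h with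
  | rel L L' h =>
    obtain ⟨s, t, h, h1, h2⟩ := h
    obtain rfl := isClosure_iff.1 h1
    obtain rfl := isClosure_iff.1 h2
    refine h B (fun s => v (closure s)) ?_
    intro M ell S hS hd
    by_cases hb : Based ell
    · have : stringValue (fun s => v (closure s)) M ell = linkValue v M ell := by
        funext b
        unfold stringValue linkValue
        by_cases hx : b ∈ strands M ∧ Numbers b ell
        · rw [dif_pos ⟨hx, hb⟩, dif_pos hx]
          rfl
        · rw [dif_neg (fun h => hx h.1), dif_neg hx]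
      rw [this]
      exact hv M ell S hS hd
    · have : stringValue (fun s => v (closure s)) M ell = fun _ => 0 := by
        funext b
        unfold stringValue
        rw [dif_neg (fun h => hb h.2)]
      rw [this, extend_zero]
  | refl => rfl
  | symm _ _ _ ih => exact ih.symm
  | trans _ _ _ _ _ ih ih' => exact ih.trans ih'

end Pool.Agent.KS6_65.SL
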