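import Pool.Agent.KS6_65.SL.Defs

/-!
# Braids: shifts and insertion of strands
-/

set_option autoImplicit false

namespace Pool.Agent.KS6_65.SL

theorem sig_far {i j : ℕ} (h : i + 1 < j) : sig i * sig j = sig j * sig i := by
  have : (PresentedGroup.mk artin) (FreeGroup.of i * FreeGroup.of j *
      (FreeGroup.of j * FreeGroup.of i)⁻¹) = 1 :=
    PresentedGroup.one_of_mem (Or.inl ⟨i, j, h, rfl⟩)
  rw [map_mul, map_inv, mul_inv_eq_one, map_mul, map_mul] at this
  exact this

theorem sig_far' {i j : ℕ} (h : i + 1 < j) : sig j * sig i = sig i * sig j := (sig_far h).symm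

theorem sig_braid (i : ℕ) :
    sig i * sig (i + 1) * sig i = sig (i + 1) * sig i * sig (i + 1) := by
  have : (PresentedGroup.mk artin) (FreeGroup.of i * FreeGroup.of (i + 1) * FreeGroup.of i *
    (FreeGroup.of (i + 1) * FreeGroup.of i * FreeGroup.of (i + 1))⁻¹) = 1 :=
    PresentedGroup.one_of_mem (Or.inr ⟨i, rfl⟩)
  rw [map_mul, map_inv, mul_inv_eq_one, map_mul, map_mul, map_mul, map_mul] at this
  exact this

theorem sig_comm {i j : ℕ} (h : i + 1 < j ∨ j + 1 < i) : Commute (sig i) (sig j) := by
  rcases h with h | h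
  · exact sig_far h
  · exact (sig_far h).symm

@[simp] theorem perm_sig (i : ℕ) : perm (sig i) = Equiv.swap i (i + 1) := by
  simp [perm, sig]

@[simp] theorem letter_true (i : ℕ) : letter i true = sig i := rfl
@[simp] theorem letter_false (i : ℕ) : letter i false = (sig i)⁻¹ := rfl

theorem perm_letter (i : ℕ) (e : Bool) : perm (letter i e) = Equiv.swap i (i + 1) := by
  cases e <;> simp

theorem sig_mem_strands {i M : ℕ} (h : i + 1 < M) : sig i ∈ strands M :=
  Subgroup.subset_closure ⟨i, h, rfl⟩

theorem sig_mem_final {i m M : ℕ} (h : m ≤ i) (h' : i + 1 < M) : sig i ∈ final m M :=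
  Subgroup.subset_closure ⟨i, h, h', rfl⟩

theorem letter_mem_strands {i M : ℕ} (h : i + 1 < M) (e : Bool) : letter i e ∈ strands M := by
  cases e
  · exact inv_mem (sig_mem_strands h)
  · exact sig_mem_strands h

theorem strands_mono {M N : ℕ} (h : M ≤ N) : strands M ≤ strands N :=
  Subgroup.closure_mono (by rintro g ⟨i, hi, rfl⟩; exact ⟨i, by omega, rfl⟩)

theorem final_le (m M : ℕ) : final m M ≤ strands M :=
  Subgroup.closure_mono (by rintro g ⟨i, hi, hi', rfl⟩; exact ⟨i, hi', rfl⟩)

theorem final_mono {m m' M M' : ℕ} (h : m' ≤ m) (h' : M ≤ M') : final m M ≤ final m' M' :=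
  Subgroup.closure_mono (by rintro g ⟨i, hi, hi', rfl⟩; exact ⟨i, by omega, by omega, rfl⟩)

/-- Induction for elements of a subgroup generated by some of the `σ i`. -/
theorem strands_le {M : ℕ} {H : Subgroup Braid} (h : ∀ i, i + 1 < M → sig i ∈ H) :
    strands M ≤ H :=
  (Subgroup.closure_le _).2 (by rintro g ⟨i, hi, rfl⟩; exact h i hi)

theorem final_le_of {m M : ℕ} {H : Subgroup Braid} (h : ∀ i, m ≤ i → i + 1 < M → sig i ∈ H) :
    final m M ≤ H :=
  (Subgroup.closure_le _).2 (by rintro g ⟨i, hi, hi', rfl⟩; exact h i hi hi')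

theorem commute_of_final {M N : ℕ} {x g : Braid} (hx : x ∈ strands M) (hg : g ∈ final M N) :
    Commute x g := by
  have h1 : strands M ≤ Subgroup.centralizer (final M N : Set Braid) := by
    refine strands_le fun i hi => ?_
    rw [Subgroup.mem_centralizer_iff]
    have h2 : final M N ≤ Subgroup.centralizer ({sig i} : Set Braid) := by
      refine final_le_of fun j hj _ => ?_
      rw [Subgroup.mem_centralizer_iff]
      rintro _ rfl
      exact sig_far (by omega)
    intro g hg
    have := Subgroup.mem_centralizer_iff.1 (h2 hg) (sig i) rfl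
    exact this.symm
  exact (Subgroup.mem_centralizer_iff.1 (h1 hx) g hg).symm

theorem perm_of_le {M : ℕ} {b : Braid} (hb : b ∈ strands M) {a : ℕ} (ha : M ≤ a) :
    perm b a = a := by
  have h : strands M ≤ (MulAction.stabilizer (Equiv.Perm ℕ) a).comap perm := by
    refine strands_le fun i hi => ?_
    rw [Subgroup.mem_comap, MulAction.mem_stabilizer_iff, perm_sig, Equiv.Perm.smul_def]
    exact Equiv.swap_apply_of_ne_of_ne (by omega) (by omega)
  exact MulAction.mem_stabilizer_iff.1 (h hb)

theorem perm_final {m M : ℕ} {b : Braid} (hb : b ∈ final m M) {a : ℕ} (ha : a < m) :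
    perm b a = a := by
  have h : final m M ≤ (MulAction.stabilizer (Equiv.Perm ℕ) a).comap perm := by
    refine final_le_of fun i hi _ => ?_
    rw [Subgroup.mem_comap, MulAction.mem_stabilizer_iff, perm_sig, Equiv.Perm.smul_def]
    exact Equiv.swap_apply_of_ne_of_ne (by omega) (by omega)
  exact MulAction.mem_stabilizer_iff.1 (h hb)

theorem lt_of_fix {M : ℕ} {w : Equiv.Perm ℕ} (hw : ∀ a, M ≤ a → w a = a) {a : ℕ} (ha : a < M) :
    w a < M := by
  by_contra h
  push Not at h
  have := hw _ h
  have := w.injective this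
  omega

theorem perm_lt {M : ℕ} {b : Braid} (hb : b ∈ strands M) {a : ℕ} (ha : a < M) :
    perm b a < M := lt_of_fix (fun _ h => perm_of_le hb h) ha

/-! ### The braids `σ a ⋯ σ (a + n - 1)` -/

/-- `run a n = σ a * σ (a + 1) * ⋯ * σ (a + n - 1)`. -/
def run (a : ℕ) : ℕ → Braid
  | 0 => 1
  | n + 1 => run a n * sig (a + n)

theorem run_mem (a n : ℕ) : run a n ∈ final a (a + n + 1) := by
  induction n with
  | zero => exact one_mem _
  | succ n ih =>
    exact mul_mem (final_mono le_rfl (by omega) ih) (sig_mem_final (by omega) (by omega))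

theorem run_succ' (a n : ℕ) : run a (n + 1) = sig a * run (a + 1) n := by
  induction n with
  | zero => simp [run]
  | succ n ih =>
    rw [run, ih, run, mul_assoc, show a + (n + 1) = a + 1 + n by omega]

theorem run_mul_sig (a n : ℕ) {i : ℕ} (h : a ≤ i) (h' : i + 1 < a + n) :
    run a n * sig i = sig (i + 1) * run a n := by
  induction n with
  | zero => omega
  | succ n ih =>
    rcases Nat.lt_or_ge (i + 1) (a + n) with h1 | h1
    · rw [run, mul_assoc, sig_far' h1, ← mul_assoc, ih h1, mul_assoc]
    · obtain ⟨n', rfl⟩ : ∃ n', n = n' + 1 := ⟨n - 1, by omega⟩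
      obtain rfl : i = a + n' := by omega
      rw [run, run, show a + (n' + 1) = a + n' + 1 by omega, mul_assoc, mul_assoc,
        ← mul_assoc (sig (a + n')), sig_braid, ← mul_assoc (run a n'), ← mul_assoc (run a n'),
        ← mul_assoc]
      have : Commute (run a n') (sig (a + n' + 1)) := by
        refine commute_of_final (M := a + n' + 1) (N := a + n' + 3) (final_le _ _ (run_mem a n'))
          (sig_mem_final (by omega) (by omega))
      rw [this.eq]
      simp only [mul_assoc]

/-- `run a n` conjugates braids of the strands `a, ..., a + n - 1` to their shifts. -/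
theorem run_run (a n : ℕ) : run a (n + 1) * run a n = run (a + 1) n * run a (n + 1) := by
  have : ∀ k, k ≤ n → run a (n + 1) * run a k = run (a + 1) k * run a (n + 1) := by
    intro k
    induction k with
    | zero => simp [run]
    | succ k ih =>
      intro hk
      rw [show run a (k + 1) = run a k * sig (a + k) from rfl, ← mul_assoc, ih (by omega),
        mul_assoc, run_mul_sig a (n + 1) (i := a + k) (by omega) (by omega), ← mul_assoc]
      rw [show run (a + 1) (k + 1) = run (a + 1) k * sig (a + 1 + k) from rfl,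
        show a + 1 + k = a + k + 1 by omega]
  exact this n le_rfl

theorem run_conj_sig (a n : ℕ) :
    (run (a + 1) n)⁻¹ * sig a * run (a + 1) n = run a n * sig (a + n) * (run a n)⁻¹ := by
  have h1 := run_run a n
  rw [show run a (n + 1) = run a n * sig (a + n) from rfl] at h1
  have h2 : run a n * sig (a + n) = sig a * run (a + 1) n := by
    rw [← run_succ' a n]; rfl
  rw [eq_mul_inv_iff_mul_eq, mul_assoc, mul_assoc, inv_mul_eq_iff_eq_mul]
  calc sig a * (run (a + 1) n * run a n) = run a n * sig (a + n) * run a n := by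
        rw [h2, mul_assoc]
    _ = _ := h1

/-! ### Insertion of a strand -/

/-- The images of the generators under `ins l`. -/
def insFun (l i : ℕ) : Braid :=
  if i + 1 < l then sig i else if i + 1 = l then sig (i + 1) * sig i * (sig (i + 1))⁻¹
  else sig (i + 1)

theorem insFun_lt {l i : ℕ} (h : i + 1 < l) : insFun l i = sig i := by simp [insFun, h]
theorem insFun_eq {l i : ℕ} (h : i + 1 = l) :
    insFun l i = sig (i + 1) * sig i * (sig (i + 1))⁻¹ := by
  simp [insFun, h]
theorem insFun_gt {l i : ℕ} (h : l ≤ i) : insFun l i = sig (i + 1) := by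
  simp [insFun, show ¬ (i + 1 < l) by omega, show ¬ (i + 1 = l) by omega]

theorem insFun_far (l : ℕ) {i j : ℕ} (h : i + 1 < j) : Commute (insFun l i) (insFun l j) := by
  rcases Nat.lt_trichotomy (j + 1) l with hj | hj | hj
  · rw [insFun_lt hj, insFun_lt (by omega)]; exact sig_far h
  · rw [insFun_eq hj, insFun_lt (by omega)]
    exact ((sig_comm (by omega)).mul_right (sig_comm (by omega))).mul_right
      (sig_comm (by omega)).inv_right
  · rw [insFun_gt (by omega : l ≤ j)]
    rcases Nat.lt_trichotomy (i + 1) l with hi | hi | hi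
    · rw [insFun_lt hi]; exact sig_comm (by omega)
    · rw [insFun_eq hi]
      exact ((sig_comm (by omega)).mul_left (sig_comm (by omega))).mul_left
        (sig_comm (by omega)).inv_left
    · rw [insFun_gt (by omega)]; exact sig_comm (by omega)

theorem insFun_braid (l i : ℕ) :
    insFun l i * insFun l (i + 1) * insFun l i = insFun l (i + 1) * insFun l i * insFun l (i + 1) := by
  rcases Nat.lt_trichotomy (i + 1) l with hi | hi | hi
  · rcases Nat.lt_or_ge (i + 2) l with h2 | h2
    · rw [insFun_lt hi, insFun_lt h2]; exact sig_braid i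
    · rw [insFun_lt hi, insFun_eq (show i + 1 + 1 = l by omega)]
      have c : Commute (sig (i + 2)) (sig i) := sig_comm (by omega)
      have b := sig_braid i
      calc sig i * (sig (i + 2) * sig (i + 1) * (sig (i + 2))⁻¹) * sig i
          = sig (i + 2) * (sig i * sig (i + 1) * sig i) * (sig (i + 2))⁻¹ := by
            have c' : (sig (i + 2))⁻¹ * sig i = sig i * (sig (i + 2))⁻¹ := c.inv_left.eq
            have c'' : sig i * sig (i + 2) = sig (i + 2) * sig i := c.eq.symm
            simp only [mul_assoc, c']
            rw [← mul_assoc (sig i) (sig (i + 2)), c'']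
            simp only [mul_assoc]
        _ = _ := by
            rw [b]
            have c'' : (sig (i + 2))⁻¹ * sig i = sig i * (sig (i + 2))⁻¹ := c.inv_left.eq
            simp only [mul_assoc]
            rw [← mul_assoc (sig (i + 2))⁻¹ (sig i), c'']
            simp only [mul_assoc, inv_mul_cancel_left]
  · rw [insFun_eq hi, insFun_gt (show l ≤ i + 1 by omega)]
    have b1 := sig_braid (i + 1)
    have b0 := sig_braid i
    have c : Commute (sig (i + 2)) (sig i) := sig_comm (by omega)
    -- with `s = σ i`, `t = σ (i+1)`, `u = σ (i+2)`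
    have h1 : sig (i + 1) * sig i * (sig (i + 1))⁻¹ = (sig i)⁻¹ * sig (i + 1) * sig i := by
      rw [mul_inv_eq_iff_eq_mul, mul_assoc, mul_assoc, eq_inv_mul_iff_mul_eq, ← mul_assoc,
        ← mul_assoc]
      exact b0
    rw [h1]
    have c1 : (sig (i + 2)) * (sig i)⁻¹ = (sig i)⁻¹ * sig (i + 2) := c.inv_right.eq
    have c2 : sig i * sig (i + 2) = sig (i + 2) * sig i := c.eq.symm
    calc (sig i)⁻¹ * sig (i + 1) * sig i * sig (i + 1 + 1) * ((sig i)⁻¹ * sig (i + 1) * sig i)
        = (sig i)⁻¹ * (sig (i + 1) * sig (i + 1 + 1) * sig (i + 1)) * sig i := by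
          have : sig i * sig (i + 1 + 1) * (sig i)⁻¹ = sig (i + 1 + 1) := by
            rw [c2, mul_assoc, mul_inv_cancel, mul_one]
          calc _ = (sig i)⁻¹ * sig (i + 1) * (sig i * sig (i + 1 + 1) * (sig i)⁻¹) *
                (sig (i + 1) * sig i) := by group
            _ = _ := by rw [this]; group
      _ = (sig i)⁻¹ * (sig (i + 1 + 1) * sig (i + 1) * sig (i + 1 + 1)) * sig i := by rw [b1]
      _ = _ := by
          calc (sig i)⁻¹ * (sig (i + 1 + 1) * sig (i + 1) * sig (i + 1 + 1)) * sig i
              = ((sig i)⁻¹ * sig (i + 2)) * sig (i + 1) * (sig (i + 2) * sig i) := by group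
            _ = (sig (i + 2) * (sig i)⁻¹) * sig (i + 1) * (sig i * sig (i + 2)) := by
              rw [c1, c2]
            _ = _ := by group
  · rw [insFun_gt (by omega), insFun_gt (by omega)]; exact sig_braid (i + 1)

/-- Insertion of a straight strand at the position `l`. -/
def ins (l : ℕ) : Braid →* Braid :=
  PresentedGroup.toGroup (f := insFun l) (by
    rintro r (⟨i, j, h, rfl⟩ | ⟨i, rfl⟩)
    · simp only [map_mul, map_inv, FreeGroup.lift_apply_of, mul_inv_eq_one]
      exact insFun_far l h
    · simp only [map_mul, map_inv, FreeGroup.lift_apply_of, mul_inv_eq_one]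
      exact insFun_braid l i)

@[simp] theorem ins_sig (l i : ℕ) : ins l (sig i) = insFun l i := by
  simp [ins, sig]

theorem hom_ext {G : Type*} [Group G] {f g : Braid →* G} (h : ∀ i, f (sig i) = g (sig i)) :
    f = g := PresentedGroup.ext h

end Pool.Agent.KS6_65.SL
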