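import Pool.Agent.KS6_65.SL.Core

/-!
# Insertion of strands
-/

set_option autoImplicit false

namespace Pool.Agent.KS6_65.SL

theorem ins_of_strands {l : ℕ} {b : Braid} (hb : b ∈ strands l) : ins l b = b := by
  have h : strands l ≤ MonoidHom.eqLocus (ins l) (MonoidHom.id Braid) := by
    refine strands_le fun i hi => ?_
    change ins l (sig i) = sig i
    rw [ins_sig, insFun_lt hi]
  exact h hb

theorem ins_mem {l M : ℕ} (h : l ≤ M) {b : Braid} (hb : b ∈ strands M) :
    ins l b ∈ strands (M + 1) := by
  have h1 : strands M ≤ (strands (M + 1)).comap (ins l) := by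
    refine strands_le fun i hi => ?_
    rw [Subgroup.mem_comap, ins_sig]
    rcases Nat.lt_trichotomy (i + 1) l with h2 | h2 | h2
    · rw [insFun_lt h2]; exact sig_mem_strands (by omega)
    · rw [insFun_eq h2]
      exact mul_mem (mul_mem (sig_mem_strands (by omega)) (sig_mem_strands (by omega)))
        (inv_mem (sig_mem_strands (by omega)))
    · rw [insFun_gt (by omega)]; exact sig_mem_strands (by omega)
  exact h1 hb

theorem ins_eq_run {l L : ℕ} (h : l ≤ L) {b : Braid} (hb : b ∈ strands L) :
    ins l b = run l (L - l) * b * (run l (L - l))⁻¹ := by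
  have h1 : strands L ≤ MonoidHom.eqLocus (ins l) (MulAut.conj (run l (L - l))).toMonoidHom := by
    refine strands_le fun i hi => ?_
    change ins l (sig i) = run l (L - l) * sig i * (run l (L - l))⁻¹
    rw [ins_sig]
    rcases Nat.lt_trichotomy (i + 1) l with h2 | h2 | h2
    · rw [insFun_lt h2]
      have h3 : Commute (sig i) (run l (L - l)) :=
        commute_of_final (sig_mem_strands h2) (run_mem l (L - l))
      rw [← h3.eq, mul_inv_cancel_right]
    · rw [insFun_eq h2]
      obtain ⟨n, hn⟩ : ∃ n, L - l = n + 1 := ⟨L - l - 1, by omega⟩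
      rw [hn, run_succ']
      have h3 : Commute (sig i) (run (l + 1) n) :=
        commute_of_final (sig_mem_strands (by omega)) (run_mem (l + 1) n)
      rw [h2, mul_inv_rev]
      calc sig l * sig i * (sig l)⁻¹ = sig l * (sig i * run (l + 1) n) * (run (l + 1) n)⁻¹ * (sig l)⁻¹ := by group
        _ = _ := by rw [h3.eq]; group
    · rw [insFun_gt (by omega), run_mul_sig l (L - l) (by omega) (by omega), mul_inv_cancel_right]
  exact h1 hb

theorem ins_ins {a c : ℕ} (h : a ≤ c) : (ins a).comp (ins c) = (ins (c + 1)).comp (ins a) := by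
  refine hom_ext fun i => ?_
  rw [MonoidHom.comp_apply, MonoidHom.comp_apply, ins_sig, ins_sig]
  rcases Nat.lt_trichotomy (i + 1) a with h1 | h1 | h1
  · rw [insFun_lt h1, insFun_lt (show i + 1 < c by omega), ins_sig, ins_sig, insFun_lt h1,
      insFun_lt (show i + 1 < c + 1 by omega)]
  · rw [insFun_eq h1]
    rcases Nat.lt_or_ge a c with h2 | h2
    · rw [insFun_lt (show i + 1 < c by omega)]
      simp only [map_mul, map_inv, ins_sig]
      rw [insFun_eq h1, insFun_lt (show i + 1 + 1 < c + 1 by omega), insFun_lt (show i + 1 < c + 1 by omega)]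
    · obtain rfl : a = c := by omega
      rw [insFun_eq h1]
      simp only [map_mul, map_inv, ins_sig]
      rw [insFun_gt (show a ≤ i + 1 by omega), insFun_eq h1, insFun_eq (show i + 1 + 1 = a + 1 by omega),
        insFun_lt (show i + 1 < a + 1 by omega)]
      have h3 : Commute (sig i) (sig (i + 1 + 1)) := sig_comm (by omega)
      have h4 : (sig (i + 1 + 1))⁻¹ * sig i * sig (i + 1 + 1) = sig i := by
        rw [mul_assoc, h3.eq, inv_mul_cancel_left]
      calc sig (i + 1 + 1) * (sig (i + 1) * sig i * (sig (i + 1))⁻¹) * (sig (i + 1 + 1))⁻¹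
          = sig (i + 1 + 1) * sig (i + 1) * ((sig (i + 1 + 1))⁻¹ * sig i * sig (i + 1 + 1)) *
            (sig (i + 1))⁻¹ * (sig (i + 1 + 1))⁻¹ := by rw [h4]; group
        _ = _ := by group
  · rw [insFun_gt (show a ≤ i by omega)]
    rcases Nat.lt_trichotomy (i + 1) c with h2 | h2 | h2
    · rw [insFun_lt h2, ins_sig, ins_sig, insFun_gt (show a ≤ i by omega),
        insFun_lt (show i + 1 + 1 < c + 1 by omega)]
    · rw [insFun_eq h2]
      simp only [map_mul, map_inv, ins_sig]
      rw [insFun_gt (show a ≤ i + 1 by omega), insFun_gt (show a ≤ i by omega),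
        insFun_eq (show i + 1 + 1 = c + 1 by omega)]
    · rw [insFun_gt (show c ≤ i by omega), ins_sig, ins_sig, insFun_gt (show a ≤ i + 1 by omega),
        insFun_gt (show c + 1 ≤ i + 1 by omega)]

theorem wide_zero (m : ℕ) (b : Braid) : wide m 0 b = b := rfl

theorem wide_succ (m z : ℕ) (b : Braid) : wide m (z + 1) b = ins (m + z) (wide m z b) := rfl

theorem wide_strands {m z : ℕ} {b : Braid} (hb : b ∈ strands m) : wide m z b = b := by
  induction z with
  | zero => rfl
  | succ z ih => rw [wide_succ, ih, ins_of_strands (strands_mono (by omega) hb)]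

theorem wide_sig {m z i : ℕ} (h : m ≤ i) : wide m z (sig i) = sig (i + z) := by
  induction z with
  | zero => rfl
  | succ z ih => rw [wide_succ, ih, ins_sig, insFun_gt (by omega), add_assoc]

theorem wide_mem {m z M : ℕ} (hm : m ≤ M) {b : Braid} (hb : b ∈ strands M) :
    wide m z b ∈ strands (M + z) := by
  induction z with
  | zero => exact hb
  | succ z ih =>
    rw [wide_succ]
    exact ins_mem (M := M + z) (by omega) ih

theorem wide_final {m z M : ℕ} {g : Braid} (hg : g ∈ final m M) :
    wide m z g ∈ final (m + z) (M + z) := by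
  have h1 : final m M ≤ (final (m + z) (M + z)).comap (wide m z) := by
    refine final_le_of fun i hi hi' => ?_
    rw [Subgroup.mem_comap, wide_sig hi]
    exact sig_mem_final (by omega) (by omega)
  exact h1 hg

theorem ins_ins_apply {a c : ℕ} (h : a ≤ c) (b : Braid) : ins a (ins c b) = ins (c + 1) (ins a b) :=
  DFunLike.congr_fun (ins_ins h) b

theorem commute_ins_ins (i : ℕ) (b : Braid) : Commute (sig i) (ins i (ins i b)) := by
  have h1 : (MulAut.conj (sig i)).toMonoidHom.comp ((ins i).comp (ins i)) = (ins i).comp (ins i) := by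
    refine hom_ext fun j => ?_
    change sig i * ins i (ins i (sig j)) * (sig i)⁻¹ = ins i (ins i (sig j))
    rw [ins_sig]
    rcases Nat.lt_trichotomy (j + 1) i with h | h | h
    · rw [insFun_lt h, ins_sig, insFun_lt h]
      have h3 : Commute (sig i) (sig j) := sig_comm (by omega)
      rw [h3.eq, mul_inv_cancel_right]
    · rw [insFun_eq h]
      simp only [map_mul, map_inv, ins_sig]
      rw [insFun_gt (show i ≤ j + 1 by omega), insFun_eq h]
      subst h
      have h3 : Commute (sig (j + 1 + 1)) (sig j) := sig_comm (by omega)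
      have b1 := sig_braid (j + 1)
      have h4 : sig (j + 1 + 1) * sig j * (sig (j + 1 + 1))⁻¹ = sig j := by
        rw [h3.eq, mul_inv_cancel_right]
      calc sig (j + 1) * (sig (j + 1 + 1) * (sig (j + 1) * sig j * (sig (j + 1))⁻¹) * (sig (j + 1 + 1))⁻¹) *
            (sig (j + 1))⁻¹
          = (sig (j + 1) * sig (j + 1 + 1) * sig (j + 1)) * sig j *
            (sig (j + 1) * sig (j + 1 + 1) * sig (j + 1))⁻¹ := by group
        _ = (sig (j + 1 + 1) * sig (j + 1) * sig (j + 1 + 1)) * sig j *
            (sig (j + 1 + 1) * sig (j + 1) * sig (j + 1 + 1))⁻¹ := by rw [b1]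
        _ = sig (j + 1 + 1) * sig (j + 1) * (sig (j + 1 + 1) * sig j * (sig (j + 1 + 1))⁻¹) *
            (sig (j + 1))⁻¹ * (sig (j + 1 + 1))⁻¹ := by group
        _ = _ := by rw [h4]; group
    · rw [insFun_gt (show i ≤ j by omega), ins_sig, insFun_gt (show i ≤ j + 1 by omega)]
      have h3 : Commute (sig i) (sig (j + 1 + 1)) := sig_comm (by omega)
      rw [h3.eq, mul_inv_cancel_right]
  have h2 := DFunLike.congr_fun h1 b
  change sig i * ins i (ins i b) * (sig i)⁻¹ = ins i (ins i b) at h2
  exact mul_inv_eq_iff_eq_mul.1 h2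

theorem wide_eq_ins_ins {m i : ℕ} (hi : m ≤ i) (b : Braid) (z : ℕ) (hz : i + 1 < m + z) :
    ∃ y, wide m z b = ins i (ins i y) := by
  induction z with
  | zero => omega
  | succ z ih =>
    rw [wide_succ]
    rcases Nat.lt_or_ge (i + 1) (m + z) with h | h
    · obtain ⟨y, hy⟩ := ih h
      obtain ⟨c, hc⟩ : ∃ c, m + z = c + 1 + 1 := ⟨m + z - 2, by omega⟩
      refine ⟨ins c y, ?_⟩
      rw [hy, hc, ← ins_ins_apply (show i ≤ c + 1 by omega), ← ins_ins_apply (show i ≤ c by omega)]
    · obtain ⟨z', rfl⟩ : ∃ z', z = z' + 1 := ⟨z - 1, by omega⟩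
      have h1 : m + z' = i := by omega
      refine ⟨wide m z' b, ?_⟩
      rw [wide_succ, h1, show m + (z' + 1) = i + 1 by omega, ← ins_ins_apply le_rfl]

theorem wide_commute {m z : ℕ} {g : Braid} (hg : g ∈ final m (m + z)) (b : Braid) :
    Commute g (wide m z b) := by
  have h1 : final m (m + z) ≤ Subgroup.centralizer ({wide m z b} : Set Braid) := by
    refine final_le_of fun i hi hi' => ?_
    rw [Subgroup.mem_centralizer_iff]
    rintro _ rfl
    obtain ⟨y, hy⟩ := wide_eq_ins_ins hi b z hi'
    rw [hy]
    exact (commute_ins_ins i y).eq.symm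
  exact (Subgroup.mem_centralizer_iff.1 (h1 hg) _ rfl).symm

theorem wide_letter {m z k : ℕ} (h : m ≤ k + 1) (e : Bool) :
    ∃ c ∈ strands (k + 1 + z), wide m z (letter k e) = c * letter (k + z) e * c⁻¹ := by
  have key : ∃ c ∈ strands (k + 1 + z), wide m z (sig k) = c * sig (k + z) * c⁻¹ := by
    rcases Nat.lt_or_ge k m with h1 | h1
    · obtain rfl : m = k + 1 := by omega
      induction z with
      | zero => exact ⟨1, one_mem _, by simp [wide_zero]⟩
      | succ z ih =>
        obtain ⟨c, hc, hc'⟩ := ih
        refine ⟨c * (sig (k + z))⁻¹, mul_mem (strands_mono (by omega) hc)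
          (inv_mem (sig_mem_strands (by omega))), ?_⟩
        rw [wide_succ, hc']
        simp only [map_mul, map_inv, ins_sig]
        rw [ins_of_strands hc, insFun_eq (show k + z + 1 = k + 1 + z by omega)]
        have b1 := sig_braid (k + z)
        have b2 : sig (k + z + 1) * sig (k + z) * (sig (k + z + 1))⁻¹ =
            (sig (k + z))⁻¹ * sig (k + z + 1) * sig (k + z) := by
          rw [mul_inv_eq_iff_eq_mul, mul_assoc, mul_assoc, eq_inv_mul_iff_mul_eq, ← mul_assoc, ← mul_assoc]
          exact b1
        rw [b2, show k + (z + 1) = k + z + 1 by omega]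
        group
    · exact ⟨1, one_mem _, by rw [wide_sig h1]; simp⟩
  obtain ⟨c, hc, hc'⟩ := key
  refine ⟨c, hc, ?_⟩
  cases e
  · rw [letter_false, letter_false, map_inv, hc']
    group
  · exact hc'

theorem wide_ins (m z : ℕ) (b : Braid) : wide m z (ins m b) = wide m (z + 1) b := by
  induction z with
  | zero => rfl
  | succ z ih =>
    rw [wide_succ, ih, wide_succ m (z + 1), wide_succ, show m + (z + 1) = m + z + 1 by omega,
      ← ins_ins_apply le_rfl]

theorem wide_wide (m z z' : ℕ) (b : Braid) : wide m z (wide m z' b) = wide m (z + z') b := by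
  induction z' generalizing b with
  | zero => rfl
  | succ z' ih => rw [← wide_ins, ih, wide_ins, add_assoc]

theorem wide_conj {m z M : ℕ} (hm : m ≤ M) :
    ∃ g ∈ final m (M + z), ∀ b ∈ strands M, wide m z b = g * b * g⁻¹ := by
  induction z with
  | zero => exact ⟨1, one_mem _, fun b _ => by simp [wide_zero]⟩
  | succ z ih =>
    obtain ⟨g, hg, hg'⟩ := ih
    refine ⟨run (m + z) (M - m) * g, mul_mem (final_mono (by omega) (by omega) (run_mem (m + z) (M - m)))
      (final_mono le_rfl (by omega) hg), fun b hb => ?_⟩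
    rw [wide_succ, ins_eq_run (L := M + z) (by omega) (wide_mem hm hb), hg' b hb,
      show M + z - (m + z) = M - m by omega]
    group

end Pool.Agent.KS6_65.SL
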