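import Pool.Agent.KS6_65.SL.Ins

/-!
# Braids with given permutations
-/

set_option autoImplicit false

namespace Pool.Agent.KS6_65.SL

open Equiv
open scoped commutatorElement
open FreeAbelianGroup (of)

theorem inv_apply' (w : Perm ℕ) (a : ℕ) : w⁻¹ (w a) = a := by
  rw [← Perm.mul_apply, inv_mul_cancel, Perm.one_apply]

theorem apply_inv' (w : Perm ℕ) (a : ℕ) : w (w⁻¹ a) = a := by
  rw [← Perm.mul_apply, mul_inv_cancel, Perm.one_apply]

theorem mem_pureB {M : ℕ} {g : Braid} : g ∈ pureB M ↔ g ∈ strands M ∧ perm g = 1 := Iff.rfl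

/-! ### Lifts of permutations -/

theorem perm_run_apply (a n : ℕ) : perm (run a n) (a + n) = a := by
  induction n with
  | zero => simp [run]
  | succ n ih =>
    rw [run, map_mul, perm_sig, Perm.mul_apply, show a + (n + 1) = a + n + 1 by omega,
      Equiv.swap_apply_right, ih]

theorem exists_final {m M : ℕ} {w : Perm ℕ} (h : ∀ a < m, w a = a) (h' : ∀ a, M ≤ a → w a = a) :
    ∃ g ∈ final m M, perm g = w := by
  induction M generalizing w with
  | zero =>
    refine ⟨1, one_mem _, ?_⟩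
    rw [map_one]
    exact (Equiv.ext fun a => h' a (Nat.zero_le a)).symm
  | succ l ih =>
    rcases Nat.lt_or_ge l m with hl | hl
    · refine ⟨1, one_mem _, ?_⟩
      rw [map_one]
      refine (Equiv.ext fun a => ?_).symm
      rcases Nat.lt_or_ge a m with ha | ha
      · exact h a ha
      · exact h' a (by omega)
    · set c := w⁻¹ l with hc
      have hwc : w c = l := by rw [hc, apply_inv']
      have hc1 : m ≤ c := by
        by_contra hh
        have := h c (by omega)
        omega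
      have hc2 : c ≤ l := by
        by_contra hh
        have := h' c (by omega)
        omega
      have hrun : perm (run c (l - c)) l = c := by
        have := perm_run_apply c (l - c)
        rwa [show c + (l - c) = l by omega] at this
      have hmem : run c (l - c) ∈ final m (l + 1) :=
        final_mono hc1 (by omega) (run_mem c (l - c))
      obtain ⟨g, hg, hw⟩ := ih (w := w * perm (run c (l - c)))
        (fun a ha => by rw [Perm.mul_apply, perm_final hmem ha, h a ha])
        (fun a ha => by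
          rcases Nat.eq_or_lt_of_le ha with rfl | ha
          · rw [Perm.mul_apply, hrun, hwc]
          · rw [Perm.mul_apply, perm_of_le (final_le _ _ hmem) ha, h' a ha])
      refine ⟨g * (run c (l - c))⁻¹, mul_mem (final_mono le_rfl (Nat.le_succ l) hg)
        (inv_mem hmem), ?_⟩
      rw [map_mul, map_inv, hw, mul_inv_cancel_right]

theorem exists_strands {M : ℕ} {w : Perm ℕ} (h' : ∀ a, M ≤ a → w a = a) :
    ∃ g ∈ strands M, perm g = w := by
  obtain ⟨g, hg, hw⟩ := exists_final (m := 0) (M := M) (w := w) (by simp) h'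
  exact ⟨g, final_le _ _ hg, hw⟩

/-- Extension of an injection to a permutation. -/
theorem exists_perm_ext {m M' : ℕ} (u v : ℕ → ℕ) (N : ℕ) (hu : ∀ a < N, m ≤ u a ∧ u a < M')
    (hv : ∀ a < N, m ≤ v a ∧ v a < M') (iu : ∀ a < N, ∀ b < N, u a = u b → a = b)
    (iv : ∀ a < N, ∀ b < N, v a = v b → a = b) :
    ∃ w : Perm ℕ, (∀ a < m, w a = a) ∧ (∀ a, M' ≤ a → w a = a) ∧ ∀ a < N, w (u a) = v a := by
  induction N with
  | zero => exact ⟨1, fun a _ => rfl, fun a _ => rfl, fun a h => by omega⟩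
  | succ N ih =>
    obtain ⟨w, h1, h2, h3⟩ := ih (fun a ha => hu a (by omega)) (fun a ha => hv a (by omega))
      (fun a ha b hb => iu a (by omega) b (by omega))
      (fun a ha b hb => iv a (by omega) b (by omega))
    obtain ⟨v1, v2⟩ := hv N (by omega)
    obtain ⟨u1, u2⟩ := hu N (by omega)
    have hw2 : w (u N) < M' := lt_of_fix h2 u2
    have hw1 : m ≤ w (u N) := by
      by_contra hh
      have := h1 (w (u N)) (by omega)
      have := w.injective this
      omega
    refine ⟨swap (w (u N)) (v N) * w, fun a ha => ?_, fun a ha => ?_, fun a ha => ?_⟩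
    · rw [Perm.mul_apply, h1 a ha, swap_apply_of_ne_of_ne (by omega) (by omega)]
    · rw [Perm.mul_apply, h2 a ha, swap_apply_of_ne_of_ne (by omega) (by omega)]
    · rw [Perm.mul_apply]
      rcases Nat.lt_succ_iff_lt_or_eq.1 ha with ha | rfl
      · rw [h3 a ha, swap_apply_of_ne_of_ne]
        · intro hh
          rw [← h3 a ha] at hh
          have := iu a (by omega) N (by omega) (w.injective hh)
          omega
        · intro hh
          have := iv a (by omega) N (by omega) hh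
          omega
      · rw [swap_apply_left]

/-! ### Generators of the pure braid group -/

/-- The subgroup generated by the conjugates of the squares of the generators. -/
def KS (M : ℕ) : Subgroup Braid :=
  Subgroup.closure {x | ∃ g ∈ strands M, ∃ i, i + 1 < M ∧ x = g * (sig i * sig i) * g⁻¹}

theorem KS_mono {M M' : ℕ} (h : M ≤ M') : KS M ≤ KS M' :=
  Subgroup.closure_mono (by
    rintro x ⟨g, hg, i, hi, rfl⟩
    exact ⟨g, strands_mono h hg, i, by omega, rfl⟩)

theorem KS_gen {M i : ℕ} {g : Braid} (hg : g ∈ strands M) (hi : i + 1 < M) :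
    g * (sig i * sig i) * g⁻¹ ∈ KS M := Subgroup.subset_closure ⟨g, hg, i, hi, rfl⟩

theorem KS_conj {M : ℕ} {g x : Braid} (hg : g ∈ strands M) (hx : x ∈ KS M) :
    g * x * g⁻¹ ∈ KS M := by
  have h : KS M ≤ (KS M).comap (MulAut.conj g).toMonoidHom := by
    refine (Subgroup.closure_le _).2 ?_
    rintro _ ⟨h, hh, i, hi, rfl⟩
    show g * (h * (sig i * sig i) * h⁻¹) * g⁻¹ ∈ KS M
    have := KS_gen (mul_mem hg hh) hi
    rwa [mul_inv_rev, show g * h * (sig i * sig i) * (h⁻¹ * g⁻¹) =
      g * (h * (sig i * sig i) * h⁻¹) * g⁻¹ by simp only [mul_assoc]] at this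
  exact h hx

theorem KS_perm {M : ℕ} {x : Braid} (hx : x ∈ KS M) : perm x = 1 := by
  have h : KS M ≤ perm.ker := by
    refine (Subgroup.closure_le _).2 ?_
    rintro _ ⟨h, hh, i, hi, rfl⟩
    show perm _ = 1
    rw [map_mul, map_mul, map_mul, perm_sig, swap_mul_self, mul_one, map_inv, mul_inv_cancel]
  exact h hx

/-- Normal forms. -/
def NF (M : ℕ) (g : Braid) : Prop :=
  ∃ k ∈ KS (M + 1), ∃ g0 ∈ strands M, ∃ j n, j + n = M ∧ g = k * g0 * (run j n)⁻¹

theorem NF_step_inv {M i : ℕ} {g : Braid} (hi : i < M) (h : NF M g) : NF M (g * (sig i)⁻¹) := by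
  obtain ⟨k, hk, g0, hg0, j, n, hjn, rfl⟩ := h
  have e : k * g0 * (run j n)⁻¹ * (sig i)⁻¹ = k * g0 * (sig i * run j n)⁻¹ := by
    rw [mul_inv_rev, mul_assoc]
  rw [e]
  have hrun : run j n ∈ final j (j + n + 1) := run_mem j n
  rcases Nat.lt_trichotomy (i + 1) j with h1 | h1 | h1
  · have hc : Commute (sig i) (run j n) :=
      commute_of_final (sig_mem_strands h1) hrun
    refine ⟨k, hk, g0 * (sig i)⁻¹, mul_mem hg0 (inv_mem (sig_mem_strands (by omega))), j, n, hjn, ?_⟩
    rw [hc.eq, mul_inv_rev]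
    simp only [mul_assoc]
  · subst h1
    exact ⟨k, hk, g0, hg0, i, n + 1, by omega, by rw [run_succ']⟩
  · rcases Nat.eq_or_lt_of_le (show j ≤ i by omega) with rfl | h2
    · obtain ⟨n, rfl⟩ : ∃ n', n = n' + 1 := ⟨n - 1, by omega⟩
      rw [run_succ']
      have hr' : run (j + 1) n ∈ strands (M + 1) := by
        refine strands_mono ?_ (final_le _ _ (run_mem (j + 1) n))
        omega
      have hgr : g0 * (run (j + 1) n)⁻¹ ∈ strands (M + 1) :=
        mul_mem (strands_mono (Nat.le_succ M) hg0) (inv_mem hr')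
      refine ⟨k * ((g0 * (run (j + 1) n)⁻¹) * (sig j * sig j) * (g0 * (run (j + 1) n)⁻¹)⁻¹)⁻¹,
        mul_mem hk (inv_mem (KS_gen hgr (by omega))), g0, hg0, j + 1, n, by omega, ?_⟩
      group
    · obtain ⟨i, rfl⟩ : ∃ i', i = i' + 1 := ⟨i - 1, by omega⟩
      refine ⟨k, hk, g0 * (sig i)⁻¹, mul_mem hg0 (inv_mem (sig_mem_strands (by omega))), j, n,
        hjn, ?_⟩
      rw [← run_mul_sig j n (by omega) (by omega), mul_inv_rev]
      simp only [mul_assoc]

theorem NF_all {M : ℕ} {g : Braid} (hg : g ∈ strands (M + 1)) : NF M g := by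
  have h : g ∈ strands (M + 1) ∧ NF M g := by
    unfold strands at hg
    induction hg using Subgroup.closure_induction_right with
    | one => exact ⟨one_mem _, 1, one_mem _, 1, one_mem _, M, 0, by omega, by simp [run]⟩
    | mul_right x hx y hy ih =>
      obtain ⟨i, hi, rfl⟩ := hy
      obtain ⟨ih1, ih2⟩ := ih
      have hm : x * (sig i)⁻¹ ∈ strands (M + 1) := mul_mem ih1 (inv_mem (sig_mem_strands hi))
      refine ⟨mul_mem ih1 (sig_mem_strands hi), ?_⟩
      obtain ⟨k, hk, g0, hg0, j, n, hjn, e⟩ := NF_step_inv (show i < M by omega) ih2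
      refine ⟨(x * (sig i)⁻¹) * (sig i * sig i) * (x * (sig i)⁻¹)⁻¹ * k,
        mul_mem (KS_gen hm hi) hk, g0, hg0, j, n, hjn, ?_⟩
      have e2 : x * sig i = (x * (sig i)⁻¹) * (sig i * sig i) * (x * (sig i)⁻¹)⁻¹ *
        (x * (sig i)⁻¹) := by group
      rw [e2, e]
      simp only [mul_assoc]
    | mul_inv_cancel x hx y hy ih =>
      obtain ⟨i, hi, rfl⟩ := hy
      obtain ⟨ih1, ih2⟩ := ih
      exact ⟨mul_mem ih1 (inv_mem (sig_mem_strands hi)), NF_step_inv (by omega) ih2⟩
  exact h.2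

/-- The pure braid group is generated by the conjugates of the squares of the generators. -/
theorem pureB_le (M : ℕ) : pureB M ≤
    Subgroup.closure {x | ∃ g ∈ strands M, ∃ i, i + 1 < M ∧ x = g * (sig i * sig i) * g⁻¹} := by
  show pureB M ≤ KS M
  induction M with
  | zero =>
    rintro g ⟨hg, -⟩
    have h : strands 0 ≤ KS 0 := strands_le fun i hi => by omega
    exact h hg
  | succ M ih =>
    rintro g ⟨hg, hp⟩
    obtain ⟨k, hk, g0, hg0, j, n, hjn, rfl⟩ := NF_all hg
    have hp1 : perm (k * g0 * (run j n)⁻¹) = 1 := hp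
    rw [map_mul, map_mul, KS_perm hk, one_mul, map_inv, mul_inv_eq_one] at hp1
    have h1 := perm_run_apply j n
    rw [← hp1, hjn, perm_of_le hg0 le_rfl] at h1
    have hn : n = 0 := by omega
    subst hn
    have h2 : perm g0 = 1 := by rw [hp1]; simp [run]
    have h3 := ih ⟨hg0, h2⟩
    simp only [run, inv_one, mul_one]
    exact mul_mem hk (KS_mono (Nat.le_succ M) h3)

/-! ### Facts about the filtration -/

theorem of_mem_U' {M : ℕ} {b : Braid} (hb : b ∈ strands M) : of b ∈ U M :=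
  Submodule.subset_span ⟨b, hb, rfl⟩

theorem one_mem_U' (M : ℕ) : (1 : R) ∈ U M := of_mem_U' (one_mem _)

theorem U_mul_le' (M : ℕ) : U M * U M ≤ U M := by
  unfold U
  rw [Submodule.span_mul_span]
  refine Submodule.span_le.2 ?_
  rintro _ ⟨_, ⟨b, hb, rfl⟩, _, ⟨c, hc, rfl⟩, rfl⟩
  refine Submodule.subset_span ⟨b * c, mul_mem hb hc, ?_⟩
  exact (FreeAbelianGroup.of_mul b c).symm

theorem U_mul_I_le' (M j : ℕ) : U M * I M j ≤ I M j := by
  cases j with
  | zero => exact U_mul_le' M
  | succ j =>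
    show U M * (U M * D M * I M j) ≤ U M * D M * I M j
    rw [← mul_assoc, ← mul_assoc]
    exact mul_le_mul' (mul_le_mul' (U_mul_le' M) le_rfl) le_rfl

theorem I_mul_le' (M i j : ℕ) : I M i * I M j ≤ I M (i + j) := by
  induction i with
  | zero => rw [zero_add]; exact U_mul_I_le' M j
  | succ i ih =>
    rw [show i + 1 + j = i + j + 1 by omega]
    show U M * D M * I M i * I M j ≤ U M * D M * I M (i + j)
    rw [mul_assoc]
    exact mul_le_mul' le_rfl ih

theorem mul_mem_I' {M i j : ℕ} {x y : R} (hx : x ∈ I M i) (hy : y ∈ I M j) :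
    x * y ∈ I M (i + j) := I_mul_le' M i j (Submodule.mul_mem_mul hx hy)

theorem U_mul_I' {M j : ℕ} {x y : R} (hx : x ∈ U M) (hy : y ∈ I M j) : x * y ∈ I M j := by
  have := mul_mem_I' (i := 0) (j := j) hx hy
  rwa [zero_add] at this

theorem I_mul_U' {M j : ℕ} {x y : R} (hx : x ∈ I M j) (hy : y ∈ U M) : x * y ∈ I M j :=
  mul_mem_I' (i := j) (j := 0) hx hy

theorem sub_mem_I' {M i : ℕ} (h : i + 1 < M) : of (sig i) - of (sig i)⁻¹ ∈ I M 1 := by
  have h1 : of (sig i) - of (sig i)⁻¹ ∈ D M := Submodule.subset_span ⟨i, h, rfl⟩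
  have h2 := Submodule.mul_mem_mul (Submodule.mul_mem_mul (one_mem_U' M) h1) (one_mem_U' M)
  rwa [one_mul, mul_one] at h2

theorem of_one' : (of (1 : Braid) : R) = 1 := rfl

/-- The braids which are congruent to `1`. -/
def HI (M j : ℕ) : Subgroup Braid where
  carrier := {x | x ∈ strands M ∧ of x - 1 ∈ I M j}
  mul_mem' := by
    rintro x y ⟨hx, hx'⟩ ⟨hy, hy'⟩
    refine ⟨mul_mem hx hy, ?_⟩
    have e : (of (x * y) : R) - 1 = (of x - 1) * of y + (of y - 1) := by
      rw [FreeAbelianGroup.of_mul, sub_mul, one_mul]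
      abel
    rw [e]
    exact add_mem (I_mul_U' hx' (of_mem_U' hy)) hy'
  one_mem' := by
    refine ⟨one_mem _, ?_⟩
    rw [of_one', sub_self]
    exact zero_mem _
  inv_mem' := by
    rintro x ⟨hx, hx'⟩
    refine ⟨inv_mem hx, ?_⟩
    have e : (of x⁻¹ : R) - 1 = -((of x - 1) * of x⁻¹) := by
      rw [sub_mul, one_mul, ← FreeAbelianGroup.of_mul, mul_inv_cancel, of_one']
      abel
    rw [e]
    exact neg_mem (I_mul_U' hx' (of_mem_U' (inv_mem hx)))

theorem pureB_le_HI (M : ℕ) : pureB M ≤ HI M 1 := by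
  refine (pureB_le M).trans ((Subgroup.closure_le _).2 ?_)
  rintro _ ⟨g, hg, i, hi, rfl⟩
  refine ⟨mul_mem (mul_mem hg (mul_mem (sig_mem_strands hi) (sig_mem_strands hi))) (inv_mem hg), ?_⟩
  have e : (of (g * (sig i * sig i) * g⁻¹) : R) - 1 =
      of g * of (sig i) * (of (sig i) - of (sig i)⁻¹) * of g⁻¹ := by
    rw [mul_sub, sub_mul]
    simp only [← FreeAbelianGroup.of_mul]
    rw [← of_one']
    congr 2
    · simp only [mul_assoc]
    · group
  rw [e]
  exact I_mul_U' (U_mul_I' (U_mul_le' M (Submodule.mul_mem_mul (of_mem_U' hg)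
    (of_mem_U' (sig_mem_strands hi)))) (sub_mem_I' hi)) (of_mem_U' (inv_mem hg))

theorem of_sub_mem {M : ℕ} {g g' : Braid} (hg : g ∈ strands M) (hg' : g' ∈ strands M)
    (h : perm g = perm g') : of g - of g' ∈ I M 1 := by
  have hp : g * g'⁻¹ ∈ pureB M := by
    refine mem_pureB.2 ⟨mul_mem hg (inv_mem hg'), ?_⟩
    rw [map_mul, map_inv, h, mul_inv_cancel]
  obtain ⟨-, h2⟩ := pureB_le_HI M hp
  have e : (of g : R) - of g' = (of (g * g'⁻¹) - 1) * of g' := by
    rw [sub_mul, one_mul, ← FreeAbelianGroup.of_mul, inv_mul_cancel_right]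
  rw [e]
  exact I_mul_U' h2 (of_mem_U' hg')

/-! ### The lower central series -/

theorem Gam_map {M M' : ℕ} (f : Braid →* Braid) (h : (pureB M).map f ≤ pureB M') (n : ℕ) :
    (Gam M n).map f ≤ Gam M' n := by
  induction n with
  | zero => exact h
  | succ n ih =>
    show (⁅Gam M n, pureB M⁆).map f ≤ ⁅Gam M' n, pureB M'⁆
    rw [Subgroup.map_commutator]
    exact Subgroup.commutator_mono ih h

theorem Gam_le (M n : ℕ) : Gam M n ≤ pureB M := by
  induction n with
  | zero => exact le_rfl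
  | succ n ih =>
    refine Subgroup.commutator_le.2 fun a ha b hb => ?_
    have ha' := ih ha
    rw [commutatorElement_def]
    exact mul_mem (mul_mem (mul_mem ha' hb) (inv_mem ha')) (inv_mem hb)

theorem Gam_le_strands (M n : ℕ) : Gam M n ≤ strands M := (Gam_le M n).trans inf_le_left

theorem perm_of_Gam {M n : ℕ} {γ : Braid} (h : γ ∈ Gam M n) : perm γ = 1 := (Gam_le M n h).2

theorem Gam_conj {M n : ℕ} {γ g : Braid} (h : γ ∈ Gam M n) (hg : g ∈ strands M) :
    g * γ * g⁻¹ ∈ Gam M n := by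
  refine Gam_map (M := M) (M' := M) (MulAut.conj g).toMonoidHom ?_ n ⟨γ, h, rfl⟩
  rintro _ ⟨x, ⟨hx, hx'⟩, rfl⟩
  have hx1 : perm x = 1 := hx'
  refine mem_pureB.2 ⟨mul_mem (mul_mem hg hx) (inv_mem hg), ?_⟩
  show perm (g * x * g⁻¹) = 1
  rw [map_mul, map_mul, hx1, mul_one, map_inv, mul_inv_cancel]

theorem Gam_anti (M : ℕ) {n n' : ℕ} (h : n ≤ n') : Gam M n' ≤ Gam M n := by
  induction h with
  | refl => exact le_rfl
  | step _ ih =>
    refine le_trans ?_ ih
    refine Subgroup.commutator_le.2 fun a ha b hb => ?_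
    rw [commutatorElement_def, mul_assoc, mul_assoc, ← mul_assoc b]
    exact mul_mem ha (Gam_conj (inv_mem ha) hb.1)

theorem Gam_mono {M M' : ℕ} (h : M ≤ M') (n : ℕ) : Gam M n ≤ Gam M' n := by
  have := Gam_map (M := M) (M' := M') (MonoidHom.id Braid) (by
    rintro _ ⟨x, ⟨hx, hx'⟩, rfl⟩
    exact ⟨strands_mono h hx, hx'⟩) n
  rwa [Subgroup.map_id] at this

theorem wide_Gam {m z M n : ℕ} (hm : m ≤ M) {γ : Braid} (h : γ ∈ Gam M n) :
    wide m z γ ∈ Gam (M + z) n := by
  refine Gam_map (M := M) (M' := M + z) (wide m z) ?_ n ⟨γ, h, rfl⟩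
  rintro _ ⟨x, ⟨hx, hx'⟩, rfl⟩
  have hx1 : perm x = 1 := hx'
  refine ⟨wide_mem hm hx, ?_⟩
  obtain ⟨g, -, hg⟩ := wide_conj (m := m) (z := z) hm
  show perm (wide m z x) = 1
  rw [hg x hx, map_mul, map_mul, hx1, mul_one, map_inv, mul_inv_cancel]

theorem Gam_le_HI (M n : ℕ) : Gam M n ≤ HI M (n + 1) := by
  induction n with
  | zero => exact pureB_le_HI M
  | succ n ih =>
    refine Subgroup.commutator_le.2 fun a ha b hb => ?_
    obtain ⟨ha1, ha2⟩ := ih ha
    obtain ⟨hb1, hb2⟩ := pureB_le_HI M hb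
    rw [commutatorElement_def]
    refine ⟨mul_mem (mul_mem (mul_mem ha1 hb1) (inv_mem ha1)) (inv_mem hb1), ?_⟩
    have e : (of (a * b * a⁻¹ * b⁻¹) : R) - 1 =
        ((of a - 1) * (of b - 1) - (of b - 1) * (of a - 1)) * of (a⁻¹ * b⁻¹) := by
      have e1 : (of a - 1) * (of b - 1) - (of b - 1) * (of a - 1) =
          (of (a * b) - of (b * a) : R) := by
        rw [FreeAbelianGroup.of_mul, FreeAbelianGroup.of_mul]
        noncomm_ring
      rw [e1, sub_mul, ← FreeAbelianGroup.of_mul, ← FreeAbelianGroup.of_mul, ← of_one']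
      congr 2
      · simp only [mul_assoc]
      · group
    rw [e]
    refine I_mul_U' (sub_mem (mul_mem_I' ha2 hb2) ?_) (of_mem_U' (mul_mem (inv_mem ha1)
      (inv_mem hb1)))
    have := mul_mem_I' hb2 ha2
    rwa [show 1 + (n + 1) = n + 1 + 1 by omega] at this

theorem of_sub_one_mem_of_Gam {M n : ℕ} {γ : Braid} (h : γ ∈ Gam M n) :
    of γ - 1 ∈ I M (n + 1) := (Gam_le_HI M n h).2

/-- Modulo the next subgroup the conjugate of `γ` depends only on the positions of the strands. -/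
theorem Gam_agree {M M' n : ℕ} (hM : M ≤ M') {γ : Braid} (hγ : γ ∈ Gam M n) {g g' : Braid}
    (hg : g ∈ strands M') (hg' : g' ∈ strands M') (h : ∀ a < M, perm g a = perm g' a) :
    (g * γ * g⁻¹)⁻¹ * (g' * γ * g'⁻¹) ∈ Gam M' (n + 1) := by
  have hq : g⁻¹ * g' ∈ strands M' := mul_mem (inv_mem hg) hg'
  obtain ⟨f, hf, hfw⟩ := exists_final (m := M) (M := M') (w := perm (g⁻¹ * g'))
    (fun a ha => by
      rw [map_mul, Perm.mul_apply, ← h a ha, map_inv, inv_apply'])
    (fun a ha => perm_of_le hq ha)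
  have hfs := final_le _ _ hf
  have hp : f⁻¹ * (g⁻¹ * g') ∈ pureB M' := by
    refine mem_pureB.2 ⟨mul_mem (inv_mem hfs) hq, ?_⟩
    rw [map_mul, map_inv, hfw, inv_mul_cancel]
  set p := f⁻¹ * (g⁻¹ * g') with hpdef
  have hcomm : Commute γ f := commute_of_final (Gam_le_strands M n hγ) hf
  have hc : ⁅γ⁻¹, p⁆ ∈ Gam M' (n + 1) :=
    Subgroup.commutator_mem_commutator (inv_mem (Gam_mono hM n hγ)) hp
  have h1 := Gam_conj hc (mul_mem hg hfs)
  have e : (g * γ * g⁻¹)⁻¹ * (g' * γ * g'⁻¹) = g * f * ⁅γ⁻¹, p⁆ * (g * f)⁻¹ := by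
    have e1 : g' = g * (f * p) := by rw [hpdef]; group
    have e2 : γ⁻¹ * f = f * γ⁻¹ := hcomm.inv_left.eq
    rw [e1, commutatorElement_def]
    calc (g * γ * g⁻¹)⁻¹ * (g * (f * p) * γ * (g * (f * p))⁻¹)
        = g * (γ⁻¹ * f) * p * γ * p⁻¹ * f⁻¹ * g⁻¹ := by group
      _ = _ := by rw [e2]; group
  rw [e]
  exact h1

/-- If the strands of `γ` are moved to positions `≥ m`, then the result is congruent to a braid of
the strands `≥ m`. -/
theorem Gam_final {m M M' n : ℕ} (hM : M + m ≤ M') {γ : Braid} (hγ : γ ∈ Gam M n) {g : Braid}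
    (hg : g ∈ strands M') (h : ∀ a < M, m ≤ perm g a) :
    ∃ γ' ∈ Gam M' n, γ' ∈ final m M' ∧ (g * γ * g⁻¹)⁻¹ * γ' ∈ Gam M' (n + 1) := by
  have hγs : γ ∈ strands M := Gam_le_strands M n hγ
  by_cases hM2 : M < 2
  · have h1 : strands M ≤ (⊥ : Subgroup Braid) := strands_le fun i hi => by omega
    have h2 : γ = 1 := Subgroup.mem_bot.1 (h1 hγs)
    subst h2
    refine ⟨1, one_mem _, one_mem _, ?_⟩
    rw [mul_one, mul_one, mul_inv_cancel, inv_one]
    exact one_mem _
  · obtain ⟨s, hs, hs'⟩ := wide_conj (m := 0) (z := m) (M := M) (Nat.zero_le M)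
    have hss : s ∈ strands M' := strands_mono hM (final_le _ _ hs)
    have hpair : ∀ i, i + 1 < M → m ≤ perm s i ∧ m ≤ perm s (i + 1) := by
      intro i hi
      have h1 := hs' (sig i) (sig_mem_strands hi)
      rw [wide_sig (Nat.zero_le i)] at h1
      have h2 := congrArg perm h1
      rw [perm_sig, map_mul, map_mul, map_inv, perm_sig] at h2
      have h3 := congrArg (fun w : Perm ℕ => w (perm s i)) h2
      have h4 := congrArg (fun w : Perm ℕ => w (perm s (i + 1))) h2
      simp only [Perm.mul_apply, inv_apply', swap_apply_left, swap_apply_right] at h3 h4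
      have hne : perm s i ≠ perm s (i + 1) := fun hh => by
        have := (perm s).injective hh
        omega
      constructor
      · by_contra hh
        rw [swap_apply_of_ne_of_ne (by omega) (by omega)] at h3
        exact hne h3
      · by_contra hh
        rw [swap_apply_of_ne_of_ne (by omega) (by omega)] at h4
        exact hne h4.symm
    have hsa : ∀ a < M, m ≤ perm s a := by
      intro a ha
      rcases Nat.lt_or_ge (a + 1) M with h1 | h1
      · exact (hpair a h1).1
      · obtain ⟨b, rfl⟩ : ∃ b, a = b + 1 := ⟨a - 1, by omega⟩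
        exact (hpair b ha).2
    obtain ⟨w, w1, w2, w3⟩ := exists_perm_ext (m := m) (M' := M') (fun a => perm s a)
      (fun a => perm g a) M
      (fun a ha => ⟨hsa a ha, perm_lt hss (by omega)⟩)
      (fun a ha => ⟨h a ha, perm_lt hg (by omega)⟩)
      (fun a _ b _ hab => (perm s).injective hab) (fun a _ b _ hab => (perm g).injective hab)
    obtain ⟨f, hf, hfw⟩ := exists_final w1 w2
    have hfs := final_le _ _ hf
    have hfin : s * γ * s⁻¹ ∈ final m M' := by
      rw [← hs' γ hγs]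
      have h1 : strands M ≤ final 0 M := strands_le fun i hi => sig_mem_final (Nat.zero_le i) hi
      have h2 := wide_final (m := 0) (z := m) (M := M) (h1 hγs)
      rw [zero_add] at h2
      exact final_mono le_rfl hM h2
    refine ⟨(f * s) * γ * (f * s)⁻¹, Gam_conj (Gam_mono (by omega) n hγ) (mul_mem hfs hss), ?_,
      Gam_agree (by omega) hγ hg (mul_mem hfs hss) fun a ha => ?_⟩
    · have e : (f * s) * γ * (f * s)⁻¹ = f * (s * γ * s⁻¹) * f⁻¹ := by group
      rw [e]
      exact mul_mem (mul_mem hf hfin) (inv_mem hf)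
    · rw [map_mul, Perm.mul_apply, hfw, w3 a ha]

/-- If the strands of `γ` are moved to positions `< N`, then the result is congruent to a braid of
the strands `< N`. -/
theorem Gam_initial {N M M' n : ℕ} (hM : M ≤ N) (hN : N ≤ M') {γ : Braid} (hγ : γ ∈ Gam M n)
    {g : Braid} (hg : g ∈ strands M') (h : ∀ a < M, perm g a < N) :
    ∃ γ' ∈ Gam N n, (g * γ * g⁻¹)⁻¹ * γ' ∈ Gam M' (n + 1) := by
  obtain ⟨w, w1, w2, w3⟩ := exists_perm_ext (m := 0) (M' := N) (fun a => a)
    (fun a => perm g a) M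
    (fun a ha => ⟨Nat.zero_le _, by omega⟩)
    (fun a ha => ⟨Nat.zero_le _, h a ha⟩)
    (fun a _ b _ hab => hab) (fun a _ b _ hab => (perm g).injective hab)
  obtain ⟨f, hf, hfw⟩ := exists_strands w2
  refine ⟨f * γ * f⁻¹, Gam_conj (Gam_mono hM n hγ) hf,
    Gam_agree (by omega) hγ hg (strands_mono hN hf) fun a ha => ?_⟩
  rw [hfw, w3 a ha]

end Pool.Agent.KS6_65.SL
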